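import Mathlib
import Pool.Agent.SSF.St
import Pool.Agent.KAU.St

/-!
# SSX: the sharp lower bound for all finite abelian groups (MP_ec93d3_co)

Architect helper86 (engine: helper86, helper97, helper22, helper48).  Definitions: `FS`, `lam`, `cnt` (Helper64.Rho), `Aper`, `Cap`, `gen`, `cf`, `it`, `st`,
`TT`, `PP` (Pool.Agent.SDG.St), `AS`, `sym`, `Prog`, `ins`, `outs` (Pool.Agent.MDR.St), `ks`, `Per`, `KAP`, `Exc` (Pool.Agent.SSC.St), `AE`, `NF`, `APK`,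
`Sep`, `Gam`, `C1` (Pool.Agent.SSE.St), `HKF` (Pool.Agent.SSF.St), `DCX`, `TolP` (Pool.Agent.KAU.St).

Aim (`PR`): a family of `t` nonzero elements of an arbitrary finite abelian group, at most two of them equal to `± x` for each `x`, with
aperiodic set of sums, has at least `cf 2 t = 1 + (t + 1) ^ 2 / 4` sums.  SSF is the case of rank at most two.

The names `PR`, `CtxF`, `DC`, `C1N`, `C2N`, `St_FlF`, ... of this folder replace the ones of `SSF` (same names on purpose: many files are copies).  The facts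
`KSF, F4F, FV, Kh2F, Kh3F, Kh4F, KhV, GmF, KgF, BoF, SpF, XcF` of `SSF` do not need any hypothesis on the rank and are used as they are (`SSF.St_KSF`, ...).
In this folder `R2 G` is a dummy (`True`).

Notation in the docstrings: `N = |G|`, `l = |u|`, `T = FS s f`, `i D = it D i`, `c1 t = cf 2 t = 1 + (t + 1) ^ 2 / 4` (SDG.Nm1), `J = (t + 1) / 2`, `k = |K|`.
Every `St_X` is a statement; its proof is in the docstring.  A module `Pool/Agent/SSX/X.lean` proves `thm_X : St_A → St_B → ... → St_X` with exactly the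
hypotheses listed in the docstring, in this order (facts of `SDG`, `MDR`, `SSC`, `SSE`, `SSF` have the prefix `SDG.`, `MDR.`, `SSC.`, `SSE.`, `SSF.`).
DO NOT use the tactic `convert` (the final check rejects it).
-/

set_option autoImplicit false

noncomputable section

open Finset Pool.Agent.Helper64.Rho Pool.Agent.SDG Pool.Agent.MDR Pool.Agent.SSC Pool.Agent.SSE Pool.Agent.SSF
open scoped Classical Pointwise

namespace Pool.Agent.SSX

/-- a dummy: no condition on the rank (it replaces the definition of SSF in the copied files) -/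
def R2 (G : Type) [AddCommGroup G] : Prop := G = G

/-- the lower bound for all families with `t` members in finite abelian groups -/
def PR (t : ℕ) : Prop :=
  ∀ (G ι : Type) [AddCommGroup G] [Finite G] (s : Finset ι) (f : ι → G), R2 G → s.card = t → (∀ i ∈ s, f i ≠ 0) →
    Cap 2 s f → Aper (FS s f) → cf 2 t ≤ (FS s f).card

/-- `s` is a violating family with the least number of members, it generates the noncyclic group `G` -/
def CtxF {G ι : Type} [AddCommGroup G] [Finite G] (t : ℕ) (s : Finset ι) (f : ι → G) : Prop :=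
  (∀ u < t, PR u) ∧ (∀ h u : ℕ, 2 ≤ h → TT h u) ∧ R2 G ∧ ¬ IsAddCyclic G ∧ s.card = t ∧ (∀ i ∈ s, f i ≠ 0) ∧ Cap 2 s f ∧ Aper (FS s f) ∧
    gen s f = ⊤ ∧ (FS s f).card < cf 2 t

/-- dense cosets are cosets of subgroups that are small or killed by 2 -/
def DC {G ι : Type} [AddCommGroup G] [Finite G] (u : Finset ι) (f : ι → G) : Prop :=
  ∀ (K : AddSubgroup G) (c : G), K ≠ ⊥ → c + c ∉ K →
    Nat.card K ≤ (u.filter fun i => f i - c ∈ K ∨ f i + c ∈ K).card + (ins u f K).card → Nat.card K ≤ 4 ∨ ∀ x ∈ K, x + x = 0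

/-- first conclusion of the engine, noncyclic groups -/
def C1N (l : ℕ) : Prop :=
  ∀ (G ι : Type) [AddCommGroup G] [Finite G] (u : Finset ι) (f : ι → G), R2 G → ¬ IsAddCyclic G → u.card = l → AE u f → Aper (FS u f) →
    gen u f = ⊤ → DC u f → Sep u f → 2 * (FS u f).card ≤ Nat.card G → 2 + l * (l + 1) ≤ 2 * (FS u f).card ∨ Exc f u

/-- second conclusion of the engine, noncyclic groups: one more sum -/
def C2N (l : ℕ) : Prop :=
  ∀ (G ι : Type) [AddCommGroup G] [Finite G] (u : Finset ι) (f : ι → G), R2 G → ¬ IsAddCyclic G → u.card = l → AE u f → Aper (FS u f) →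
    gen u f = ⊤ → DC u f → Sep u f → 2 * (FS u f).card ≤ Nat.card G → l * l + 2 * l ≤ Nat.card G →
      4 + l * (l + 1) ≤ 2 * (FS u f).card ∨ Exc f u ∨ ∃ K : AddSubgroup G, Gam u f K

/-- antisymmetric splitting of `s` in two almost equal parts -/
def Spl {G ι : Type} [AddCommGroup G] (s p r : Finset ι) (f : ι → G) : Prop :=
  Disjoint p r ∧ p ∪ r = s ∧ AS p f ∧ AS r f ∧ p.card ≤ r.card + 1 ∧ r.card ≤ p.card + 1

/-- `x` is a coloop of `p` modulo 2: some subgroup of index 2 contains all members of `p` except `x` -/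
def Clp {G ι : Type} [AddCommGroup G] (p : Finset ι) (f : ι → G) (x : ι) : Prop :=
  ∃ M : AddSubgroup G, M.index = 2 ∧ f x ∉ M ∧ ∀ j ∈ p.erase x, f j ∈ M

/-! ## Structure lemma -/

/-- **FlF** (1 h, from SSF.KSF, SDG.Sm, SDG.Ba1; adapt SSF.FlF).  Full slices, `K` is not killed by 2.
Proof.  As SSF.FlF if the first alternative of KSF holds for `A = Z.image f` (`|A| = |Z|`, `Cap 1`).  Otherwise `A = a0 + L`, `L ⊆ K` (differences of elements of `A`), `|L| = |Z|`, `L` is killed by 2, so `L ≠ K`, `|L|` divides `|K|`: `2 |Z| ≤ |K|`, `2 |ins u f K| ≥ |K|`.  But `2 |ins u f K| + 1 ≤ |K|`: the elements `0`, `± f i` (`i ∈ ins u f K`) of `K` are different (`AE`). -/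
def St_FlF : Prop :=
  ∀ (G ι : Type) [AddCommGroup G] [Finite G] (u Z : Finset ι) (f : ι → G) (K : AddSubgroup G) (c : G), (∃ x ∈ K, x + x ≠ 0) → AE u f →
    Aper (FS u f) → Z ⊆ u → (∀ i ∈ Z, f i - c ∈ K) → c ∉ K → Nat.card K ≤ Z.card + (ins u f K).card →
      ∀ (x : G) (k : ℕ), 1 ≤ k → k + 1 ≤ Z.card → x - k • c ∈ K → x ∈ FS (Z ∪ ins u f K) f

/-- **WiF** (0.4 h, from FlF; adapt SSF.WiF).  The window. -/
def St_WiF : Prop :=
  ∀ (G ι : Type) [AddCommGroup G] [Finite G] (s u Z : Finset ι) (f : ι → G) (K : AddSubgroup G) (c : G) (i0 i1 : ι), (∃ x ∈ K, x + x ≠ 0) →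
    u ⊆ s → AE u f → Aper (FS u f) → Z ⊆ u → (∀ i ∈ Z, f i - c ∈ K) → c ∉ K → Nat.card K ≤ Z.card + (ins u f K).card →
    i0 ∈ Z → i1 ∈ Z → i0 ≠ i1 → ∀ x ∈ st (FS ((s.erase i0).erase i1) f) K, x + c ∈ FS s f

/-- **SRF** (1 h, from SDG.Nm1, SDG.Ba1, SDG.Kn, SDG.Qu, MDR.Sg, MDR.SC, MDR.N5, SSC.Nu, WiF; adapt SSF.SRF).  THE STRUCTURE LEMMA.
Proof.  Suppose `|K| ≥ 5` and `K` is not killed by 2, or `|K| = 3` (then `K` is not killed by 2); from here on exactly as SSF.SRF. -/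
def St_SRF : Prop :=
  ∀ (G ι : Type) [AddCommGroup G] [Finite G] (t : ℕ) (s u : Finset ι) (f : ι → G) (K : AddSubgroup G) (c : G), CtxF t s f → u ⊆ s → AS u f →
    K ≠ ⊥ → c + c ∉ K → Nat.card K ≤ (u.filter fun i => f i - c ∈ K ∨ f i + c ∈ K).card + (ins u f K).card →
      (Nat.card K ≤ 4 ∨ ∀ x ∈ K, x + x = 0) ∧ (Nat.card K = 3 → (ins s f K).card = 1 ∧ 8 ≤ t)

/-- **RgF** (0.6 h, from SSE.SyE, SSE.NfE; adapt SSF.RgF).  (1), (3) as in SSF.RgF.  (2) only for cyclic `G`: a subgroup killed by 2 of a cyclic group has at most two elements. -/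
def St_RgF : Prop :=
  (∀ (G ι : Type) [AddCommGroup G] [Finite G] (u v : Finset ι) (f : ι → G), v ⊆ u → DC u f → DC v f) ∧
  (∀ (G ι : Type) [AddCommGroup G] [Finite G] (u : Finset ι) (f : ι → G), IsAddCyclic G → AE u f → DC u f → Reg u f) ∧
  (∀ (G ι : Type) [AddCommGroup G] [Finite G] (u : Finset ι) (f : ι → G) (K : AddSubgroup G) (a : ℕ), 3 ≤ K.index → KAP u f K a →
    ∃ c : G, c + c ∉ K ∧ 3 ≤ (u.filter fun i => f i - c ∈ K ∨ f i + c ∈ K).card)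

/-- **TfF** (1 h, no hypotheses; adapt SSF.TfF).  Transfer to the generated subgroup. -/
def St_TfF : Prop :=
  ∀ (G ι : Type) [AddCommGroup G] [Finite G] (s : Finset ι) (f : ι → G),
    ∃ f' : ι → (gen s f), (∀ i ∈ s, (f' i : G) = f i) ∧ gen s f' = ⊤ ∧ (FS s f').card = (FS s f).card ∧
      (Aper (FS s f) → Aper (FS s f')) ∧ (AE s f → AE s f') ∧ (DC s f → DC s f') ∧ (R2 G → R2 (gen s f)) ∧
      ∀ c : ℕ, (∀ M : AddSubgroup G, M < gen s f → c ≤ (outs s f M).card) →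
        ∀ M' : AddSubgroup (gen s f), M' ≠ ⊤ → c ≤ (outs s f' M').card

/-! ## Families nearly filled by a group killed by 2 -/

/-- **LcW** (1.5 h, from SSE.SyE, SSE.LvE; compare Pool/Agent/SSE/Lc.lean).  Levels of a family that is nearly filled by a group `K` killed by 2, and a progression modulo `K`.
Proof.  `D = sym u f`, `l = |u|`, `d, a` from `APK D K`, `f', lv` from LvE.  No member is in `K` (it would be an involution).  `|st D K| = k (2 a + 1)`, `|D| = 2 l + 1` (SyE), so `k (2 a + 1) + 1 ≤ 2 l + 1 + k`: `a k ≤ l` (nearly filled).  As in Lc.lean: `2 a + 1 ≤ q = K.index`, `1 ≤ lv i ≤ a` for `i ∈ u` (`lv i ≠ 0` since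
`f i ∉ K`), at most `k` members have level `n` (the elements `f' i - n d ∈ K` are different).  So `l = ∑_{n = 1}^a c_n ≤ a k ≤ l`: `l = a k` and `c_n = k` for `1 ≤ n ≤ a`.  `a ≥ 1` since `l ≥ 1`. -/
def St_LcW : Prop :=
  ∀ (G ι : Type) [AddCommGroup G] [Finite G] (u : Finset ι) (f : ι → G) (K : AddSubgroup G), AE u f → 1 ≤ u.card → (∀ x ∈ K, x + x = 0) →
    (st (sym u f) K).card + 1 ≤ (sym u f).card + Nat.card K → APK (sym u f) K →
      ∃ (d : G) (a : ℕ) (f' : ι → G) (lv : ι → ℕ), (∀ x : G, ∃ k : ℕ, x - k • d ∈ K) ∧ (∀ i, f' i = f i ∨ f' i = - f i) ∧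
        (∀ i, f' i - lv i • d ∈ K) ∧ 2 * a + 1 ≤ K.index ∧ 1 ≤ a ∧ (∀ i ∈ u, 1 ≤ lv i ∧ lv i ≤ a) ∧
        (∀ n, 1 ≤ n → n ≤ a → (u.filter fun i => lv i = n).card = Nat.card K) ∧ u.card = a * Nat.card K

/-- **FU** (1.2 h, no hypotheses).  A full coset of a group killed by 2: `S` consists of `k` members with values exactly `c + K`.
Proof.  `f i = c + κ i`, `κ` a bijection from `S` to `K`.  The sums of `v` members are `v c + (κ-sums)`.
(1) `v` odd, `1 ≤ v ≤ k`: for a subset `U` of `v` members and `x ∈ K` let `U'` be the set of the members with values `c + κ i + x`, `i ∈ U`: its sum is the sum of `U` plus `v x = x`.  So all of `v c + K` is obtained.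
(2) `1 ≤ v ≤ k - 1`: let `U` be a subset of `v` members with sum `σ`.  Replacing a fixed `u0 ∈ U` by `w ∉ U` gives `σ + (κ w - κ u0)`: `k - v` different elements, and `σ` itself: `k - v + 1` elements of `v c + K`.  Replacing `u ∈ U` by a fixed `w0 ∉ U` gives `v + 1` elements.  One of the numbers is at least `k / 2 + 1` (`2 max (k - v, v) ≥ k`). -/
def St_FU : Prop :=
  ∀ (G ι : Type) [AddCommGroup G] [Finite G] (S : Finset ι) (f : ι → G) (K : AddSubgroup G) (c : G), (∀ x ∈ K, x + x = 0) →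
    (∀ i ∈ S, f i - c ∈ K) → S.card = Nat.card K → (∀ i ∈ S, ∀ j ∈ S, f i = f j → i = j) →
      (∀ v : ℕ, v % 2 = 1 → v ≤ Nat.card K → ∀ x ∈ K, v • c + x ∈ FS S f) ∧
      (∀ v : ℕ, 1 ≤ v → v + 1 ≤ Nat.card K → Nat.card K + 2 ≤ 2 * ((FS S f).filter fun x => x - v • c ∈ K).card) ∧
      (∀ v : ℕ, v ≤ Nat.card K → ∃ x ∈ FS S f, x - v • c ∈ K)

/-- **FW** (1.5 h, from SSC.Et, FU; adapt Pool/Agent/SSF/FV.lean).  `K` killed by 2, `k = |K| ≥ 4`, the levels 1 and 2 are full.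
Proof.  `k` is even (`K` contains an element of order 2).  `Z` = members of level 1 (values `d + K`), `Y` = members of level 2 (values `2 d + K`), `k` members each.  FU for `Z` (`c = d`) and `Y` (`c = 2 d`).  The level `v` is full if `v = i + 2 j`, `0 ≤ i, j ≤ k`, and `i` or `j` is odd (a full level plus a nonempty one).
`v` odd, `v = 2 w + 1 ≤ 3 k - 1`: `w ≤ k`: `i = 1`, `j = w`; `w > k`: `j = k`, `i = v - 2 k ≤ k - 1` odd.  `v = 2 w` even, `2 ≤ v ≤ 3 k - 2`: `w ≤ k - 1` odd: `j = w`, `i = 0`; `w ≤ k - 1` even: `j = w - 1`, `i = 2`; `w ≥ k`: `j = k - 1` (odd), `i = 2 w - 2 k + 2 ≤ k`.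
So `Per (FS (Z ∪ Y) f) K d (3 k)`.  SSC.Et with `m = 3 k`, `R` = members of level `≥ 3` (`3 k + ∑_{j ∈ R, lv j < lv i} lv j = ∑_{j ∈ u, lv j < lv i} lv j`). -/
def St_FW : Prop :=
  ∀ (G ι : Type) [AddCommGroup G] [Finite G] (u : Finset ι) (f : ι → G) (K : AddSubgroup G) (d : G) (lv : ι → ℕ), (∀ x ∈ K, x + x = 0) → 4 ≤ Nat.card K →
    AS u f → (∀ i ∈ u, f i - lv i • d ∈ K) → (u.filter fun i => lv i = 1).card = Nat.card K → (u.filter fun i => lv i = 2).card = Nat.card K →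
      (∀ i ∈ u, 3 ≤ lv i → lv i + 1 ≤ ∑ j ∈ u.filter (fun j => lv j < lv i), lv j) → Per (FS u f) K d (∑ i ∈ u, lv i)

/-- **KhW** (2 h, from SDG.Ba1, MDR.Sg, LcW, FU, FW, SSE.Cn; compare Pool/Agent/SSF/KhV.lean).  `K` killed by 2, `k = |K| ≥ 5` (so `k` is even and `k ≥ 8`).
Proof.  `k` is a power of 2 (`Nat.card K = 2 ^ n`, a 2-group; or: `4 ∣ k`), so `k ≥ 8`.  LcW: `l = a k`, all levels `1, ..., a` have `k` members.  Pass to `f'` (MDR.Sg), `X = FS u f'`, `q = K.index`, `N = k q`, `q ≥ 2 a + 1`.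
`a ≥ 2`: FW (level `n ≥ 3`: lower levels `k n (n-1) / 2 ≥ n + 1`): `Per X K d m`, `m = k a (a+1) / 2`.  `m < q`: SSE.Cn (3): `|X| ≥ k (m-1) + 1 + 1` (level 0: `0`, level `m`: the sum of all), `2 |X| ≥ k^2 a (a+1) - 2 k + 4 ≥ 4 + a k (a k + 1)` (`a k ≥ a + 2`).  `m ≥ q + 1`: `X = G`, not aperiodic.
`m = q`: `|X| ≥ k (q-1) + 1 = N - k + 1`: against `2 |X| ≤ N` (`N = k q ≥ 5 k`); if `l (l-1) + 3 ≤ N`: `2 |X| ≥ 2 l (l-1) + 8 - 2 k ≥ 4 + l (l+1)` (`l ≥ 2 k`: `l^2 - 3 l - 2 k + 4 ≥ (l-2)^2`).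
`a = 1`: `l = k`, all members have level 1, FU with `S = u`, `c = d` for `f'`: level `v` odd, `v ≤ k - 1`: full; level `v` even, `2 ≤ v ≤ k - 2`: at least `k / 2 + 1` elements; level 0 contains `0`.  `q ≥ k`: the levels `0, ..., k - 1` are different (SSE.Cn (1)): `|X| ≥ 1 + k (k/2) + (k/2 - 1)(k/2 + 1) = 3 k^2 / 4`,
`2 |X| ≥ 3 k^2 / 2 ≥ 4 + k (k+1)` (`k ≥ 8`).  `q ≤ k - 1`: `N = k q ≤ k (k-1)`, so the first alternative of the last hypothesis is impossible and `2 |X| ≤ N`; the levels `0, 1, ..., q - 1`: `|X| ≥ 1 + k + (q - 2)(k/2 + 1) = k q / 2 + q - 1 > N / 2` (`q ≥ 3`): contradiction. -/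
def St_KhW : Prop :=
  ∀ (G ι : Type) [AddCommGroup G] [Finite G] (u : Finset ι) (f : ι → G) (K : AddSubgroup G), HKF u f K → (∀ x ∈ K, x + x = 0) → 5 ≤ Nat.card K →
    4 + u.card * (u.card + 1) ≤ 2 * (FS u f).card

/-! ## Growth and averaging -/

/-- **GrF** (0.8 h, from KAU.GRA, SSF.Kh2F, SSF.Kh3F, SSF.Kh4F, SSF.KhV, KhW; adapt SSF.GrF).  The growth alternatives for a family.
Proof.  KAU.GRA (`DC u f` is `KAU.DCX u f`).  First alternative: `K ≠ ⊥`, `HKF u f K`: `|K| ∈ {2, 3, 4}`: Kh2F, Kh3F, `K` cyclic: Kh4F, `K` killed by 2: KhV; `|K| ≥ 5`, `K` killed by 2: KhW. -/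
def St_GrF : Prop :=
  ∀ (G ι : Type) [AddCommGroup G] [Finite G] (u : Finset ι) (f : ι → G), R2 G → ¬ IsAddCyclic G → AE u f → Aper (FS u f) → gen u f = ⊤ → 5 ≤ u.card →
    DC u f → u.card * (u.card - 1) + 2 ≤ Nat.card G → (u.card * (u.card - 1) + 3 ≤ Nat.card G ∨ 2 * (FS u f).card ≤ Nat.card G) →
      Exc f u ∨ (∃ K : AddSubgroup G, Gam u f K ∧ 2 + u.card * (u.card + 1) ≤ 2 * (FS u f).card) ∨ 4 + u.card * (u.card + 1) ≤ 2 * (FS u f).card ∨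
      ∀ i, 1 ≤ i → (∃ τ : ℕ, KAU.TolP u.card τ ∧ Nat.card G ≤ (it (sym u f) i).card + τ) ∨ i * (2 * u.card + 2) ≤ (it (sym u f) i).card + 1 ∨
        (i = 2 ∧ 4 * u.card + 2 ≤ (it (sym u f) i).card)

/-- **A1X** (2 h, from MDR.Av0; compare Pool/Agent/SSE/A1E.lean).  (All formulas were checked by computer for `h ≤ 60`.)
Proof.  `x = |X| = 1 + l (l-1) / 2 + y`, `0 ≤ y ≤ l - 1` (from the two inequalities for `2 |X|`), `j = l - 2`.  Uniform tolerance: `2 x ≤ |i D| + τ` or `i (2l+2) ≤ |i D| + 2` for all `i ≥ 1`, with `τ ≥ 4` and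
`3 τ ≤ 4 h` if `l = 2 h` (`h ≥ 3`; take `τ = 4 h / 3`), `τ ≤ max (4, h + 1)` if `l = 2 h + 1` (`h ≥ 2`; take `τ = max (4, h + 1)`).  `|0 D| = 1`.  MDR.Av0 with `k`: `j ∑_{i < k} |i D| + (x - k j) |k D| ≤ x^2`.
`l = 2 h`: `k = h`, `j = 2 h - 2`, `x - k j = h + 1 + y`.  `|i D| ≥ i (4h+2) - 2` for `1 ≤ i ≤ h - 2` (`2 x - τ` is larger), `|(h-1) D| ≥ (h-1)(4h+2) - 2 - (τ - 6 - 2 y)⁺`, `|h D| ≥ 2 x - τ` (`h (4h+2) - 2 ≥ 2 x - τ` because `2 y ≤ 4 h - 2`, `τ ≥ 4`).  Left side minus `x^2`: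
`2 h^3 - 7 h^2 + 14 h - 5 + (2h+2) y + y^2 - τ (h + 1 + y) - (2h-2) (τ - 6 - 2 y)⁺ > 0` (`z⁺ = max (z, 0)`; in Lean treat the two cases `τ ≤ 6 + 2 y`, `τ ≥ 6 + 2 y`; use `3 τ ≤ 4 h`, small `h` by `interval_cases`).
`l = 2 h + 1`: `j = 2 h - 1`, `i (2l+2) - 2 = i (4h+4) - 2`.  If `2 y ≤ 2 h - 4 + τ`: `k = h`, `x - k j = 2 h + 1 + y`, `|i D| ≥ i (4h+4) - 2` for `1 ≤ i ≤ h - 1`, `|h D| ≥ 2 x - τ`; left side minus `x^2` is `2 h^3 - 5 h^2 + 14 h - 2 + (4h+2) y + y^2 - τ (2h+1+y) > 0`.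
If `2 y > 2 h - 4 + τ`: `k = h + 1`, `x - k j = 2 + y`, `|i D| ≥ i (4h+4) - 2` for `1 ≤ i ≤ h`, `|(h+1) D| ≥ 2 x - τ`; left side minus `x^2` is `2 h^3 - h^2 + 4 h + 2 + 4 y + y^2 - τ (2 + y) > 0`.  Contradiction in all cases. -/
def St_A1X : Prop :=
  ∀ (G : Type) [AddCommGroup G] [Finite G] (X D : Finset G) (l : ℕ), (0 : G) ∈ D → 5 ≤ l → (∀ y ∈ D, lam X y + 2 ≤ l) →
    2 + l * (l - 1) ≤ 2 * X.card → 2 * X.card ≤ l * (l + 1) →
    (∀ i, 1 ≤ i → (∃ τ : ℕ, KAU.TolP l τ ∧ 2 * X.card ≤ (it D i).card + τ) ∨ i * (2 * l + 2) ≤ (it D i).card + 2) → False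

/-- **A2X** (1.5 h, from MDR.Av0; adapt Pool/Agent/SSF/A2W.lean).  (All formulas were checked by computer for `h ≤ 80`.)
Proof.  `j = l - 1`, `x = 1 + l (l+1) / 2`; uniform tolerance `τ` as in A1X (`τ ≥ 4`; `l = 2 h`: `3 τ ≤ 4 h`; `l = 2 h + 1`: `τ ≤ max (4, h + 1)`), `B = l^2 + 2 l - τ`.  `|0 D| = 1`, `|1 D| = 2 l + 1`, `|2 D| ≥ min (B, 4 l + 2)`, `|i D| ≥ min (B, i (2l+2) - 1)` for `i ≥ 3`.  MDR.Av0 with `k = h + 1`:
`l = 2 h` (`h ≥ 3`): `j = 2h - 1`, `x - k j = 2`, `|i D| ≥ i (4h+2) - 1` for `1 ≤ i ≤ h` (`h (4h+2) - 1 ≤ B`), `|(h+1) D| ≥ B`: left side minus `x^2` is `6 h - 1 - 2 τ > 0`.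
`l = 2 h + 1` (`h ≥ 2`): `j = 2h`, `x - k j = h + 2`, `|i D| ≥ i (4h+4) - 1` for `1 ≤ i ≤ h`, `|(h+1) D| ≥ B`: left side minus `x^2` is `h^2 + 7 h + 2 - (h + 2) τ > 0` (for `h = 2`, `k = 3`; `|2 D| ≥ 4 l + 2` is not needed). -/
def St_A2X : Prop :=
  ∀ (G : Type) [AddCommGroup G] [Finite G] (X D : Finset G) (l : ℕ), (0 : G) ∈ D → 5 ≤ l → (∀ y ∈ D, lam X y + 1 ≤ l) →
    2 * X.card = 2 + l * (l + 1) → D.card = 2 * l + 1 →
    (∀ i, 1 ≤ i → (∃ τ : ℕ, KAU.TolP l τ ∧ l * l + 2 * l ≤ (it D i).card + τ) ∨ i * (2 * l + 2) ≤ (it D i).card + 1 ∨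
      (i = 2 ∧ 4 * l + 2 ≤ (it D i).card)) → False

/-- **GdX** (1.8 h, uses Helper58.Kneser; compare Pool/Agent/SDG/Gr.lean).  Weak growth.  `D = - D`, `0 ∈ D`, `D` generates `G`, `|D| ≥ 2 l - 1`.
Proof.  Suppose `i D ≠ G`.  `H` = all periods of `i D` (a subgroup `≠ G`), `D̄` = image of `D` in `G / H`, `m = |D̄|`.  As in SDG.Gr (Kneser): `|i D| ≥ |H| (i (m - 1) + 1)`, `m ≥ 3` (`m = 1`: `D ⊆ H ≠ G`; `m = 2`: `D̄ = {0, u}`, `- u = u`, `i D̄ = {0, u}` (`i ≥ 1`) has the period `u`: contradiction).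
`|H| m ≥ |D| ≥ 2 l - 1`, `3 (i (m-1) + 1) ≥ m (2 i + 1)` (`(i - 1)(m - 3) ≥ 0`), so `3 |i D| ≥ (2 l - 1)(2 i + 1) ≥ 3 (i l + 1)` (`(i + 2)(l - 2) ≥ 0`). -/
def St_GdX : Prop :=
  ∀ (G : Type) [AddCommGroup G] [Finite G] (D : Finset G) (l : ℕ), (0 : G) ∈ D → (∀ y ∈ D, -y ∈ D) →
    AddSubgroup.closure (D : Set G) = ⊤ → 2 ≤ l → 2 * l ≤ D.card + 1 →
      ∀ i, 1 ≤ i → (∀ x : G, x ∈ it D i) ∨ i * l + 1 ≤ (it D i).card

/-- **DrO** (2 h, from SDG.Nm1, SDG.Ba1, SDG.Av, SSE.SyE, TfF, GdX; `lam_compl`).  The drop case of OdF.  `l = |u|`, `M = gen (u.erase i0) f` has index 2, `X = FS u f`, `X' = FS (u.erase i0) f ⊆ M`.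
Proof.  (1) `i ∈ u`, `i ≠ i0`: `gen (u.erase i) f = ⊤`.  Otherwise `f i ∉ gen (u.erase i) f`, and `|X| = 2 |X'| = 4 |FS ((u.erase i0).erase i) f| ≥ 4 c1 (l - 2)` (SDG.Ba1 (4) twice: `f i0 ∉ M` since `gen u f = ⊤`; `f i ∉ gen ((u.erase i0).erase i) f ≤ gen (u.erase i) f`), but `8 c1 (l-2) ≥ 2 (l-1)^2 + 6 > l (l+1)`.
(2) So `lam X (f i) ≤ l - 2` for `i ∈ u.erase i0`.  `X = X' ∪ (X' + f i0)`, `X' ⊆ M`, `f i0 ∉ M`: for `y ∈ M`: `lam X y = 2 lam X' y`.  With `j = (l - 2) / 2`: `lam X' (f i) ≤ j`.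
(3) Pass to the group `M` (TfF for `u.erase i0`; `lam` is the same because `M → G` is injective): `X'' = FS (u.erase i0) f'`, `|X''| = |X'|`, `D = sym (u.erase i0) f'` generates `M`, `|D| = 2 l - 1`, `lam X'' ≤ j` on `D` (SyE).  Let `X_a = X''` if `2 |X''| ≤ |M|` and the complement of `X''` otherwise (`lam_compl`).
`4 |X''| = 2 |X| ≥ 2 + l (l-1)`, `4 (|M| - |X''|) = 2 N - 2 |X| ≥ 2 + l (l-1)` (`N = 2 |M|`).  So `4 |X_a| ≥ 2 + l (l-1)`, `2 |X_a| ≤ |M|`, and `|X_a| ≥ (j + 1) j + 1` (`j + 1 = l / 2`).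
(4) SDG.Av for `X_a`, `D`, `j`: `2 i (j + 1) + 1 ≤ i l + 1 ≤ |i D|` or `i D = M`, `2 |X_a| ≤ |M| = |i D|` (GdX; `i = 0`: `|0 D| = 1`): contradiction. -/
def St_DrO : Prop :=
  ∀ (G ι : Type) [AddCommGroup G] [Finite G] (u : Finset ι) (f : ι → G) (i0 : ι), (∀ n < u.card, PR n) → AE u f → Aper (FS u f) → gen u f = ⊤ →
    5 ≤ u.card → i0 ∈ u → (gen (u.erase i0) f).index = 2 → (∀ i ∈ u, gen (u.erase i) f = ⊤ → lam (FS u f) (f i) + 2 ≤ u.card) →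
    2 * (FS u f).card ≤ u.card * (u.card + 1) → 2 + u.card * (u.card - 1) ≤ 2 * (FS u f).card →
    2 + u.card * (u.card - 1) + 2 * (FS u f).card ≤ 2 * Nat.card G → False

/-! ## The engine (copies of SSF) -/

/-- **C4F**.  `l = 4` (copy of SSF.C4F). -/
def St_C4F : Prop := C1N 4 ∧ C2N 4

/-- **DrF** (copy of SSF.DrF, from SDG.Nm1, SDG.Ba1, SDG.Sm, SSC.Nu, SSE.B3E). -/
def St_DrF : Prop :=
  ∀ (G ι : Type) [AddCommGroup G] [Finite G] (u : Finset ι) (f : ι → G) (M : AddSubgroup G), (∀ n < u.card, PR n) → R2 G → AE u f →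
    Aper (FS u f) → gen u f = ⊤ → 5 ≤ u.card → 2 * (FS u f).card ≤ 2 + u.card * (u.card + 1) → M.index ≠ 2 → (outs u f M).card ≠ 2

/-- **DpF** (copy of SSF.DpF, from SDG.Ba1, SSE.KeE, RgF, TfF). -/
def St_DpF : Prop :=
  ∀ l : ℕ, 4 ≤ l → C1 l → C1N l → ∀ (G ι : Type) [AddCommGroup G] [Finite G] (u : Finset ι) (f : ι → G) (i : ι), R2 G → AE u f →
    Aper (FS u f) → gen u f = ⊤ → DC u f → (∀ M : AddSubgroup G, M ≠ ⊤ → M.index ≠ 2 → 3 ≤ (outs u f M).card) →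
    2 * (FS u f).card ≤ Nat.card G → u.card = l + 1 → i ∈ u → gen (u.erase i) f ≠ ⊤ → 4 + u.card * (u.card + 1) ≤ 2 * (FS u f).card

/-- **C1F** (from SDG.Ba1, SDG.Sm, SSE.SyE, A1X, SSE.KxE, SSF.GmF, RgF, DrF, DpF, GrF; adapt SSF.C1F: `N ≥ 2 x ≥ 4 + l (l-1)`). -/
def St_C1F : Prop := ∀ l : ℕ, 5 ≤ l → (∀ n < l, PR n) → C1 (l - 1) → C1N (l - 1) → C2N (l - 1) → C1N l

/-- **C2F** (from SDG.Ba1, SSE.SyE, SSE.KxE, A2X, SSF.GmF, RgF, DrF, DpF, GrF; adapt SSF.C2F). -/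
def St_C2F : Prop := ∀ l : ℕ, 5 ≤ l → (∀ n < l, PR n) → C1 (l - 1) → C1N (l - 1) → C1N l → C2N (l - 1) → C2N l

/-- **CCF** (copy of SSF.CCF, from C4F, C1F, C2F). -/
def St_CCF : Prop := (∀ l : ℕ, 4 ≤ l → C1 l) → ∀ l : ℕ, 4 ≤ l → (∀ n < l, PR n) → C1N l ∧ C2N l

/-! ## Subgroups with many members (copies of SSF) -/

/-- **BnF** (copy). -/
def St_BnF : Prop :=
  ∀ (G ι : Type) [AddCommGroup G] [Finite G] (t : ℕ) (s : Finset ι) (f : ι → G), CtxF t s f → 1 ≤ t → cf 2 (t - 1) + 2 ≤ Nat.card G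

/-- **IxF** (copy). -/
def St_IxF : Prop :=
  ∀ (G ι : Type) [AddCommGroup G] [Finite G] (t : ℕ) (s : Finset ι) (f : ι → G) (M : AddSubgroup G), CtxF t s f → 9 ≤ t → M.index.Prime →
    (5 ≤ M.index → (ins s f M).card + 2 ≤ t / 2) ∧ (M.index = 3 → (ins s f M).card + 1 ≤ (t + 1) / 2) ∧ (M.index = 2 → 4 ≤ (outs s f M).card)

/-- **I4F** (copy). -/
def St_I4F : Prop :=
  ∀ (G ι : Type) [AddCommGroup G] [Finite G] (t : ℕ) (s X : Finset ι) (f : ι → G) (M : AddSubgroup G) (g : G), CtxF t s f → 9 ≤ t →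
    M.index = 4 → (∀ x : G, ∃ k : ℕ, x - k • g ∈ M) → X ⊆ ins s f M → AS X f → X.card + 2 ≤ t / 2

/-- **NzF** (copy). -/
def St_NzF : Prop :=
  ∀ (G ι : Type) [AddCommGroup G] [Finite G] (t : ℕ) (s X : Finset ι) (f : ι → G) (M M' : AddSubgroup G), CtxF t s f → 9 ≤ t →
    M.index = 3 → M'.index = 3 → M ≠ M' → X ⊆ ins s f M → AS X f → (t + 1) / 2 ≤ X.card + 2 → (t % 2 = 0 → (t + 1) / 2 ≤ X.card + 1) →
      3 ≤ (outs X f M').card

/-! ## The halves -/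

/-- **SwX** (0.8 h, from SSF.SpF, SSF.XcF).  Splittings and exchange.  Proof.  SpF and XcF with `κ = 0` (`Bal 0 p r f` says that the cardinalities differ by at most one). -/
def St_SwX : Prop :=
  (∀ (G ι : Type) [AddCommGroup G] (s : Finset ι) (f : ι → G), (∀ i ∈ s, f i ≠ 0) → Cap 2 s f →
    ∃ p r : Finset ι, Spl s p r f ∧ p.card = (s.card + 1) / 2) ∧
  (∀ (G ι : Type) [AddCommGroup G] (s p r : Finset ι) (f : ι → G) (x y : ι), Spl s p r f → x ∈ p → y ∈ r →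
    (∀ j ∈ r, f j ≠ f x ∧ f j ≠ - f x) → (∀ j ∈ p, f j ≠ f y ∧ f j ≠ - f y) →
      Spl s (insert y (p.erase x)) (insert x (r.erase y)) f ∧ (insert y (p.erase x)).card = p.card ∧ (insert x (r.erase y)).card = r.card ∧
      (∀ M : AddSubgroup G, (outs (insert y (p.erase x)) f M).card + (if f x ∈ M then 0 else 1) = (outs p f M).card + (if f y ∈ M then 0 else 1)) ∧
      (∀ M : AddSubgroup G, (outs (insert x (r.erase y)) f M).card + (if f y ∈ M then 0 else 1) = (outs r f M).card + (if f x ∈ M then 0 else 1)))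

/-- **NuX** (1.2 h, from SDG.Nm1).  Numbers (all checked by computer for `t ≤ 500`).
Proof.  `cf 2 n = 1 + (n + 1) ^ 2 / 4`; write `t = 2 h` or `t = 2 h + 1`, get rid of the divisions (`4 * ((n+1)^2 / 4) ≥ (n+1)^2 - 1`), use `nlinarith` for large `t` and `interval_cases` for small `t`. -/
def St_NuX : Prop :=
  (∀ t p : ℕ, 9 ≤ t → (p = t / 2 ∨ p = (t + 1) / 2) → cf 2 t < 4 * cf 2 (p - 1) + cf 2 (t - p - 1)) ∧
  (∀ t r : ℕ, 9 ≤ t → (r = t / 2 ∨ r = (t + 1) / 2) → (t = 9 → r = 5) → cf 2 t < 16 * cf 2 (r - 4) + cf 2 (t - r)) ∧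
  (∀ t x : ℕ, 10 ≤ t → (t + 1) / 2 ≤ x + 2 → (t % 2 = 0 → (t + 1) / 2 ≤ x + 1) → x + 1 ≤ (t + 1) / 2 → cf 2 t < 6 * cf 2 (x - 1) + cf 2 (t - x - 2)) ∧
  (∀ t r z F : ℕ, 10 ≤ t → (r = t / 2 ∨ r = (t + 1) / 2) → r ≤ z + 3 → z < r → cf 2 z ≤ F → (2 ≤ z → 4 ≤ F) → (3 ≤ z → z + 4 ≤ F) →
    cf 2 t < 9 * F + cf 2 (t - z - 4))

/-- **CvX** (2.5 h, from SDG.Ba1, SDG.Kn).  Covering the classes modulo a subgroup.
(1) combination: `x : G`; choose `z2 ∈ FS R2 f` with `x - z2 ∈ F1`, then `z1 ∈ FS R1 f` with `x - z2 - z1 ∈ F`; `z1 + z2` is a sum of `R1 ∪ R2`.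
(2) `a ∈ F1`: `a ∈ M2`: `z = 0`; otherwise `z = f x` (`a - f x ∈ M2` as the index of `M2` is 2).
(3) `F1 / F` has order 3 and the classes of `0, f y, f y', f y + f y'` are all three classes.
(4) `M` of prime index is maximal, `A + M = G`, so `[A : A ⊓ M] = [G : M]`; `(A ⊓ M).index = (A ⊓ M).relIndex A * A.index`.
(5) `CtxF t s f`: `I ⊆ F`.  Every coset of `F` contains some `z ∈ FS R f` and therefore `z + FS I f`, and `FS (I ∪ R) f = FS I f + FS R f`: `|FS (I ∪ R) f| ≥ F.index |FS I f|`.  With `W = s \ (I ∪ R)` (`|W| < t`, `PR`): `c1 t ≥ |T| + 1 ≥ |FS (I ∪ R) f| + |FS W f| ≥ F.index |FS I f| + c1 |W|` (SDG.Kn (1)). -/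
def St_CvX : Prop :=
  (∀ (G ι : Type) [AddCommGroup G] (R1 R2 : Finset ι) (f : ι → G) (F F1 : AddSubgroup G), Disjoint R1 R2 → (∀ a ∈ F1, ∃ z ∈ FS R1 f, a - z ∈ F) →
    (∀ x : G, ∃ z ∈ FS R2 f, x - z ∈ F1) → ∀ x : G, ∃ z ∈ FS (R1 ∪ R2) f, x - z ∈ F) ∧
  (∀ (G ι : Type) [AddCommGroup G] (x : ι) (f : ι → G) (F1 M2 : AddSubgroup G), M2.index = 2 → f x ∈ F1 → f x ∉ M2 →
    ∀ a ∈ F1, ∃ z ∈ FS {x} f, a - z ∈ F1 ⊓ M2) ∧
  (∀ (G ι : Type) [AddCommGroup G] (y y' : ι) (f : ι → G) (F F1 : AddSubgroup G), y ≠ y' → F ≤ F1 → F.relIndex F1 = 3 → f y ∈ F1 → f y' ∈ F1 →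
    f y ∉ F → f y' ∉ F → ∀ a ∈ F1, ∃ z ∈ FS {y, y'} f, a - z ∈ F) ∧
  (∀ (G : Type) [AddCommGroup G] [Finite G] (A M : AddSubgroup G) (n : ℕ), n.Prime → M.index = n → ¬ A ≤ M → (A ⊓ M).index = n * A.index) ∧
  (∀ (G ι : Type) [AddCommGroup G] [Finite G] (t : ℕ) (s I R : Finset ι) (f : ι → G) (F : AddSubgroup G), CtxF t s f → I ⊆ s → R ⊆ s →
    Disjoint I R → R.Nonempty → (∀ i ∈ I, f i ∈ F) → (∀ x : G, ∃ z ∈ FS R f, x - z ∈ F) →
      F.index * (FS I f).card + cf 2 (t - I.card - R.card) ≤ cf 2 t)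

/-- **LbX** (0.6 h, from SDG.Nm1, SDG.Ba1, SSE.B3E).  Lower bounds for antisymmetric subfamilies.
Proof.  The family is `AE` (SDG.Ba1 (2), (5)).  `PR |I|` (`|I| < t`).  Two (three) members: at least 4 (7) sums (SSE.B3E), and every further member adds at least one (aperiodic; for `|I| ≥ 3`: `7 + (|I| - 3)`). -/
def St_LbX : Prop :=
  ∀ (G ι : Type) [AddCommGroup G] [Finite G] (t : ℕ) (s I : Finset ι) (f : ι → G), CtxF t s f → I ⊆ s → I ≠ s → AS I f →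
    cf 2 I.card ≤ (FS I f).card ∧ (2 ≤ I.card → 4 ≤ (FS I f).card) ∧ (3 ≤ I.card → I.card + 4 ≤ (FS I f).card)

/-- **K1X** (1 h, from SDG.Ba1, SDG.Kn, NuX).  Four coloops.
Proof.  `y ∈ W ⊆ r`, `y` a coloop of `r`: `f y ∉ gen (W.erase y) f` (this group is contained in the subgroup of index 2 of `y`), so `|FS W f| = 2 |FS (W.erase y) f|` (SDG.Ba1 (4)).  Four times: `|FS r f| = 16 |FS (r \ Q) f| ≥ 16 c1 (|r| - 4)` (`PR`).  `c1 t ≥ |T| + 1 ≥ |FS r f| + |FS p f| ≥ 16 c1 (|r| - 4) + c1 (t - |r|)`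
(SDG.Kn (1), `PR |p|`), NuX (2). -/
def St_K1X : Prop :=
  ∀ (G ι : Type) [AddCommGroup G] [Finite G] (t : ℕ) (s p r Q : Finset ι) (f : ι → G), CtxF t s f → 9 ≤ t → Spl s p r f → Q ⊆ r → Q.card = 4 →
    (∀ y ∈ Q, Clp r f y) → t = 9 ∧ r.card = 4

/-- **K2X** (2 h, from SDG.Nm1, SDG.Ba1, SDG.main, SSE.SyE, BnF).  The exceptional case of K1X: `t = 9`, `|p| = 5`, `|r| = 4`, all members of `r` are coloops, `p ⊆ M`, `M.index = 2`.
Proof.  `M_y` the subgroup of index 2 for `y ∈ r` (`f y ∉ M_y`, the other members of `r` are in `M_y`), `F = ⨅ M_y`: `G / F` has order 16: the 16 sums of `r` are in different classes modulo `F`, and every `x : G` is congruent to the sum of the `y` with `x ∉ M_y`.  So `16 ∣ N`.  BnF: `N ≥ c1 8 + 2 = 23`.  SDG.main (`PP 9`, `gen s f = ⊤`, `jj 9 = 5`): `c1 9 ≤ |T|`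
(excluded) or `N ≤ |T| + 20 ≤ 25 + 20 = 45`.  So `N = 32`, `|F| = 2`, `|M| = 16`.  `x + x ∈ F` for all `x` (index 2).  The homomorphism `x ↦ x + x`, `M → F`, has kernel `{x ∈ M | x + x = 0}` of order `≥ 8`, so at most 8 elements `x` of `M` have `x + x ≠ 0`.  But `p` is `AE` (SDG.Ba1 (5)): the 10 elements `± f i` (`i ∈ p`) of `M` are different and have `x + x ≠ 0`: contradiction. -/
def St_K2X : Prop :=
  ∀ (G ι : Type) [AddCommGroup G] [Finite G] (s p r : Finset ι) (f : ι → G) (M : AddSubgroup G), CtxF 9 s f → Spl s p r f → r.card = 4 →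
    (∀ y ∈ r, Clp r f y) → M.index = 2 → (∀ i ∈ p, f i ∈ M) → False

/-- **P1s** (1.8 h, from IxF, CvX, NuX, K1X, K2X).  A part contained in a subgroup of index 2: exchange possible.  `p ⊆ M`.
Proof.  IxF: `|outs s f M| ≥ 4`, all these are members of `r`.  `x`: a member of `p` that has a partner `j ∈ r` (`f j = ± f x`) has it in `r ∩ M`; partners are unique (`AS`), `|r ∩ M| ≤ |r| - 4 < |p|`: some `x ∈ p` has no partner.  `¬ Clp p f x`: otherwise there is `M'` of index 2, `f x ∉ M'`, `p.erase x ⊆ M'`; `F = M ⊓ M'` has index 4 (CvX (4); `f x ∈ M \ M'`),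
`I = p.erase x ⊆ F`, `y0 ∈ r`, `f y0 ∉ M`, `R = {x, y0}` covers the classes modulo `F` (CvX (1), (2): `x` for `M` modulo `F`, `y0` for `G` modulo `M`); CvX (5) and `PR (|p| - 1)`: `4 c1 (|p| - 1) + c1 (t - |p| - 1) ≤ c1 t`, against NuX (1).
`y`: `f y ∉ M` implies that `y` has no partner in `p`.  If all members of `r` outside `M` are coloops of `r`: K1X with four of them: `t = 9`, `|r| = 4`, all members of `r` are coloops (and outside `M`), K2X: contradiction. -/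
def St_P1s : Prop :=
  ∀ (G ι : Type) [AddCommGroup G] [Finite G] (t : ℕ) (s p r : Finset ι) (f : ι → G) (M : AddSubgroup G), CtxF t s f → 9 ≤ t → Spl s p r f →
    M.index = 2 → (∀ i ∈ p, f i ∈ M) →
      ∃ x ∈ p, ∃ y ∈ r, f y ∉ M ∧ ¬ Clp p f x ∧ ¬ Clp r f y ∧ (∀ j ∈ r, f j ≠ f x ∧ f j ≠ - f x) ∧ (∀ j ∈ p, f j ≠ f y ∧ f j ≠ - f y)

/-- **P1X** (1.5 h, from SwX, P1s).  A splitting where no part is contained in a subgroup of index 2.
Proof.  Among the splittings (`Spl s p r f`, `|p| = (t+1)/2`; SwX (1); `p ∈ s.powerset`, `r = s \ p`) choose one with the least `Ψ = #{M | M.index = 2, p ⊆ M} + #{M | M.index = 2, r ⊆ M}` (here `p ⊆ M` means `∀ i ∈ p, f i ∈ M`).  Suppose `p ⊆ M` (the case `r ⊆ M` is the same with `p, r` exchanged: `Spl s r p f`).  P1s, SwX (2): `p' = insert y (p.erase x)`,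
`r' = insert x (r.erase y)`.  `p' ⊆ M'` implies `p.erase x ⊆ M'`, `f x ∈ M'` (otherwise `Clp p f x`), `p ⊆ M'`, and `f y ∈ M'` implies `M' ≠ M`.  `r' ⊆ M'` implies `r.erase y ⊆ M'`, `f y ∈ M'` (otherwise `Clp r f y`), `r ⊆ M'`.  So `Ψ` is smaller for `(p', r')`: contradiction. -/
def St_P1X : Prop :=
  ∀ (G ι : Type) [AddCommGroup G] [Finite G] (t : ℕ) (s : Finset ι) (f : ι → G), CtxF t s f → 9 ≤ t →
    ∃ p r : Finset ι, Spl s p r f ∧ p.card = (t + 1) / 2 ∧ ∀ M : AddSubgroup G, M.index = 2 → (∃ i ∈ p, f i ∉ M) ∧ ∃ i ∈ r, f i ∉ M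

/-- **Q9X** (1.5 h, from IxF, CvX).  Two subgroups of index 3.
Proof.  `F = M ⊓ M'` has index 9 (CvX (4)); `3 x ∈ F` for all `x`.  `|ins s f F| ≤ |ins s f M| ≤ J - 1` (IxF), so at least `t - J + 1 ≥ 6` members are outside `F`.  For `f i ∉ F` the subgroup `L_i = F ⊔ ⟨f i⟩` has index 3 (it is different from `F`, and `[L_i : F]` divides... the order of the class of `f i` is 3).
There are exactly four subgroups `L` of index 3 containing `F` (the 8 nonzero classes of `G / F` are grouped in four pairs `± `); so among 5 members outside `F` two, `x1, x2`, have the same `L`.  (Alternatively, without counting subgroups: the 8 nonzero classes form four pairs `{γ, - γ}`, two of 5 members have classes that are equal up to sign; then `L = F ⊔ ⟨f x1⟩`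
contains both.)  `F.relIndex L = 3`.  IxF: at least `t - J + 1 ≥ 2` members are outside `L`: `w1, w2`.  CvX (3) with `F ≤ L` for `x1, x2`, and with `L ≤ ⊤` for `w1, w2`, CvX (1): `R = {x1, x2, w1, w2}`. -/
def St_Q9X : Prop :=
  ∀ (G ι : Type) [AddCommGroup G] [Finite G] (t : ℕ) (s : Finset ι) (f : ι → G) (M M' : AddSubgroup G), CtxF t s f → 10 ≤ t → M.index = 3 →
    M'.index = 3 → M ≠ M' → (M ⊓ M').index = 9 ∧ ∃ R : Finset ι, R ⊆ s ∧ R.card = 4 ∧ (∀ i ∈ R, f i ∉ M ⊓ M') ∧ ∀ x : G, ∃ z ∈ FS R f, x - z ∈ M ⊓ M'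

/-- **P2s** (3 h, from SDG.Nm1, IxF, NzF, CvX, LbX, NuX, K1X, Q9X).  A part with at most one member outside `M`, `M.index = 3`: exchange possible.
Proof.  `X = ins p f M`, `|X| ≥ |p| - 1`, `|X| + |ins r f M| = |ins s f M| ≤ J - 1` (IxF).  `|p|, |r| ∈ {t/2, J}`, `|p| + |r| = t`.  `t` even or `|p| = J`: `|X| = J - 1`, `ins r f M = ∅`.  Otherwise `|p| = J - 1`, `|r| = J`, `|X| ≥ J - 2`, `|ins r f M| ≤ 1`.
(t = 9) `J = 5`, `3 ≤ |X| ≤ 4`.  At least `5` members of `s` are outside `M`, take two: `R = {y, y'}` covers the classes modulo `M` (CvX (3), `F1 = ⊤`); CvX (5) with `I = X`, LbX (`|FS X f| ≥ |X| + 4`): `3 (|X| + 4) + c1 (7 - |X|) ≤ c1 9 = 26`, but `3 * 7 + 7 = 28`, `3 * 8 + 5 = 29`.  So `t ≥ 10`.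
NzF: `|outs X f M'| ≥ 3` for all `M' ≠ M` of index 3.  `|outs r f M| = |r| - |ins r f M| ≥ 5` (`t = 10, 11` and `t ≥ 12` separately).
(a) `x ∈ X` is not a coloop of `p`: otherwise `M2` of index 2, `f x ∉ M2`, `p.erase x ⊆ M2`; `F = M ⊓ M2` has index 6 (CvX (4), `¬ M ≤ M2`), `I = X.erase x ⊆ F`, `z, z' ∈ r` outside `M`, `R = {x} ∪ {z, z'}` covers the classes modulo `F` (CvX (2) with `F1 = M`, CvX (3) with `F = M`, `F1 = ⊤`, CvX (1)); CvX (5): `6 c1 (|X| - 1) + c1 (t - |X| - 2) ≤ c1 t`, against NuX (3).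
(b) `y`: of the at least 5 members of `r` outside `M` at most 3 are coloops of `r` (K1X), at most one has a partner in `p` (the partner is outside `M`, `|outs p f M| ≤ 1`, `AS r f`).  So there is `y ∈ r`, `f y ∉ M`, not a coloop of `r`, without partner.
(c) there is at most one `M'` of index 3 with `f y ∉ M'`, `|outs r f M'| ≤ 2`: suppose `M' ≠ M''`, `F = M' ⊓ M''`, `I = ins r f F`: `|r \ I| ≤ 2 + 2 - 1 = 3` (`y` is counted twice), `z = |I|`, `|r| - 3 ≤ z < |r|`.  Q9X gives `R` (disjoint from `I`), CvX (5), LbX: `9 |FS I f| + c1 (t - z - 4) ≤ c1 t`, against NuX (4).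
(d) `x ∈ X` without partner in `r` (a partner is in `ins r f M`, at most one member, so at most one `x ∈ X` has a partner) and, if `M'` as in (c) exists (`M' ≠ M` since `|outs r f M| ≥ 5`), with `f x ∉ M'` (`|outs X f M'| ≥ 3`; `|X| ≥ 3`): exists. -/
def St_P2s : Prop :=
  ∀ (G ι : Type) [AddCommGroup G] [Finite G] (t : ℕ) (s p r : Finset ι) (f : ι → G) (M : AddSubgroup G), CtxF t s f → 9 ≤ t → Spl s p r f →
    M.index = 3 → (outs p f M).card ≤ 1 →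
      3 ≤ (outs r f M).card ∧ (∀ M' : AddSubgroup G, M'.index = 3 → M' ≠ M → 3 ≤ (outs p f M').card) ∧
      ∃ x ∈ p, ∃ y ∈ r, f x ∈ M ∧ f y ∉ M ∧ ¬ Clp p f x ∧ ¬ Clp r f y ∧ (∀ j ∈ r, f j ≠ f x ∧ f j ≠ - f x) ∧
        (∀ j ∈ p, f j ≠ f y ∧ f j ≠ - f y) ∧ ∀ M' : AddSubgroup G, M'.index = 3 → f y ∉ M' → f x ∈ M' → 3 ≤ (outs r f M').card

/-- **P2X** (2 h, from SwX, P1X, P2s).  A splitting with at least one member of both parts outside every subgroup of index 2 and at least two outside every subgroup of index 3.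
Proof.  Among the splittings of P1X (`Spl s p r f`, `|p| = (t+1)/2`, index 2 condition; there is one) choose one with the largest `Φ = ∑_M (min (|outs p f M|, 2) + min (|outs r f M|, 2))`, the sum over all `M` of index 3.  Suppose `|outs p f M| ≤ 1` (the case of `r` is the same with `p, r` exchanged).  P2s, SwX (2): `p' = insert y (p.erase x)`, `r' = insert x (r.erase y)`.
Index 2: `p' ⊆ M2` implies `p.erase x ⊆ M2`, `f x ∈ M2` (`¬ Clp p f x`), `p ⊆ M2`: contradiction; the same for `r'`.  `M`: `|outs p' f M| = |outs p f M| + 1`, `|outs r' f M| = |outs r f M| - 1 ≥ 2`.  `M' ≠ M` of index 3: `|outs p' f M'| ≥ 3 - 1 = 2`; `|outs r' f M'| ≥ |outs r f M'|` unless `f y ∉ M'`, `f x ∈ M'`, and then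
`|outs r' f M'| = |outs r f M'| - 1 ≥ 2`.  So `Φ` is larger for `(p', r')`: contradiction. -/
def St_P2X : Prop :=
  ∀ (G ι : Type) [AddCommGroup G] [Finite G] (t : ℕ) (s : Finset ι) (f : ι → G), CtxF t s f → 9 ≤ t →
    ∃ p r : Finset ι, Spl s p r f ∧ p.card = (t + 1) / 2 ∧ (∀ M : AddSubgroup G, M.index = 2 → (∃ i ∈ p, f i ∉ M) ∧ ∃ i ∈ r, f i ∉ M) ∧
      ∀ M : AddSubgroup G, M.index = 3 → 2 ≤ (outs p f M).card ∧ 2 ≤ (outs r f M).card

/-- **HoF** (1.5 h, from SDG.Ba1, IxF, I4F, P2X; adapt the end of Pool/Agent/SSF/HoF.lean).  The halves.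
Proof.  P2X.  Index `n ≥ 5` prime: `|outs s_j f M| ≥ |s_j| - |ins s f M| ≥ 2` (IxF).  Every `M ≠ ⊤` is contained in a subgroup of prime index: `|outs s_j f M| ≥ 1`.
`Sep`: `M ≠ ⊤`, `M.index ≠ 2`, `|outs s_j f M| = 1` is impossible: let `x` be this member; `gen s_j f = ⊤`, so `G / M` is generated by the class of `x`: cyclic of order `n ≠ 2`.  If an odd prime divides `n`, `M` is contained in a subgroup of odd prime index: at least two outside, contradiction.  Otherwise `4 ∣ n`, `M` is contained in a subgroup `M4` with `G / M4`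
cyclic of order 4, `s_j.erase x ⊆ ins s f M4` is antisymmetric with `≥ t/2 - 1` members: against I4F. -/
def St_HoF : Prop :=
  ∀ (G ι : Type) [AddCommGroup G] [Finite G] (t : ℕ) (s : Finset ι) (f : ι → G), CtxF t s f → 9 ≤ t →
    ∃ s1 s2 : Finset ι, Disjoint s1 s2 ∧ s1 ∪ s2 = s ∧ AS s1 f ∧ AS s2 f ∧ s1.card = (t + 1) / 2 ∧ s2.card = t / 2 ∧
      (∀ M : AddSubgroup G, M ≠ ⊤ → 1 ≤ (outs s1 f M).card ∧ 1 ≤ (outs s2 f M).card) ∧ Sep s1 f ∧ Sep s2 f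

/-! ## The end of the proof -/

/-- **EvF** (from SDG.Nm1, SDG.Kn, SDG.Ba1, BnF, SRF, RgF, HoF, SSE.KeE, SSE.KgE; adapt SSF.EvF).  `t = 2 l ≥ 10`: contradiction. -/
def St_EvF : Prop :=
  (∀ l : ℕ, 4 ≤ l → (∀ n < l, PR n) → C1N l ∧ C2N l) →
    ∀ (G ι : Type) [AddCommGroup G] [Finite G] (l : ℕ) (s : Finset ι) (f : ι → G), 5 ≤ l → ¬ CtxF (2 * l) s f

/-- **OdF** (from SDG.Nm1, SDG.Kn, SDG.Ba1, SSE.SyE, A1X, DrF, BnF, SRF, RgF, SSE.KxE, SSE.KeE, SSE.KgE, SSF.KgF, SSF.GmF, GrF, HoF, DrO; adapt SSF.OdF).  `t = 2 l - 1 ≥ 9`: contradiction.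
Proof.  As SSF.OdF with the following change in (iv).  For `i ∈ s1` with `gen (s1.erase i) f = ⊤` the arguments of (iv) give `2 + l (l-1) ≤ 2 |FS (s1.erase i) f|` and `lam X (f i) ≤ l - 2`.  If `gen (s1.erase i0) f ≠ ⊤` for some `i0 ∈ s1`: this subgroup has index 2 (`Sep s1 f`: only `i0` is outside it), and DrO is a contradiction (`2 + l (l-1) ≤ 2 |X_2| ≤ 2 (N - |X|)`;
`2 + l (l-1) ≤ 2 |X|`: if `2 |X| ≤ N` by `C1N`, `s1` is not exceptional: `2 + l (l+1) ≤ 2 |X|` contradicts (ii) anyway; if `2 |X| > N`: clear).  Otherwise as in SSF.OdF with GrF, A1X. -/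
def St_OdF : Prop :=
  (∀ l : ℕ, 4 ≤ l → (∀ n < l, PR n) → C1N l ∧ C2N l) →
    ∀ (G ι : Type) [AddCommGroup G] [Finite G] (l : ℕ) (s : Finset ι) (f : ι → G), 5 ≤ l → ¬ CtxF (2 * l - 1) s f

/-- **S8F** (copy). -/
def St_S8F : Prop :=
  ∀ (G ι : Type) [AddCommGroup G] [Finite G] (t : ℕ) (s : Finset ι) (f : ι → G), t ≤ 8 → ¬ CtxF t s f

/-- **PFF** (from SDG.Tr, SDG.main, SSE.PFE, S8F, EvF, OdF; adapt SSF.PFF). -/
def St_PFF : Prop := (∀ l : ℕ, 4 ≤ l → (∀ n < l, PR n) → C1N l ∧ C2N l) → ∀ t : ℕ, PR t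

end Pool.Agent.SSX
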