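import Mathlib
import Pool.Agent.SSX.St

set_option autoImplicit false

noncomputable section

open Finset Pool.Agent.Helper64.Rho Pool.Agent.SDG Pool.Agent.MDR Pool.Agent.SSC Pool.Agent.SSE Pool.Agent.SSF
open scoped Classical Pointwise

namespace Pool.Agent.SSX

/-- lower bound for the sum of the levels -/
private lemma A1X_sum (K a : ℕ) (g : ℕ → ℕ) (h0 : 1 ≤ g 0) (h : ∀ i, 1 ≤ i → i ≤ a → i * K ≤ g i + 2) :
    K * a * (a + 1) + 2 ≤ 2 * ∑ i ∈ range (a + 1), g i + 4 * a := by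
  induction a with
  | zero => simp; omega
  | succ a ih =>
    rw [sum_range_succ]
    have h1 := ih (fun i hi hi2 => h i hi (by omega))
    have h2 := h (a + 1) (by omega) le_rfl
    nlinarith

private lemma A1X_even (h y T d S g : ℤ) (hh : 3 ≤ h) (hy : 0 ≤ y) (hT : 3 * T ≤ 4 * h)
    (hd : d = 0 ∨ d = T - 6 - 2 * y)
    (hS : 1 + (2 * h + 1) * h * (h - 1) - 2 * (h - 1) - d ≤ S) (hg : 4 * h ^ 2 - 2 * h + 2 + 2 * y - T ≤ g)
    (hAv : (2 * h - 2) * S + (h + 1 + y) * g ≤ (2 * h ^ 2 - h + 1 + y) ^ 2) : False := by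
  have h1 : (2 * h - 2) * (1 + (2 * h + 1) * h * (h - 1) - 2 * (h - 1) - d) ≤ (2 * h - 2) * S :=
    mul_le_mul_of_nonneg_left hS (by linarith)
  have h2 : (h + 1 + y) * (4 * h ^ 2 - 2 * h + 2 + 2 * y - T) ≤ (h + 1 + y) * g :=
    mul_le_mul_of_nonneg_left hg (by linarith)
  have h3 : (h + 1 + y) * (3 * T) ≤ (h + 1 + y) * (4 * h) := mul_le_mul_of_nonneg_left hT (by linarith)
  have h4 : (2 * h - 2) * (3 * T) ≤ (2 * h - 2) * (4 * h) := mul_le_mul_of_nonneg_left hT (by linarith)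
  have h5 : 0 ≤ h * y := mul_nonneg (by linarith) hy
  have h6 : 0 ≤ y ^ 2 := sq_nonneg y
  rcases hd with rfl | rfl
  · have h7 : 0 < 6 * h ^ 3 - 25 * h ^ 2 + 38 * h - 15 := by
      obtain ⟨e, rfl⟩ : ∃ e, h = 3 + e := ⟨h - 3, by ring⟩
      have he : 0 ≤ e := by linarith
      have : 0 ≤ e ^ 3 := by positivity
      have : 0 ≤ e ^ 2 := by positivity
      nlinarith
    nlinarith
  · have h7 : 0 < 6 * h ^ 3 - 33 * h ^ 2 + 82 * h - 51 := by
      obtain ⟨e, rfl⟩ : ∃ e, h = 3 + e := ⟨h - 3, by ring⟩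
      have he : 0 ≤ e := by linarith
      have : 0 ≤ e ^ 3 := by positivity
      have : 0 ≤ e ^ 2 := by positivity
      nlinarith
    nlinarith

private lemma A1X_oddA (h y T S g : ℤ) (hh : 2 ≤ h) (hy : 0 ≤ y) (hT : (T = 4 ∧ h ≤ 3) ∨ T = h + 1 ∧ 3 ≤ h)
    (hS : 1 + 2 * (h + 1) * h * (h - 1) - 2 * (h - 1) ≤ S) (hg : 4 * h ^ 2 + 2 * h + 2 + 2 * y - T ≤ g)
    (hAv : (2 * h - 1) * S + (2 * h + 1 + y) * g ≤ (2 * h ^ 2 + h + 1 + y) ^ 2) : False := by
  have h1 : (2 * h - 1) * (1 + 2 * (h + 1) * h * (h - 1) - 2 * (h - 1)) ≤ (2 * h - 1) * S :=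
    mul_le_mul_of_nonneg_left hS (by linarith)
  have h2 : (2 * h + 1 + y) * (4 * h ^ 2 + 2 * h + 2 + 2 * y - T) ≤ (2 * h + 1 + y) * g :=
    mul_le_mul_of_nonneg_left hg (by linarith)
  have h5 : 0 ≤ h * y := mul_nonneg (by linarith) hy
  have h6 : 0 ≤ y ^ 2 := sq_nonneg y
  rcases hT with ⟨rfl, h3⟩ | ⟨rfl, h3⟩
  · have : h = 2 ∨ h = 3 := by omega
    rcases this with rfl | rfl
    · nlinarith
    · nlinarith
  · have h7 : 0 < 2 * h ^ 3 - 7 * h ^ 2 + 11 * h - 3 := by
      obtain ⟨e, rfl⟩ : ∃ e, h = 3 + e := ⟨h - 3, by ring⟩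
      have he : 0 ≤ e := by linarith
      have : 0 ≤ e ^ 3 := by positivity
      have : 0 ≤ e ^ 2 := by positivity
      nlinarith
    nlinarith

private lemma A1X_oddB (h y T S g : ℤ) (hh : 2 ≤ h) (hy : 0 ≤ y) (hT : (T = 4 ∧ h ≤ 3) ∨ T = h + 1 ∧ 3 ≤ h)
    (hS : 1 + 2 * (h + 1) * h * (h + 1) - 2 * h ≤ S) (hg : 4 * h ^ 2 + 2 * h + 2 + 2 * y - T ≤ g)
    (hAv : (2 * h - 1) * S + (2 + y) * g ≤ (2 * h ^ 2 + h + 1 + y) ^ 2) : False := by
  have h1 : (2 * h - 1) * (1 + 2 * (h + 1) * h * (h + 1) - 2 * h) ≤ (2 * h - 1) * S :=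
    mul_le_mul_of_nonneg_left hS (by linarith)
  have h2 : (2 + y) * (4 * h ^ 2 + 2 * h + 2 + 2 * y - T) ≤ (2 + y) * g :=
    mul_le_mul_of_nonneg_left hg (by linarith)
  have h6 : 0 ≤ y ^ 2 := sq_nonneg y
  rcases hT with ⟨rfl, h3⟩ | ⟨rfl, h3⟩
  · have : h = 2 ∨ h = 3 := by omega
    rcases this with rfl | rfl
    · nlinarith
    · nlinarith
  · have h7 : 0 < 8 * h ^ 3 - 4 * h ^ 2 + 8 * h - (h - 3) ^ 2 := by
      obtain ⟨e, rfl⟩ : ∃ e, h = 3 + e := ⟨h - 3, by ring⟩
      have he : 0 ≤ e := by linarith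
      have : 0 ≤ e ^ 3 := by positivity
      have : 0 ≤ e ^ 2 := by positivity
      nlinarith
    nlinarith [sq_nonneg (2 * y - (h - 3))]

/-- **A1X** -/
theorem thm_A1X : MDR.St_Av0 → St_A1X := by
  intro hAv G _ _ X D l h0 hl hlam hX hX2 hg
  obtain ⟨j, rfl⟩ : ∃ j, l = j + 2 := ⟨l - 2, by omega⟩
  have hj3 : 3 ≤ j := by omega
  have hlam' : ∀ y ∈ D, lam X y ≤ j := fun y hy => by have := hlam y hy; omega
  have h00 : 1 ≤ (it D 0).card := by simp [it]
  have hAv' := fun k => hAv G X D j k h0 hlam'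
  generalize hx : X.card = x at *
  rcases Nat.even_or_odd' j with ⟨m, rfl | rfl⟩
  · -- `l = 2 h`, `h = m + 1`
    obtain ⟨n, rfl⟩ : ∃ n, m = n + 1 := ⟨m - 1, by omega⟩
    -- `h = n + 2`
    obtain ⟨y, hy⟩ : ∃ y, x = 2 * (n + 2) * (n + 2) - (n + 2) + 1 + y := by
      refine ⟨x - (2 * (n + 2) * (n + 2) - (n + 2) + 1), ?_⟩
      have e1 : 2 * (n + 1) + 2 - 1 = 2 * n + 3 := by omega
      rw [e1] at hX
      have e2 : (2 * (n + 1) + 2) * (2 * n + 3) = 2 * (2 * n * n + 7 * n + 6) := by ring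
      have e3 : 2 * (n + 2) * (n + 2) = 2 * n * n + 7 * n + 6 + (n + 2) := by ring
      omega
    have e3 : 2 * (n + 2) * (n + 2) = 2 * n * n + 7 * n + 6 + (n + 2) := by ring
    have hy' : x = 2 * n * n + 7 * n + 7 + y := by omega
    have hyl : y ≤ 2 * n + 3 := by
      have e2 : (2 * (n + 1) + 2) * (2 * (n + 1) + 2 + 1) = 2 * (2 * n * n + 9 * n + 10) := by ring
      rw [e2] at hX2
      omega
    obtain ⟨T, hT4, hT3, hTT⟩ : ∃ T, 4 ≤ T ∧ 3 * T ≤ 4 * (n + 2) ∧ ∀ τ, KAU.TolP (2 * (n + 1) + 2) τ → τ ≤ T := by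
      refine ⟨4 * (n + 2) / 3, by omega, by omega, ?_⟩
      intro τ hτ
      rcases hτ with h | h | h
      · omega
      · omega
      · omega
    have hg' : ∀ i, 1 ≤ i → 2 * x ≤ (it D i).card + T ∨ i * (4 * n + 10) ≤ (it D i).card + 2 := by
      intro i hi
      rcases hg i hi with ⟨τ, h1, h2⟩ | h1
      · have := hTT τ h1
        left; omega
      · right
        have e : 2 * (2 * (n + 1) + 2) + 2 = 4 * n + 10 := by ring
        rw [e] at h1
        exact h1
    have hlev : ∀ i, 1 ≤ i → i ≤ n → i * (4 * n + 10) ≤ (it D i).card + 2 := by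
      intro i hi hin
      rcases hg' i hi with h | h
      · have h1 : i * (4 * n + 10) ≤ n * (4 * n + 10) := Nat.mul_le_mul_right _ hin
        have h2 : n * (4 * n + 10) = 2 * (2 * n * n) + 10 * n := by ring
        omega
      · exact h
    have hS := A1X_sum (4 * n + 10) n (fun i => (it D i).card) h00 hlev
    have hn1 : 2 * x ≤ (it D (n + 1)).card + T ∨ (n + 1) * (4 * n + 10) ≤ (it D (n + 1)).card + 2 := hg' _ (by omega)
    have htop : 2 * x ≤ (it D (n + 2)).card + T := by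
      rcases hg' (n + 2) (by omega) with h | h
      · exact h
      · have h2 : (n + 2) * (4 * n + 10) = 2 * (2 * n * n) + 18 * n + 20 := by ring
        omega
    have hk := hAv' (n + 2) (by
      have e : (n + 2) * (2 * (n + 1)) = 2 * n * n + 6 * n + 4 := by ring
      omega)
    have e4 : x - (n + 2) * (2 * (n + 1)) = n + 3 + y := by
      have e : (n + 2) * (2 * (n + 1)) = 2 * n * n + 6 * n + 4 := by ring
      omega
    rw [e4, sum_range_succ] at hk
    generalize (∑ i ∈ range (n + 1), (it D i).card) = S0 at *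
    generalize (it D (n + 1)).card = g1 at *
    generalize (it D (n + 2)).card = g2 at *
    clear hlev hg' hg hAv' hAv hTT hlam hlam'
    zify at hk hS hn1 htop hT3 hT4 hy' hyl
    have hy0 : (0 : ℤ) ≤ y := by positivity
    have hn0 : (0 : ℤ) ≤ n := by positivity
    have hhh : (3 : ℤ) ≤ n + 2 := by
      have : 1 ≤ n := by omega
      have : (1 : ℤ) ≤ n := by exact_mod_cast this
      linarith
    by_cases hc : (T : ℤ) ≤ 6 + 2 * y
    · refine A1X_even (n + 2) y T 0 (S0 + g1) g2 hhh hy0 (by linarith) (Or.inl rfl) ?_ (by nlinarith) ?_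
      · rcases hn1 with h | h
        · nlinarith
        · nlinarith
      · have e5 : (2 * ((n : ℤ) + 2) ^ 2 - (n + 2) + 1 + y) = x := by rw [hy']; ring
        rw [e5]
        nlinarith
    · rw [not_le] at hc
      refine A1X_even (n + 2) y T (T - 6 - 2 * y) (S0 + g1) g2 hhh hy0 (by linarith) (Or.inr rfl) ?_ (by nlinarith) ?_
      · rcases hn1 with h | h
        · nlinarith
        · nlinarith
      · have e5 : (2 * ((n : ℤ) + 2) ^ 2 - (n + 2) + 1 + y) = x := by rw [hy']; ring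
        rw [e5]
        nlinarith
  · -- `l = 2 h + 1`, `j = 2 m + 1`, `h = m + 1`
    have hm1 : 1 ≤ m := by omega
    obtain ⟨y, hy'⟩ : ∃ y, x = 2 * m * m + 5 * m + 4 + y := by
      refine ⟨x - (2 * m * m + 5 * m + 4), ?_⟩
      have e1 : 2 * m + 1 + 2 - 1 = 2 * m + 2 := by omega
      rw [e1] at hX
      have e2 : (2 * m + 1 + 2) * (2 * m + 2) = 2 * (2 * m * m + 5 * m + 3) := by ring
      omega
    have hyl : y ≤ 2 * m + 2 := by
      have e2 : (2 * m + 1 + 2) * (2 * m + 1 + 2 + 1) = 2 * (2 * m * m + 7 * m + 6) := by ring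
      rw [e2] at hX2
      omega
    obtain ⟨T, hT4, hT3, hTT⟩ : ∃ T, 4 ≤ T ∧ ((T = 4 ∧ m + 1 ≤ 3) ∨ T = m + 1 + 1 ∧ 3 ≤ m + 1) ∧
        ∀ τ, KAU.TolP (2 * m + 1 + 2) τ → τ ≤ T := by
      by_cases hm : m ≤ 2
      · refine ⟨4, le_rfl, Or.inl ⟨rfl, by omega⟩, ?_⟩
        intro τ hτ
        rcases hτ with h | h | h
        · omega
        · omega
        · omega
      · refine ⟨m + 1 + 1, by omega, Or.inr ⟨rfl, by omega⟩, ?_⟩
        intro τ hτ
        rcases hτ with h | h | h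
        · omega
        · omega
        · omega
    have hg' : ∀ i, 1 ≤ i → 2 * x ≤ (it D i).card + T ∨ i * (4 * m + 8) ≤ (it D i).card + 2 := by
      intro i hi
      rcases hg i hi with ⟨τ, h1, h2⟩ | h1
      · have := hTT τ h1
        left; omega
      · right
        have e : 2 * (2 * m + 1 + 2) + 2 = 4 * m + 8 := by ring
        rw [e] at h1
        exact h1
    have hTz : ((T : ℤ) = 4 ∧ ((m : ℤ) + 1) ≤ 3) ∨ (T : ℤ) = (m : ℤ) + 1 + 1 ∧ 3 ≤ ((m : ℤ) + 1) := by
      rcases hT3 with ⟨h1, h2⟩ | ⟨h1, h2⟩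
      · left
        exact ⟨by exact_mod_cast h1, by exact_mod_cast h2⟩
      · right
        exact ⟨by exact_mod_cast h1, by exact_mod_cast h2⟩
    by_cases hc : 2 * y + 4 ≤ 2 * (m + 1) + T
    · have hlev : ∀ i, 1 ≤ i → i ≤ m → i * (4 * m + 8) ≤ (it D i).card + 2 := by
        intro i hi hin
        rcases hg' i hi with h | h
        · have h1 : i * (4 * m + 8) ≤ m * (4 * m + 8) := Nat.mul_le_mul_right _ hin
          have h2 : m * (4 * m + 8) = 2 * (2 * m * m) + 8 * m := by ring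
          omega
        · exact h
      have hS := A1X_sum (4 * m + 8) m (fun i => (it D i).card) h00 hlev
      have htop : 2 * x ≤ (it D (m + 1)).card + T := by
        rcases hg' (m + 1) (by omega) with h | h
        · exact h
        · have h2 : (m + 1) * (4 * m + 8) = 2 * (2 * m * m) + 12 * m + 8 := by ring
          omega
      have hk := hAv' (m + 1) (by
        have e : (m + 1) * (2 * m + 1) = 2 * m * m + 3 * m + 1 := by ring
        omega)
      have e4 : x - (m + 1) * (2 * m + 1) = 2 * m + 3 + y := by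
        have e : (m + 1) * (2 * m + 1) = 2 * m * m + 3 * m + 1 := by ring
        omega
      rw [e4] at hk
      generalize (∑ i ∈ range (m + 1), (it D i).card) = S0 at *
      generalize (it D (m + 1)).card = g2 at *
      clear hlev hg' hg hAv' hAv hTT hlam hlam'
      zify at hk hS htop hT4 hy' hyl hm1
      have hy0 : (0 : ℤ) ≤ y := by positivity
      refine A1X_oddA (m + 1) y T S0 g2 (by linarith) hy0 hTz (by nlinarith) (by nlinarith) ?_
      have e5 : (2 * ((m : ℤ) + 1) ^ 2 + (m + 1) + 1 + y) = x := by rw [hy']; ring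
      rw [e5]
      nlinarith
    · have hlev : ∀ i, 1 ≤ i → i ≤ m + 1 → i * (4 * m + 8) ≤ (it D i).card + 2 := by
        intro i hi hin
        rcases hg' i hi with h | h
        · have h1 : i * (4 * m + 8) ≤ (m + 1) * (4 * m + 8) := Nat.mul_le_mul_right _ hin
          have h2 : (m + 1) * (4 * m + 8) = 2 * (2 * m * m) + 12 * m + 8 := by ring
          omega
        · exact h
      have hS := A1X_sum (4 * m + 8) (m + 1) (fun i => (it D i).card) h00 hlev
      have htop : 2 * x ≤ (it D (m + 1 + 1)).card + T := by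
        rcases hg' (m + 1 + 1) (by omega) with h | h
        · exact h
        · have h2 : (m + 1 + 1) * (4 * m + 8) = 2 * (2 * m * m) + 16 * m + 16 := by ring
          omega
      have hk := hAv' (m + 1 + 1) (by
        have e : (m + 1 + 1) * (2 * m + 1) = 2 * m * m + 5 * m + 2 := by ring
        omega)
      have e4 : x - (m + 1 + 1) * (2 * m + 1) = 2 + y := by
        have e : (m + 1 + 1) * (2 * m + 1) = 2 * m * m + 5 * m + 2 := by ring
        omega
      rw [e4] at hk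
      generalize (∑ i ∈ range (m + 1 + 1), (it D i).card) = S0 at *
      generalize (it D (m + 1 + 1)).card = g2 at *
      clear hlev hg' hg hAv' hAv hTT hlam hlam'
      zify at hk hS htop hT4 hy' hyl hm1
      have hy0 : (0 : ℤ) ≤ y := by positivity
      refine A1X_oddB (m + 1) y T S0 g2 (by linarith) hy0 hTz (by nlinarith) (by nlinarith) ?_
      have e5 : (2 * ((m : ℤ) + 1) ^ 2 + (m + 1) + 1 + y) = x := by rw [hy']; ring
      rw [e5]
      nlinarith

end Pool.Agent.SSX
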