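import Pool.Agent.SSX.St

/-!
# SSX (copied from Pool/Agent/SSF/BnF.lean), BnF: lower bound for the order of the group in the context of a minimal violating family
-/

set_option autoImplicit false

noncomputable section

open Finset Pool.Agent.Helper64.Rho Pool.Agent.SDG Pool.Agent.MDR Pool.Agent.SSC Pool.Agent.SSE Pool.Agent.SSF
open scoped Classical Pointwise

namespace Pool.Agent.SSX

theorem thm_BnF : SDG.St_Nm1 → SDG.St_Ba1 → SDG.St_Kn → SDG.St_Sm → St_BnF := by
  intro _ hB hK _ G ι _ _ t s f hC ht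
  obtain ⟨hPR, -, hr2, -, hcard, hne, hcap, hap, -, -⟩ := hC
  obtain ⟨-, b2, b3, -, -, -, -⟩ := hB G ι f
  have hs : s.Nonempty := by
    rw [← card_pos]
    omega
  obtain ⟨i, hi⟩ := hs
  have h1 : cf 2 (t - 1) ≤ (FS (s.erase i) f).card := by
    refine hPR (t - 1) (by omega) G ι (s.erase i) f hr2 ?_ ?_ ?_ ?_
    · rw [card_erase_of_mem hi, hcard]
    · intro j hj
      exact hne j (mem_of_mem_erase hj)
    · intro x
      exact (card_le_card (filter_subset_filter _ (erase_subset i s))).trans (hcap x)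
    · exact b2 s (s.erase i) (erase_subset i s) hap
  have h2 := b3 s i hi
  have h3 : 1 ≤ lam (FS s f) (f i) := by
    by_contra h
    have h4 : lam (FS s f) (f i) = 0 := by omega
    unfold lam at h4
    rw [card_eq_zero, filter_eq_empty_iff] at h4
    refine hne i hi (hap (f i) fun x hx => ?_)
    by_contra h5
    exact h4 hx h5
  have h6 : (FS s f).card + 1 ≤ Nat.card (⊤ : AddSubgroup G) := by
    refine (hK G).2.2.2 (FS s f) ⊤ ⟨0, zero_mem_FS s f⟩ ?_ (fun x _ => AddSubgroup.mem_top x) hap
    intro h7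
    have h8 : f i ∈ (⊥ : AddSubgroup G) := h7 ▸ AddSubgroup.mem_top (f i)
    exact hne i hi (AddSubgroup.mem_bot.1 h8)
  have h9 : Nat.card (⊤ : AddSubgroup G) = Nat.card G := AddSubgroup.card_top
  omega

end Pool.Agent.SSX
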