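import Pool.Agent.SSX.St

/-!
# SSX (copied from Pool/Agent/SSF/C1F.lean) C1F: first conclusion of the engine, induction step (noncyclic groups of rank two)

Adapted from Pool/Agent/SSE/C1s.lean.
-/

set_option autoImplicit false

noncomputable section

open Finset Pool.Agent.Helper64.Rho Pool.Agent.SDG Pool.Agent.MDR Pool.Agent.SSC Pool.Agent.SSE Pool.Agent.SSF
open scoped Classical Pointwise

namespace Pool.Agent.SSX

private theorem C1F_outs {G ι : Type} [AddCommGroup G] {u : Finset ι} {f : ι → G} (i : ι)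
    (M : AddSubgroup G) : (outs u f M).card ≤ (outs (u.erase i) f M).card + 1 := by
  have h1 : (outs u f M).erase i ⊆ outs (u.erase i) f M := by
    intro j hj
    rw [mem_erase] at hj
    unfold outs at hj ⊢
    rw [mem_filter] at hj ⊢
    exact ⟨mem_erase.2 ⟨hj.1, hj.2.1⟩, hj.2.2⟩
  have h2 := card_le_card h1
  have h3 := Finset.pred_card_le_card_erase (s := outs u f M) (a := i)
  omega

private theorem C1F_lam {G ι : Type} [AddCommGroup G] {u : Finset ι} {f : ι → G} {i : ι}
    (h0 : f i ≠ 0) (hA : Aper (FS u f)) : 1 ≤ lam (FS u f) (f i) := by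
  by_contra hlt
  apply h0
  apply hA
  intro x hx
  by_contra hx'
  have h1 : lam (FS u f) (f i) = 0 := by omega
  unfold lam at h1
  rw [card_eq_zero] at h1
  have h2 : x ∈ (FS u f).filter fun b => b + f i ∉ FS u f := mem_filter.2 ⟨hx, hx'⟩
  rw [h1] at h2
  exact absurd h2 (notMem_empty x)

theorem thm_C1F : SDG.St_Ba1 → SDG.St_Sm → SSE.St_SyE → St_A1X → SSE.St_KxE → SSF.St_GmF →
    St_RgF → St_DrF → St_DpF → St_GrF → St_C1F := by
  intro hBa _ hSy hA1 hKx hGm hRg hDr hDp hGr l hl hPR hC1 hC1N hC2N G ι _ _ u f hR2 hncyc hcard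
    hAE hAp hgen hDC hSep hN
  by_contra hcon
  push Not at hcon
  obtain ⟨hx, hnE⟩ := hcon
  obtain ⟨m, rfl⟩ : ∃ m, l = m + 1 := ⟨l - 1, by omega⟩
  have hm1 : m + 1 - 1 = m := by omega
  rw [hm1] at hC1 hC1N hC2N
  have hm : 4 ≤ m := by omega
  have hx2 : 2 * (FS u f).card ≤ (m + 1) * (m + 1 + 1) := by
    obtain ⟨r, hr⟩ := Nat.even_mul_succ_self (m + 1)
    rw [hr] at hx ⊢
    omega
  obtain ⟨-, hB2, hB3, -, -, -, -⟩ := hBa G ι f
  obtain ⟨hSc, hS0, hSs, -, hSl, -, hSe⟩ := hSy G ι u f hAE
  -- at least three members outside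
  have hout : ∀ M : AddSubgroup G, M ≠ ⊤ → M.index ≠ 2 → 3 ≤ (outs u f M).card := by
    intro M hM hM2
    have h1 := hSep M hM hM2
    have h2 := hDr G ι u f M (by rw [hcard]; exact hPR) hR2 hAE hAp hgen (by omega)
      (by rw [hcard]; omega) hM2
    omega
  -- the families with one member less
  have hE : ∀ i ∈ u, AE (u.erase i) f ∧ gen (u.erase i) f = ⊤ ∧ Sep (u.erase i) f ∧
      2 + m * (m + 1) ≤ 2 * (FS (u.erase i) f).card ∧ ¬ Exc f (u.erase i) ∧
      2 * (FS (u.erase i) f).card ≤ Nat.card G := by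
    intro i hi
    have h1 : AE (u.erase i) f := (hSe i hi).2.2.2
    have h2 : gen (u.erase i) f = ⊤ := by
      by_contra hne
      have h3 := hDp m hm hC1 hC1N G ι u f i hR2 hAE hAp hgen hDC hout hN hcard hi hne
      rw [hcard] at h3
      omega
    have h3 : Sep (u.erase i) f := by
      intro M hM hM2
      have h4 := hout M hM hM2
      have h5 := C1F_outs (u := u) (f := f) i M
      omega
    have h4 : (FS (u.erase i) f).card ≤ (FS u f).card := card_le_card (FS_mono (erase_subset i u) f)
    have h5 : 2 * (FS (u.erase i) f).card ≤ Nat.card G := by omega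
    have h6 : ¬ Exc f (u.erase i) := by
      rintro ⟨K, a, hK⟩
      rcases hKx G ι u f K a i hAE hAp hi hK (Or.inr hN) with h7 | h7
      · exact hnE h7
      · rw [hcard] at h7
        omega
    have h7 : (u.erase i).card = m := by rw [card_erase_of_mem hi, hcard]; omega
    refine ⟨h1, h2, h3, ?_, h6, h5⟩
    rcases hC1N G ι (u.erase i) f hR2 hncyc h7 h1 (hB2 _ _ (erase_subset i u) hAp) h2
      (hRg.1 G ι u (u.erase i) f (erase_subset i u) hDC) h3 h5 with h8 | h8
    · exact h8
    · exact absurd h8 h6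
  by_cases hbig : ∃ i ∈ u, m ≤ lam (FS u f) (f i)
  · obtain ⟨i, hi, hlam⟩ := hbig
    obtain ⟨h1, h2, h3, h4, h5, h6⟩ := hE i hi
    have h7 := hB3 u i hi
    have hc : (u.erase i).card = m := by rw [card_erase_of_mem hi, hcard]; omega
    have h8 : m * m + 2 * m ≤ Nat.card G := by
      have : m * (m + 1) = m * m + m := by ring
      omega
    have h9 : 2 * (FS (u.erase i) f).card ≤ 2 + m * (m + 1) := by
      have e1 : m * (m + 1) = m * m + m := by ring
      have e2 : (m + 1) * (m + 1 + 1) = m * m + 3 * m + 2 := by ring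
      omega
    rcases hC2N G ι (u.erase i) f hR2 hncyc hc h1 (hB2 _ _ (erase_subset i u) hAp) h2
      (hRg.1 G ι u (u.erase i) f (erase_subset i u) hDC) h3 h6 h8 with h10 | h10 | ⟨K, h10⟩
    · omega
    · exact h5 h10
    · have h11 : m = 5 := by rw [← hc]; exact h10.2.1
      subst h11
      have h12 := hGm G ι u f i K hAE hAp hi h10 (by omega)
      omega
  · push Not at hbig
    have hlamD : ∀ y ∈ sym u f, lam (FS u f) y + 2 ≤ m + 1 := by
      intro y hy
      have := hSl (FS u f) (m - 1) (fun i hi => by have := hbig i hi; omega) y hy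
      omega
    have hne : u.Nonempty := by
      rw [← card_pos]; omega
    obtain ⟨i0, hi0⟩ := hne
    obtain ⟨-, -, -, h4, -, -⟩ := hE i0 hi0
    have h5 := hB3 u i0 hi0
    have h6 := C1F_lam (hAE.1.1 i0 hi0) hAp
    have h7 : 4 * m + 5 ≤ Nat.card G := by
      have e1 : m * (m + 1) = m * m + m := by ring
      have e2 : 4 * m ≤ m * m := Nat.mul_le_mul_right m hm
      omega
    have hX : 2 + (m + 1) * (m + 1 - 1) ≤ 2 * (FS u f).card := by
      rw [hm1]
      have e1 : m * (m + 1) = (m + 1) * m := by ring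
      omega
    rcases hGr G ι u f hR2 hncyc hAE hAp hgen (by omega) hDC (by
      rw [hcard, hm1]
      have e1 : m * (m + 1) = (m + 1) * m := by ring
      omega) (Or.inr hN) with
      h | ⟨K, -, h⟩ | h | h
    · exact hnE h
    · rw [hcard] at h
      omega
    · rw [hcard] at h
      omega
    · refine hA1 G (FS u f) (sym u f) (m + 1) hS0 hl hlamD hX hx2 ?_
      intro i hi
      rcases h i hi with ⟨τ, hτ, h8⟩ | h8 | ⟨h8, h9⟩
      · left
        rw [hcard] at hτ
        exact ⟨τ, hτ, by omega⟩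
      · right
        rw [hcard] at h8
        omega
      · right
        subst h8
        rw [hcard] at h9
        omega

end Pool.Agent.SSX
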