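import Pool.Agent.SSX.St

/-!
# SSX (copied from Pool/Agent/SSF/C2F.lean), C2F: second conclusion of the engine, induction step (noncyclic groups)
-/

set_option autoImplicit false

noncomputable section

open Finset Pool.Agent.Helper64.Rho Pool.Agent.SDG Pool.Agent.MDR Pool.Agent.SSC Pool.Agent.SSE Pool.Agent.SSF
open scoped Classical Pointwise

namespace Pool.Agent.SSX

/-- erasing a member loses at most one member outside a subgroup -/
private theorem C2F_outs {G ι : Type} [AddCommGroup G] {u : Finset ι} {f : ι → G} (i : ι)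
    (M : AddSubgroup G) : (outs u f M).card ≤ (outs (u.erase i) f M).card + 1 := by
  have h1 : (outs u f M).erase i ⊆ outs (u.erase i) f M := by
    intro j hj
    rw [mem_erase] at hj
    unfold outs at hj ⊢
    rw [mem_filter] at hj ⊢
    exact ⟨mem_erase.2 ⟨hj.1, hj.2.1⟩, hj.2.2⟩
  have h2 := card_le_card h1
  have h3 := Finset.pred_card_le_card_erase (s := outs u f M) (a := i)
  omega

/-- [C2F] -/
theorem thm_C2F : SDG.St_Ba1 → SSE.St_SyE → SSE.St_KxE → St_A2X → SSF.St_GmF → St_RgF → St_DrF →
    St_DpF → St_GrF → St_C2F := by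
  intro hBa hSy hKx hA2 hGm hRg hDr hDp hGr l hl hPR hC1 hC1N hC1l hC2 G ι _ _ u f hR hcyc hcard
    hAE hAp hgen hDC hSep hN hNl
  by_contra hcon
  push Not at hcon
  obtain ⟨hx, hnE, hnG⟩ := hcon
  obtain ⟨m, rfl⟩ : ∃ m, l = m + 1 := ⟨l - 1, by omega⟩
  have hm1 : m + 1 - 1 = m := by omega
  rw [hm1] at hC1 hC1N hC2
  have hm : 4 ≤ m := by omega
  -- the number of sums
  have hx1 : 2 + (m + 1) * (m + 1 + 1) ≤ 2 * (FS u f).card := by
    rcases hC1l G ι u f hR hcyc hcard hAE hAp hgen hDC hSep hN with h | h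
    · exact h
    · exact absurd h hnE
  have hx2 : 2 * (FS u f).card = 2 + (m + 1) * (m + 1 + 1) := by
    obtain ⟨r, hr⟩ := Nat.even_mul_succ_self (m + 1)
    rw [hr] at hx hx1 ⊢
    omega
  obtain ⟨-, hB2, hB3, -, -, -, -⟩ := hBa G ι f
  obtain ⟨hSc, hS0, -, -, hSl, -, hSe⟩ := hSy G ι u f hAE
  -- at least three members outside
  have hout : ∀ M : AddSubgroup G, M ≠ ⊤ → M.index ≠ 2 → 3 ≤ (outs u f M).card := by
    intro M hM hM2
    have h1 := hSep M hM hM2
    have h2 := hDr G ι u f M (by rw [hcard]; exact hPR) hR hAE hAp hgen (by omega)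
      (by rw [hcard]; omega) hM2
    omega
  have e1 : (m + 1) * (m + 1 + 1) = m * (m + 1) + 2 * m + 2 := by ring
  have e2 : (m + 1) * (m + 1) + 2 * (m + 1) = m * m + 2 * m + (2 * m + 3) := by ring
  have e3 : 4 * m ≤ m * m := Nat.mul_le_mul_right m hm
  -- the members of the family
  have hlam : ∀ i ∈ u, lam (FS u f) (f i) ≤ m := by
    intro i hi
    have h1 : AE (u.erase i) f := (hSe i hi).2.2.2
    have h2 : gen (u.erase i) f = ⊤ := by
      by_contra hne
      have h3 := hDp m hm hC1 hC1N G ι u f i hR hAE hAp hgen hDC hout hN hcard hi hne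
      rw [hcard] at h3
      omega
    have h3 : Sep (u.erase i) f := by
      intro M hM hM2
      have h4 := hout M hM hM2
      have h5 := C2F_outs (u := u) (f := f) i M
      omega
    have h4 : (FS (u.erase i) f).card ≤ (FS u f).card := card_le_card (FS_mono (erase_subset i u) f)
    have h5 : 2 * (FS (u.erase i) f).card ≤ Nat.card G := by omega
    have h6 : ¬ Exc f (u.erase i) := by
      rintro ⟨K, a, hK⟩
      rcases hKx G ι u f K a i hAE hAp hi hK (Or.inr hN) with h7 | h7
      · exact hnE h7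
      · rw [hcard] at h7
        omega
    have h7 : (u.erase i).card = m := by rw [card_erase_of_mem hi, hcard]; omega
    have h8 : DC (u.erase i) f := hRg.1 G ι u (u.erase i) f (erase_subset i u) hDC
    have h9 : Aper (FS (u.erase i) f) := hB2 _ _ (erase_subset i u) hAp
    have h10 : 4 + m * (m + 1) ≤ 2 * (FS (u.erase i) f).card := by
      rcases hC2 G ι (u.erase i) f hR hcyc h7 h1 h9 h2 h8 h3 h5 (by omega) with h | h | ⟨K, hK⟩
      · exact h
      · exact absurd h h6
      · have h11 := hK.2.1
        have h12 : m = 5 := by omega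
        subst h12
        have h13 := hGm G ι u f i K hAE hAp hi hK (by omega)
        omega
    have h11 := hB3 u i hi
    omega
  have hlamD : ∀ y ∈ sym u f, lam (FS u f) y + 1 ≤ m + 1 := by
    intro y hy
    have := hSl (FS u f) m hlam y hy
    omega
  rcases hGr G ι u f hR hcyc hAE hAp hgen (by omega) hDC (by
      rw [hcard, hm1]
      have e4 : (m + 1) * m = m * m + m := by ring
      omega) (Or.inr hN) with
    h | ⟨K, hK, -⟩ | h | h
  · exact hnE h
  · exact hnG K hK
  · rw [hcard] at h
    omega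
  · refine hA2 G (FS u f) (sym u f) (m + 1) hS0 hl hlamD hx2 (by rw [hSc, hcard]) ?_
    intro i hi
    rcases h i hi with ⟨τ, hτ, h8⟩ | h8 | ⟨h8, h9⟩
    · left
      rw [hcard] at hτ
      exact ⟨τ, hτ, by omega⟩
    · right
      left
      rw [hcard] at h8
      exact h8
    · right
      right
      rw [hcard] at h9
      exact ⟨h8, h9⟩

end Pool.Agent.SSX
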