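import Pool.Agent.SSX.St

/-!
# SSX (copied from Pool/Agent/SSF/CCF.lean): module CCF, induction for the engine
-/

set_option autoImplicit false

noncomputable section

open Finset Pool.Agent.Helper64.Rho Pool.Agent.SDG Pool.Agent.MDR Pool.Agent.SSC Pool.Agent.SSE Pool.Agent.SSF
open scoped Classical Pointwise

namespace Pool.Agent.SSX

theorem thm_CCF : St_C4F → St_C1F → St_C2F → St_CCF := by
  intro h4 h1 h2 hC1 l hl
  induction l, hl using Nat.le_induction with
  | base => intro _; exact h4
  | succ l hl ih =>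
    intro hP
    have ihl := ih fun n hn => hP n (by omega)
    have c1 : C1 (l + 1 - 1) := hC1 (l + 1 - 1) (by omega)
    have a1 : C1N (l + 1) := h1 (l + 1) (by omega) hP c1 ihl.1 ihl.2
    exact ⟨a1, h2 (l + 1) (by omega) hP c1 ihl.1 a1 ihl.2⟩

end Pool.Agent.SSX
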