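import Pool.Agent.SSX.St

/-!
# SSX, module CvX (offer 16607, architect helper86): covering the classes modulo a subgroup
-/

set_option autoImplicit false

noncomputable section

open Finset Pool.Agent.Helper64.Rho Pool.Agent.SDG Pool.Agent.MDR Pool.Agent.SSC Pool.Agent.SSE Pool.Agent.SSF
open scoped Classical Pointwise

namespace Pool.Agent.SSX

private theorem CvX_one (hBa : SDG.St_Ba1) (G ι : Type) [AddCommGroup G] (R1 R2 : Finset ι) (f : ι → G) (F F1 : AddSubgroup G)
    (hd : Disjoint R1 R2) (h1 : ∀ a ∈ F1, ∃ z ∈ FS R1 f, a - z ∈ F) (h2 : ∀ x : G, ∃ z ∈ FS R2 f, x - z ∈ F1) :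
    ∀ x : G, ∃ z ∈ FS (R1 ∪ R2) f, x - z ∈ F := by
  intro x
  obtain ⟨z2, hz2, hx2⟩ := h2 x
  obtain ⟨z1, hz1, hx1⟩ := h1 _ hx2
  refine ⟨z1 + z2, ?_, ?_⟩
  · rw [(hBa G ι f).1 R1 R2 hd]
    exact Finset.add_mem_add hz1 hz2
  · have : x - (z1 + z2) = x - z2 - z1 := by abel
    rw [this]
    exact hx1

private theorem CvX_singleton {G ι : Type} [AddCommGroup G] (x : ι) (f : ι → G) : f x ∈ FS {x} f :=
  mem_FS.2 ⟨{x}, Finset.Subset.refl _, by simp⟩

private theorem CvX_two (G ι : Type) [AddCommGroup G] (x : ι) (f : ι → G) (F1 M2 : AddSubgroup G)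
    (hM : M2.index = 2) (hx : f x ∈ F1) (hx2 : f x ∉ M2) : ∀ a ∈ F1, ∃ z ∈ FS {x} f, a - z ∈ F1 ⊓ M2 := by
  intro a ha
  by_cases haM : a ∈ M2
  · exact ⟨0, zero_mem_FS _ _, by simpa using ⟨ha, haM⟩⟩
  · refine ⟨f x, CvX_singleton x f, ?_⟩
    refine AddSubgroup.mem_inf.2 ⟨F1.sub_mem ha hx, ?_⟩
    rw [sub_eq_add_neg, AddSubgroup.add_mem_iff_of_index_two hM]
    exact ⟨fun h => absurd h haM, fun h => absurd ((M2.neg_mem_iff).1 h) hx2⟩

private theorem CvX_three_aux {H : Type} [AddCommGroup H] (hH : Nat.card H = 3) (α β γ : H) (hα : α ≠ 0) (hβ : β ≠ 0) :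
    γ = 0 ∨ γ = α ∨ γ = β ∨ γ = α + β := by
  have hfin : Finite H := Nat.finite_of_card_ne_zero (by rw [hH]; norm_num)
  let _ : Fintype H := Fintype.ofFinite H
  have hc : Fintype.card H = 3 := by
    rw [← Nat.card_eq_fintype_card]
    exact hH
  have h3 : ∀ x : H, x + x + x = 0 := by
    intro x
    have h := card_nsmul_eq_zero (x := x)
    rw [hc] at h
    have h2 : x + x + x = 3 • x := by
      rw [succ_nsmul, two_nsmul]
    rw [h2]
    exact h
  have hαα : α ≠ - α := by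
    intro h
    apply hα
    have h4 : α + α = 0 := by
      nth_rewrite 1 [h]
      simp
    have h5 := h3 α
    rw [h4, zero_add] at h5
    exact h5
  have hcard : ({0, α, - α} : Finset H).card = 3 := by
    rw [Finset.card_insert_of_notMem, Finset.card_insert_of_notMem, Finset.card_singleton]
    · simpa using hαα
    · simp only [Finset.mem_insert, Finset.mem_singleton, not_or]
      exact ⟨fun h => hα h.symm, fun h => hα (by rw [← neg_neg α, ← h, neg_zero])⟩
  have huniv : ({0, α, - α} : Finset H) = Finset.univ := Finset.eq_univ_of_card _ (by rw [hcard, hc])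
  have hmem : ∀ x : H, x = 0 ∨ x = α ∨ x = - α := by
    intro x
    have : x ∈ ({0, α, - α} : Finset H) := by
      rw [huniv]
      exact Finset.mem_univ x
    simpa using this
  have h2α : α + α = - α := by
    have h := h3 α
    exact eq_neg_of_add_eq_zero_left h
  rcases hmem γ with h | h | h
  · exact Or.inl h
  · exact Or.inr (Or.inl h)
  · rcases hmem β with h' | h' | h'
    · exact absurd h' hβ
    · right; right; right
      rw [h, h', h2α]
    · right; right; left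
      rw [h, h']

private theorem CvX_three (G ι : Type) [AddCommGroup G] (y y' : ι) (f : ι → G) (F F1 : AddSubgroup G)
    (hy : y ≠ y') (_hF : F ≤ F1) (h3 : F.relIndex F1 = 3) (h1 : f y ∈ F1) (h1' : f y' ∈ F1) (h2 : f y ∉ F)
    (h2' : f y' ∉ F) : ∀ a ∈ F1, ∃ z ∈ FS {y, y'} f, a - z ∈ F := by
  intro a ha
  have hcard : Nat.card (F1 ⧸ F.addSubgroupOf F1) = 3 := h3
  let π : F1 →+ (F1 ⧸ F.addSubgroupOf F1) := QuotientAddGroup.mk' _
  have hπ : ∀ v : F1, π v = 0 ↔ (v : G) ∈ F := by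
    intro v
    rw [← AddMonoidHom.mem_ker, QuotientAddGroup.ker_mk']
    exact AddSubgroup.mem_addSubgroupOf
  have key := CvX_three_aux hcard (π ⟨f y, h1⟩) (π ⟨f y', h1'⟩) (π ⟨a, ha⟩)
    (fun h => h2 ((hπ _).1 h)) (fun h => h2' ((hπ _).1 h))
  have hyy : f y + f y' ∈ FS {y, y'} f := mem_FS.2 ⟨{y, y'}, Finset.Subset.refl _, by rw [Finset.sum_pair hy]⟩
  rcases key with h | h | h | h
  · exact ⟨0, zero_mem_FS _ _, by simpa using (hπ _).1 h⟩
  · refine ⟨f y, mem_FS.2 ⟨{y}, by simp, by simp⟩, ?_⟩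
    have h4 : π (⟨a, ha⟩ - ⟨f y, h1⟩) = 0 := by rw [map_sub, h, sub_self]
    exact (hπ _).1 h4
  · refine ⟨f y', mem_FS.2 ⟨{y'}, by simp, by simp⟩, ?_⟩
    have h4 : π (⟨a, ha⟩ - ⟨f y', h1'⟩) = 0 := by rw [map_sub, h, sub_self]
    exact (hπ _).1 h4
  · refine ⟨f y + f y', hyy, ?_⟩
    have h4 : π (⟨a, ha⟩ - (⟨f y, h1⟩ + ⟨f y', h1'⟩)) = 0 := by rw [map_sub, map_add, h, sub_self]
    exact (hπ _).1 h4

private theorem CvX_four (G : Type) [AddCommGroup G] (A M : AddSubgroup G) (n : ℕ) (hn : n.Prime)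
    (hM : M.index = n) (hA : ¬ A ≤ M) : (A ⊓ M).index = n * A.index := by
  have h1 : M.relIndex (M ⊔ A) * (M ⊔ A).index = M.index := AddSubgroup.relIndex_mul_index le_sup_left
  have h2 : M.relIndex (M ⊔ A) ≠ 1 := by
    intro h
    rw [AddSubgroup.relIndex_eq_one] at h
    exact hA (le_trans le_sup_right h)
  have h3 : M.relIndex (M ⊔ A) = n := by
    have h4 : M.relIndex (M ⊔ A) ∣ n := by
      rw [← hM, ← h1]
      exact dvd_mul_right _ _
    rcases (Nat.dvd_prime hn).1 h4 with h5 | h5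
    · exact absurd h5 h2
    · exact h5
  have h5 : M.relIndex A = n := (AddSubgroup.relIndex_sup_left (K := M) (H := A)).symm.trans h3
  rw [← AddSubgroup.relIndex_mul_index (inf_le_left : A ⊓ M ≤ A), AddSubgroup.inf_relIndex_left, h5]

private theorem CvX_cosets (hBa : SDG.St_Ba1) (G ι : Type) [AddCommGroup G] [Finite G] (I R : Finset ι) (f : ι → G)
    (F : AddSubgroup G) (hd : Disjoint I R) (hI : ∀ i ∈ I, f i ∈ F) (hR : ∀ x : G, ∃ z ∈ FS R f, x - z ∈ F) :
    F.index * (FS I f).card ≤ (FS (I ∪ R) f).card := by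
  choose ζ hζ1 hζ2 using hR
  let _ : Fintype (G ⧸ F) := Fintype.ofFinite _
  have h1 : F.index = (Finset.univ : Finset (G ⧸ F)).card := by
    rw [AddSubgroup.index_eq_card, Nat.card_eq_fintype_card, Finset.card_univ]
  rw [h1, ← Finset.card_product]
  apply Finset.card_le_card_of_injOn (fun p => p.2 + ζ (Quotient.out p.1))
  · intro p hp
    have hp2 : p.2 ∈ FS I f := (Finset.mem_product.1 (Finset.mem_coe.1 hp)).2
    rw [(hBa G ι f).1 I R hd]
    exact Finset.mem_coe.2 (Finset.add_mem_add hp2 (hζ1 _))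
  · intro p hp p' hp' h
    have hp2 : p.2 ∈ FS I f := (Finset.mem_product.1 (Finset.mem_coe.1 hp)).2
    have hp2' : p'.2 ∈ FS I f := (Finset.mem_product.1 (Finset.mem_coe.1 hp')).2
    have hF : p.2 ∈ F := FS_subset_of_mem hI hp2
    have hF' : p'.2 ∈ F := FS_subset_of_mem hI hp2'
    have hh : p.2 + ζ (Quotient.out p.1) = p'.2 + ζ (Quotient.out p'.1) := h
    have h3 : p.1 = p'.1 := by
      have e1 : (Quotient.out p.1 : G) - Quotient.out p'.1 ∈ F := by
        have e2 : (Quotient.out p.1 : G) - Quotient.out p'.1 =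
            (Quotient.out p.1 - ζ (Quotient.out p.1)) - (Quotient.out p'.1 - ζ (Quotient.out p'.1)) + (p'.2 - p.2) := by
          have e3 : p'.2 = p.2 + ζ (Quotient.out p.1) - ζ (Quotient.out p'.1) := by
            rw [hh]
            abel
          rw [e3]
          abel
        rw [e2]
        exact F.add_mem (F.sub_mem (hζ2 _) (hζ2 _)) (F.sub_mem hF' hF)
      have e4 : ((Quotient.out p'.1 : G) : G ⧸ F) = ((Quotient.out p.1 : G) : G ⧸ F) := by
        rw [QuotientAddGroup.eq]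
        have e5 : - (Quotient.out p'.1 : G) + Quotient.out p.1 = (Quotient.out p.1 : G) - Quotient.out p'.1 := by abel
        rw [e5]
        exact e1
      rw [← Quotient.out_eq p.1, ← Quotient.out_eq p'.1]
      exact e4.symm
    have h4 : p.2 = p'.2 := by
      rw [h3] at hh
      exact add_right_cancel hh
    exact Prod.ext h3 h4

private theorem CvX_five (hBa : SDG.St_Ba1) (hKn : SDG.St_Kn) (G ι : Type) [AddCommGroup G] [Finite G] (t : ℕ) (s I R : Finset ι)
    (f : ι → G) (F : AddSubgroup G) (hC : CtxF t s f) (hIs : I ⊆ s) (hRs : R ⊆ s) (hd : Disjoint I R) (hRn : R.Nonempty)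
    (hI : ∀ i ∈ I, f i ∈ F) (hR : ∀ x : G, ∃ z ∈ FS R f, x - z ∈ F) :
    F.index * (FS I f).card + cf 2 (t - I.card - R.card) ≤ cf 2 t := by
  obtain ⟨hPR, -, hR2, -, hcard, hnz, hcap, hap, -, hlt⟩ := hC
  have h1 := CvX_cosets hBa G ι I R f F hd hI hR
  have hsub : I ∪ R ⊆ s := Finset.union_subset hIs hRs
  have hWc : (s \ (I ∪ R)).card = t - I.card - R.card := by
    rw [Finset.card_sdiff_of_subset hsub, Finset.card_union_of_disjoint hd, hcard]
    omega
  have hRp : 1 ≤ R.card := Finset.card_pos.2 hRn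
  have hRt : R.card ≤ t := by
    rw [← hcard]
    exact Finset.card_le_card hRs
  have hWt : t - I.card - R.card < t := by omega
  have hWs : s \ (I ∪ R) ⊆ s := Finset.sdiff_subset
  have h2 : cf 2 (t - I.card - R.card) ≤ (FS (s \ (I ∪ R)) f).card := by
    apply hPR _ hWt G ι (s \ (I ∪ R)) f hR2 hWc (fun i hi => hnz i (hWs hi))
    · intro x
      exact le_trans (Finset.card_le_card (Finset.filter_subset_filter _ hWs)) (hcap x)
    · exact (hBa G ι f).2.1 s _ hWs hap
  have h3 : FS s f = FS (I ∪ R) f + FS (s \ (I ∪ R)) f := by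
    rw [← (hBa G ι f).1 _ _ Finset.disjoint_sdiff, Finset.union_sdiff_of_subset hsub]
  have h4 := (hKn G).1 (FS (I ∪ R) f) (FS (s \ (I ∪ R)) f) ⟨0, zero_mem_FS _ _⟩ ⟨0, zero_mem_FS _ _⟩
    (by rw [← h3]; exact hap)
  rw [← h3] at h4
  omega

/-- **CvX** -/
theorem thm_CvX : SDG.St_Ba1 → SDG.St_Kn → St_CvX := by
  intro hBa hKn
  refine ⟨fun G ι _ R1 R2 f F F1 => CvX_one hBa G ι R1 R2 f F F1, fun G ι _ x f F1 M2 => CvX_two G ι x f F1 M2,
    fun G ι _ y y' f F F1 => CvX_three G ι y y' f F F1, ?_, ?_⟩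
  · intro G _ _ A M n hn hM hA
    exact CvX_four G A M n hn hM hA
  · intro G ι _ _ t s I R f F hC hIs hRs hd hRn hI hR
    exact CvX_five hBa hKn G ι t s I R f F hC hIs hRs hd hRn hI hR

end Pool.Agent.SSX
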