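import Pool.Agent.SSX.St

/-!
# SSX (copied from Pool/Agent/SSF/DrF.lean) DrF: exactly two members outside a subgroup is possible only for index 2
-/

set_option autoImplicit false

noncomputable section

open Finset Pool.Agent.Helper64.Rho Pool.Agent.SDG Pool.Agent.MDR Pool.Agent.SSC Pool.Agent.SSE Pool.Agent.SSF
open scoped Classical Pointwise

namespace Pool.Agent.SSX

private theorem DrF_AS {G ι : Type} [AddCommGroup G] {u v : Finset ι} {f : ι → G} (h : v ⊆ u)
    (hu : AS u f) : AS v f := by
  refine ⟨fun i hi => hu.1 i (h hi), fun x => (card_le_card ?_).trans (hu.2 x)⟩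
  exact filter_subset_filter _ h

/-- three translates of a subset of `M` in three different cosets -/
private theorem DrF_three {G : Type} [AddCommGroup G] {M : AddSubgroup G} {Y T : Finset G}
    (hY : ∀ y ∈ Y, y ∈ M) {a b c : G} (hab : a - b ∉ M) (hac : a - c ∉ M) (hbc : b - c ∉ M)
    (ha : ∀ y ∈ Y, y + a ∈ T) (hb : ∀ y ∈ Y, y + b ∈ T) (hc : ∀ y ∈ Y, y + c ∈ T) :
    3 * Y.card ≤ T.card := by
  have hcard : ∀ d : G, (Y.image fun y => y + d).card = Y.card := fun d =>
    card_image_of_injective _ (add_left_injective d)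
  have hdis : ∀ d e : G, d - e ∉ M → Disjoint (Y.image fun y => y + d) (Y.image fun y => y + e) := by
    intro d e hde
    rw [disjoint_left]
    intro x hx hx'
    obtain ⟨y, hy, rfl⟩ := mem_image.1 hx
    obtain ⟨z, hz, hzy⟩ := mem_image.1 hx'
    apply hde
    have h1 : d - e = z - y := by
      have h2 : z + e = y + d := hzy
      rw [sub_eq_sub_iff_add_eq_add, add_comm d y, ← h2]
    rw [h1]
    exact M.sub_mem (hY z hz) (hY y hy)
  have hsub : (Y.image fun y => y + a) ∪ (Y.image fun y => y + b) ∪ (Y.image fun y => y + c) ⊆ T := by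
    intro x hx
    rcases mem_union.1 hx with hx | hx
    · rcases mem_union.1 hx with hx | hx
      · obtain ⟨y, hy, rfl⟩ := mem_image.1 hx
        exact ha y hy
      · obtain ⟨y, hy, rfl⟩ := mem_image.1 hx
        exact hb y hy
    · obtain ⟨y, hy, rfl⟩ := mem_image.1 hx
      exact hc y hy
  have h1 := card_le_card hsub
  rw [card_union_of_disjoint (disjoint_union_left.2 ⟨hdis a c hac, hdis b c hbc⟩),
    card_union_of_disjoint (hdis a b hab), hcard, hcard, hcard] at h1
  omega

/-- only two classes: index 2 -/
private theorem DrF_two {G ι : Type} [AddCommGroup G] {u : Finset ι} {f : ι → G}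
    {M : AddSubgroup G} (hgen : gen u f = ⊤) {c : G} (hc : c ∉ M) (hcc : c + c ∈ M)
    (h : ∀ k ∈ u, f k ∈ M ∨ f k - c ∈ M) : M.index = 2 := by
  have key : ∀ x : G, x ∈ M ∨ x - c ∈ M := by
    intro x
    have hx : x ∈ AddSubgroup.closure (f '' (u : Set ι)) := by
      have h1 : x ∈ gen u f := by rw [hgen]; trivial
      exact h1
    induction hx using AddSubgroup.closure_induction with
    | mem y hy =>
      obtain ⟨k, hk, rfl⟩ := hy
      exact h k hk
    | zero => exact Or.inl M.zero_mem
    | add y z _ _ hy hz =>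
      rcases hy with hy | hy
      · rcases hz with hz | hz
        · exact Or.inl (M.add_mem hy hz)
        · refine Or.inr ?_
          have h1 : y + z - c = y + (z - c) := by abel
          rw [h1]
          exact M.add_mem hy hz
      · rcases hz with hz | hz
        · refine Or.inr ?_
          have h1 : y + z - c = (y - c) + z := by abel
          rw [h1]
          exact M.add_mem hy hz
        · refine Or.inl ?_
          have h1 : y + z = (y - c) + (z - c) + (c + c) := by abel
          rw [h1]
          exact M.add_mem (M.add_mem hy hz) hcc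
    | neg y _ hy =>
      rcases hy with hy | hy
      · exact Or.inl (M.neg_mem hy)
      · refine Or.inr ?_
        have h1 : -y - c = -((y - c) + (c + c)) := by abel
        rw [h1]
        exact M.neg_mem (M.add_mem hy hcc)
  rw [AddSubgroup.index_eq_two_iff]
  refine ⟨c, fun b => ?_⟩
  by_cases hb : b ∈ M
  · refine Or.inr ⟨hb, fun h1 => hc ?_⟩
    have h2 := M.sub_mem h1 hb
    rwa [add_sub_cancel_left] at h2
  · refine Or.inl ⟨?_, hb⟩
    have h1 := (key b).resolve_left hb
    have h2 : b + c = (b - c) + (c + c) := by abel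
    rw [h2]
    exact M.add_mem h1 hcc

/-- one more member gives one more sum -/
private theorem DrF_succ {G ι : Type} [AddCommGroup G] {I : Finset ι} {f : ι → G} {k : ι}
    (hk : k ∈ I) (h0 : f k ≠ 0) (hA : Aper (FS (I.erase k) f)) :
    (FS (I.erase k) f).card + 1 ≤ (FS I f).card := by
  by_contra hlt
  have hsub : FS (I.erase k) f ⊆ FS I f := FS_mono (erase_subset k I) f
  have heq : FS (I.erase k) f = FS I f := eq_of_subset_of_card_le hsub (by omega)
  apply h0
  apply hA
  intro x hx
  rw [heq]
  obtain ⟨t, ht, rfl⟩ := mem_FS.1 hx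
  have hkt : k ∉ t := fun h => (mem_erase.1 (ht h)).1 rfl
  refine mem_FS.2 ⟨insert k t, ?_, ?_⟩
  · intro i hi
    rcases mem_insert.1 hi with rfl | hi
    · exact hk
    · exact (mem_erase.1 (ht hi)).2
  · rw [sum_insert hkt, add_comm]

/-- **DrF** -/
theorem thm_DrF : Pool.Agent.SDG.St_Nm1 → Pool.Agent.SDG.St_Ba1 → Pool.Agent.SDG.St_Sm →
    Pool.Agent.SSC.St_Nu → Pool.Agent.SSE.St_B3E → St_DrF := by
  intro _ hBa _ hNu hB3 G ι _ _ u f M hPF hR2 hAE hAper hgen hl hcard hidx hout
  have hAS : AS u f := hAE.1
  obtain ⟨i, j, hij, hO⟩ := card_eq_two.1 hout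
  set I := ins u f M with hI
  have hIu : I ⊆ u := filter_subset _ _
  have hIcard : I.card + 2 = u.card := by
    rw [← hout]
    exact card_filter_add_card_filter_not (s := u) (fun i => f i ∈ M)
  have hiO : i ∈ outs u f M := by rw [hO]; exact mem_insert_self _ _
  have hjO : j ∈ outs u f M := by rw [hO]; exact mem_insert_of_mem (mem_singleton_self _)
  have hiu : i ∈ u := (mem_filter.1 hiO).1
  have hju : j ∈ u := (mem_filter.1 hjO).1
  have hiM : f i ∉ M := (mem_filter.1 hiO).2
  have hjM : f j ∉ M := (mem_filter.1 hjO).2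
  have hiI : i ∉ I := fun h => hiM (mem_filter.1 h).2
  have hjI : j ∉ I := fun h => hjM (mem_filter.1 h).2
  have hASI : AS I f := DrF_AS hIu hAS
  have hAEI : ∀ v : Finset ι, v ⊆ I → AE v f := fun v hv =>
    ⟨DrF_AS (hv.trans hIu) hAS, fun k hk => hAE.2 k (hIu (hv hk))⟩
  have hAperI : ∀ v : Finset ι, v ⊆ I → Aper (FS v f) := fun v hv =>
    (hBa G ι f).2.1 u v (hv.trans hIu) hAper
  -- the sums of `I` are in `M`
  have hYM : ∀ y ∈ FS I f, y ∈ M := fun y hy =>
    FS_subset_of_mem (fun k hk => (mem_filter.1 hk).2) hy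
  -- translates
  have h0 : ∀ y ∈ FS I f, y + 0 ∈ FS u f := by
    intro y hy
    rw [add_zero]
    exact FS_mono hIu f hy
  have h1 : ∀ k ∈ u, k ∉ I → ∀ y ∈ FS I f, y + f k ∈ FS u f := by
    intro k hk hkI y hy
    obtain ⟨v, hv, rfl⟩ := mem_FS.1 hy
    refine mem_FS.2 ⟨insert k v, ?_, ?_⟩
    · intro l hl
      rcases mem_insert.1 hl with rfl | hl
      · exact hk
      · exact hIu (hv hl)
    · rw [sum_insert (fun h => hkI (hv h)), add_comm]
  have h2 : ∀ y ∈ FS I f, y + (f i + f j) ∈ FS u f := by
    intro y hy
    obtain ⟨v, hv, rfl⟩ := mem_FS.1 hy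
    have hjv : j ∉ v := fun h => hjI (hv h)
    refine mem_FS.2 ⟨insert i (insert j v), ?_, ?_⟩
    · intro l hl
      rcases mem_insert.1 hl with rfl | hl
      · exact hiu
      · rcases mem_insert.1 hl with rfl | hl
        · exact hju
        · exact hIu (hv hl)
    · rw [sum_insert, sum_insert hjv]
      · abel
      · intro h
        rcases mem_insert.1 h with h | h
        · exact hij h
        · exact hiI (hv h)
  have hneg : ∀ x : G, x ∉ M → 0 - x ∉ M := fun x hx h => hx (by
    have := M.neg_mem h
    rwa [zero_sub, neg_neg] at this)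
  have h3 : 3 * (FS I f).card ≤ (FS u f).card := by
    by_cases hxy : f i - f j ∈ M
    · have hsum : f i + f j ∉ M := by
        intro h
        apply hidx
        have hii : f i + f i ∈ M := by
          have h4 := M.add_mem h hxy
          have h5 : f i + f j + (f i - f j) = f i + f i := by abel
          rwa [h5] at h4
        refine DrF_two hgen hiM hii fun k hk => ?_
        by_cases hkM : f k ∈ M
        · exact Or.inl hkM
        · have hkO : k ∈ outs u f M := mem_filter.2 ⟨hk, hkM⟩
          rw [hO, mem_insert, mem_singleton] at hkO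
          refine Or.inr ?_
          rcases hkO with rfl | rfl
          · rw [sub_self]
            exact M.zero_mem
          · have h4 : f k - f i = -(f i - f k) := by abel
            rw [h4]
            exact M.neg_mem hxy
      refine DrF_three hYM (a := 0) (b := f i) (c := f i + f j) (hneg _ hiM) (hneg _ hsum) ?_
        h0 (h1 i hiu hiI) h2
      intro h
      have h4 := M.neg_mem h
      have h5 : -(f i - (f i + f j)) = f j := by abel
      rw [h5] at h4
      exact hjM h4
    · exact DrF_three hYM (a := 0) (b := f i) (c := f j) (hneg _ hiM) (hneg _ hjM) hxy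
        h0 (h1 i hiu hiI) (h1 j hju hjI)
  -- the three cases
  rcases Nat.lt_or_ge u.card 7 with h7 | h7
  · rcases Nat.lt_or_ge u.card 6 with h6 | h6
    · have hu5 : u.card = 5 := by omega
      have hI3 : I.card = 3 := by omega
      have h4 := hB3 G ι I f (hAEI I (Subset.refl _)) (by omega)
      rw [hI3] at h4
      rw [hu5] at hcard
      omega
    · have hu6 : u.card = 6 := by omega
      have hI4 : I.card = 4 := by omega
      obtain ⟨k, hk⟩ : I.Nonempty := card_pos.1 (by omega)
      have hck : (I.erase k).card = 3 := by rw [card_erase_of_mem hk]; omega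
      have h4 := hB3 G ι (I.erase k) f (hAEI _ (erase_subset k I)) (by omega)
      rw [hck] at h4
      have h5 := DrF_succ hk (hASI.1 k hk) (hAperI _ (erase_subset k I))
      rw [hu6] at hcard
      omega
  · have h5 := hPF (u.card - 2) (by omega) G ι I f hR2 (by omega) hASI.1
      (fun x => (hASI.2 x).trans (by norm_num)) (hAperI I (Subset.refl _))
    have h6 := hNu.2.2.2.1 u.card h7
    omega

end Pool.Agent.SSX
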