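import Pool.Agent.SSX.St

/-!
# SSX, FU: a full coset of a group killed by 2 (helper30)
-/

set_option autoImplicit false

noncomputable section

open Finset Pool.Agent.Helper64.Rho Pool.Agent.SDG Pool.Agent.MDR Pool.Agent.SSC Pool.Agent.SSE Pool.Agent.SSF
open scoped Classical Pointwise

namespace Pool.Agent.SSX

section

variable {G ι : Type} [AddCommGroup G]

private theorem FU_mem (S : Finset ι) (f : ι → G) (x : G) :
    x ∈ FS S f ↔ ∃ U ⊆ S, ∑ i ∈ U, f i = x := by
  unfold FS
  rw [mem_image]
  constructor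
  · rintro ⟨U, hU, h⟩
    exact ⟨U, mem_powerset.1 hU, h⟩
  · rintro ⟨U, hU, h⟩
    exact ⟨U, mem_powerset.2 hU, h⟩

private theorem FU_sum (K : AddSubgroup G) (f : ι → G) (c : G) (U : Finset ι)
    (h : ∀ i ∈ U, f i - c ∈ K) : ∑ i ∈ U, f i - U.card • c ∈ K := by
  have h1 : ∑ i ∈ U, f i - U.card • c = ∑ i ∈ U, (f i - c) := by
    rw [sum_sub_distrib, sum_const]
  rw [h1]
  exact K.sum_mem h

private theorem FU_img (K : AddSubgroup G) [Finite G] (S : Finset ι) (f : ι → G) (c : G)
    (h : ∀ i ∈ S, f i - c ∈ K) (hc : S.card = Nat.card K)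
    (hinj : ∀ i ∈ S, ∀ j ∈ S, f i = f j → i = j) (y : G) (hy : y - c ∈ K) :
    ∃ i ∈ S, f i = y := by
  have hfin : (K : Set G).Finite := Set.toFinite _
  have h1 : S.image (fun i => f i - c) = hfin.toFinset := by
    apply eq_of_subset_of_card_le
    · intro x hx
      rw [mem_image] at hx
      obtain ⟨i, hi, rfl⟩ := hx
      rw [Set.Finite.mem_toFinset]
      exact h i hi
    · rw [card_image_of_injOn (fun i hi j hj e => hinj i hi j hj (sub_left_injective e)), hc,
        ← Set.ncard_eq_toFinset_card, ← Nat.card_coe_set_eq]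
      rfl
  have h2 : y - c ∈ S.image (fun i => f i - c) := by
    rw [h1, Set.Finite.mem_toFinset]
    exact hy
  rw [mem_image] at h2
  obtain ⟨i, hi, e⟩ := h2
  exact ⟨i, hi, sub_left_injective e⟩

end

/-- **FU** -/
theorem thm_FU : St_FU := by
  intro G ι _ _ S f K c h2 h hc hinj
  have hsub : ∀ v : ℕ, v ≤ Nat.card K → ∃ U ⊆ S, U.card = v := by
    intro v hv
    exact exists_subset_card_eq (by omega)
  refine ⟨?_, ?_, ?_⟩
  · -- odd levels
    intro v hv hvk x hx
    obtain ⟨U, hU, hUc⟩ := hsub v hvk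
    have hσ := FU_sum K f c U (fun i hi => h i (hU hi))
    rw [hUc] at hσ
    -- the shift
    obtain ⟨y, hyK, hy⟩ : ∃ y ∈ K, y + ∑ i ∈ U, f i = v • c + x := by
      refine ⟨v • c + x - ∑ i ∈ U, f i, ?_, by abel⟩
      have e : v • c + x - ∑ i ∈ U, f i = x - (∑ i ∈ U, f i - v • c) := by abel
      rw [e]
      exact K.sub_mem hx hσ
    have hex : ∀ i, ∃ j, i ∈ S → j ∈ S ∧ f j = f i + y := by
      intro i
      by_cases hi : i ∈ S
      · obtain ⟨j, hj, e⟩ := FU_img K S f c h hc hinj (f i + y) (by
          have e : f i + y - c = (f i - c) + y := by abel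
          rw [e]
          exact K.add_mem (h i hi) hyK)
        exact ⟨j, fun _ => ⟨hj, e⟩⟩
      · exact ⟨i, fun h => absurd h hi⟩
    choose φ hφ using hex
    have hφi : Set.InjOn φ U := by
      intro i hi j hj e
      have h3 := (hφ i (hU hi)).2
      have h4 := (hφ j (hU hj)).2
      rw [e, h4] at h3
      exact hinj i (hU hi) j (hU hj) (add_right_cancel h3).symm
    rw [FU_mem]
    refine ⟨U.image φ, ?_, ?_⟩
    · intro j hj
      rw [mem_image] at hj
      obtain ⟨i, hi, rfl⟩ := hj
      exact (hφ i (hU hi)).1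
    · rw [sum_image (fun i hi j hj e => hφi hi hj e),
        sum_congr rfl fun i hi => (hφ i (hU hi)).2, sum_add_distrib, sum_const, hUc]
      have h5 : v • y = y := by
        have h6 : v = 2 * (v / 2) + 1 := by omega
        rw [h6, add_smul, mul_comm, mul_smul, two_smul, h2 y hyK, smul_zero, zero_add, one_smul]
      rw [h5, add_comm]
      exact hy
  · -- many elements
    intro v hv hvk
    obtain ⟨U, hU, hUc⟩ := hsub v (by omega)
    obtain ⟨u0, hu0⟩ : U.Nonempty := card_pos.1 (by omega)
    have hcd : (S \ U).card = Nat.card K - v := by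
      rw [card_sdiff_of_subset hU, hc, hUc]
    obtain ⟨w0, hw0⟩ : (S \ U).Nonempty := card_pos.1 (by omega)
    rw [mem_sdiff] at hw0
    obtain ⟨σ, hσd⟩ : ∃ σ : G, σ = ∑ i ∈ U, f i := ⟨_, rfl⟩
    have hσ := FU_sum K f c U (fun i hi => h i (hU hi))
    rw [hUc, ← hσd] at hσ
    obtain ⟨T, hT⟩ : ∃ T : Finset G, T = (FS S f).filter fun x => x - v • c ∈ K := ⟨_, rfl⟩
    rw [← hT]
    have hmem : ∀ x, x ∈ T ↔ x ∈ FS S f ∧ x - v • c ∈ K := by
      intro x
      rw [hT, mem_filter]
    -- exchange
    have hex : ∀ u ∈ U, ∀ w ∈ S, w ∉ U → σ - f u + f w ∈ T := by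
      intro u hu w hw hwU
      rw [hmem]
      constructor
      · rw [FU_mem]
        refine ⟨insert w (U.erase u), ?_, ?_⟩
        · intro i hi
          rw [mem_insert] at hi
          rcases hi with rfl | hi
          · exact hw
          · exact hU (mem_of_mem_erase hi)
        · rw [sum_insert (fun h => hwU (mem_of_mem_erase h)), hσd, ← add_sum_erase U f hu]
          abel
      · have e : σ - f u + f w - v • c = (σ - v • c) + ((f w - c) - (f u - c)) := by abel
        rw [e]
        exact K.add_mem hσ (K.sub_mem (h w hw) (h u (hU hu)))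
    have hσT : σ ∈ T := by
      rw [hmem]
      exact ⟨(FU_mem S f σ).2 ⟨U, hU, hσd.symm⟩, hσ⟩
    have hne : ∀ u ∈ U, ∀ w ∈ S, w ∉ U → σ ≠ σ - f u + f w := by
      intro u hu w hw hwU e
      have e1 : f w = f u := by
        have e2 : σ + f u = σ + f w := by
          calc σ + f u = (σ - f u + f w) + f u := by rw [← e]
            _ = σ + f w := by abel
        exact (add_left_cancel e2).symm
      have e3 := hinj w hw u (hU hu) e1
      rw [e3] at hwU
      exact hwU hu
    have b1 : Nat.card K - v + 1 ≤ T.card := by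
      have h7 : (insert σ ((S \ U).image fun w => σ - f u0 + f w)).card = Nat.card K - v + 1 := by
        rw [card_insert_of_notMem, card_image_of_injOn, hcd]
        · intro w hw w' hw' e
          rw [mem_coe, mem_sdiff] at hw hw'
          exact hinj w hw.1 w' hw'.1 (add_left_cancel e)
        · intro hh
          rw [mem_image] at hh
          obtain ⟨w, hw, e⟩ := hh
          rw [mem_sdiff] at hw
          exact hne u0 hu0 w hw.1 hw.2 e.symm
      rw [← h7]
      apply card_le_card
      intro x hx
      rw [mem_insert, mem_image] at hx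
      rcases hx with rfl | ⟨w, hw, rfl⟩
      · exact hσT
      · rw [mem_sdiff] at hw
        exact hex u0 hu0 w hw.1 hw.2
    have b2 : v + 1 ≤ T.card := by
      have h7 : (insert σ (U.image fun u => σ - f u + f w0)).card = v + 1 := by
        rw [card_insert_of_notMem, card_image_of_injOn, hUc]
        · intro u hu u' hu' e
          have e1 : σ - f u = σ - f u' := add_right_cancel e
          exact hinj u (hU hu) u' (hU hu') (sub_right_injective e1)
        · intro hh
          rw [mem_image] at hh
          obtain ⟨u, hu, e⟩ := hh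
          exact hne u hu w0 hw0.1 hw0.2 e.symm
      rw [← h7]
      apply card_le_card
      intro x hx
      rw [mem_insert, mem_image] at hx
      rcases hx with rfl | ⟨u, hu, rfl⟩
      · exact hσT
      · exact hex u hu w0 hw0.1 hw0.2
    omega
  · intro v hv
    obtain ⟨U, hU, hUc⟩ := hsub v hv
    refine ⟨∑ i ∈ U, f i, (FU_mem S f _).2 ⟨U, hU, rfl⟩, ?_⟩
    have hσ := FU_sum K f c U (fun i hi => h i (hU hi))
    rwa [hUc] at hσ

end Pool.Agent.SSX
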