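import Pool.Agent.SSX.St

/-!
# SSX, module FW: periodic interval for a subgroup killed by 2 (helper47, adapted from SSF/FV of helper81)

Statement of helper86, `SSX.St_FW`.
-/

set_option autoImplicit false

noncomputable section

open Finset Pool.Agent.Helper64.Rho Pool.Agent.SDG Pool.Agent.MDR Pool.Agent.SSC Pool.Agent.SSE Pool.Agent.SSF
open scoped Classical Pointwise

namespace Pool.Agent.SSX

private theorem FW_inj {G ι : Type} [AddCommGroup G] {u : Finset ι} {f : ι → G} (h : AS u f)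
    {a b : ι} (ha : a ∈ u) (hb : b ∈ u) (hab : a ≠ b) : f a ≠ f b := by
  intro he
  have h1 := h.2 (f a)
  have h2 : ({a, b} : Finset ι) ⊆ u.filter fun i => f i = f a ∨ f i = - f a := by
    intro i hi
    simp only [mem_insert, mem_singleton] at hi
    rw [mem_filter]
    rcases hi with rfl | rfl
    · exact ⟨ha, Or.inl rfl⟩
    · exact ⟨hb, Or.inl he.symm⟩
  have h3 := (card_le_card h2).trans h1
  rw [card_pair hab] at h3
  omega

private theorem FW_sum {ι : Type} (u : Finset ι) (lv : ι → ℕ) (n : ℕ) (hn : 3 ≤ n) :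
    ∑ j ∈ u.filter (fun j => lv j < n), lv j =
      (u.filter fun i => lv i = 1).card + 2 * (u.filter fun i => lv i = 2).card +
        ∑ j ∈ (u.filter fun i => 3 ≤ lv i).filter (fun j => lv j < n), lv j := by
  rw [card_filter, card_filter, mul_sum, filter_filter, sum_filter, sum_filter,
    ← sum_add_distrib, ← sum_add_distrib]
  refine sum_congr rfl fun j _ => ?_
  split_ifs <;> omega

private theorem FW_sum' {ι : Type} (u : Finset ι) (lv : ι → ℕ) :
    ∑ j ∈ u, lv j = (u.filter fun i => lv i = 1).card + 2 * (u.filter fun i => lv i = 2).card +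
        ∑ j ∈ (u.filter fun i => 3 ≤ lv i), lv j := by
  rw [card_filter, card_filter, mul_sum, sum_filter, ← sum_add_distrib, ← sum_add_distrib]
  refine sum_congr rfl fun j _ => ?_
  split_ifs <;> omega

private theorem FW_add {G ι : Type} [AddCommGroup G] (f : ι → G) (A B : Finset ι)
    (hAB : Disjoint A B) (x y : G) (hx : x ∈ FS A f) (hy : y ∈ FS B f) :
    x + y ∈ FS (A ∪ B) f := by
  obtain ⟨T, hT, rfl⟩ := mem_FS.1 hx
  obtain ⟨T', hT', rfl⟩ := mem_FS.1 hy
  refine mem_FS.2 ⟨T ∪ T', union_subset_union hT hT', ?_⟩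
  rw [sum_union (disjoint_of_subset_left hT (disjoint_of_subset_right hT' hAB))]

/-- a full level and a nonempty level -/
private theorem FW_lev {G ι : Type} [AddCommGroup G] (f : ι → G) (K : AddSubgroup G) (d : G)
    (A B : Finset ι) (hAB : Disjoint A B) (a b v : ℕ) (hv : v = a + b)
    (hA : ∀ k ∈ K, a • d + k ∈ FS A f) (hB : ∃ y ∈ FS B f, y - b • d ∈ K) :
    ∀ k ∈ K, v • d + k ∈ FS (A ∪ B) f := by
  intro k hk
  obtain ⟨y, hy, hyK⟩ := hB
  have h1 := FW_add f A B hAB _ _ (hA _ (K.sub_mem hk hyK)) hy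
  have h2 : a • d + (k - (y - b • d)) + y = v • d + k := by
    rw [hv, add_nsmul]
    abel
  rwa [h2] at h1

/-- the levels -/
private theorem FW_num (k v : ℕ) (hk : 4 ≤ k) (h2 : k % 2 = 0) (hv1 : 1 ≤ v) (hv2 : v < 3 * k) :
    ∃ i j : ℕ, v = i + 2 * j ∧ i ≤ k ∧ j ≤ k ∧ (i % 2 = 1 ∨ j % 2 = 1) := by
  by_cases hv : v % 2 = 1
  · by_cases hw : v / 2 ≤ k
    · exact ⟨1, v / 2, by omega, by omega, by omega, Or.inl (by omega)⟩
    · exact ⟨v - 2 * k, k, by omega, by omega, by omega, Or.inl (by omega)⟩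
  · by_cases hw : v / 2 ≤ k - 1
    · by_cases hw2 : (v / 2) % 2 = 1
      · exact ⟨0, v / 2, by omega, by omega, by omega, Or.inr (by omega)⟩
      · exact ⟨2, v / 2 - 1, by omega, by omega, by omega, Or.inr (by omega)⟩
    · exact ⟨v - 2 * k + 2, k - 1, by omega, by omega, by omega, Or.inr (by omega)⟩

/-- a nontrivial group killed by 2 has even order -/
private theorem FW_even {G : Type} [AddCommGroup G] (K : AddSubgroup G) (h2 : ∀ x ∈ K, x + x = 0) (hK : 4 ≤ Nat.card K) :
    Nat.card K % 2 = 0 := by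
  have hfin : Finite K := Nat.finite_of_card_ne_zero (by omega)
  have hnt : Nontrivial K := by
    rw [← Finite.one_lt_card_iff_nontrivial]
    omega
  obtain ⟨x, hx⟩ := exists_ne (0 : K)
  have h1 : 2 • x = 0 := by
    rw [two_nsmul]
    exact Subtype.ext (h2 x.1 x.2)
  have h3 : addOrderOf x = 2 := by
    have h4 := addOrderOf_dvd_of_nsmul_eq_zero h1
    have h5 : addOrderOf x ≠ 1 := fun h => hx (AddMonoid.addOrderOf_eq_one_iff.mp h)
    rcases (Nat.dvd_prime Nat.prime_two).mp h4 with h6 | h6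
    · exact absurd h6 h5
    · exact h6
  have h4 : addOrderOf x ∣ Nat.card K := addOrderOf_dvd_natCard x
  rw [h3] at h4
  omega

theorem thm_FW : SSC.St_Et → St_FU → St_FW := by
  intro hEt hFU G ι _ _ u f K d lv hK2 hK hAS hlv hc1 hc2 hl
  set Z := u.filter fun i => lv i = 1 with hZ
  set Y := u.filter fun i => lv i = 2 with hY
  have hZu : Z ⊆ u := filter_subset _ _
  have hYu : Y ⊆ u := filter_subset _ _
  have hinj : ∀ i ∈ u, ∀ j ∈ u, f i = f j → i = j := by
    intro i hi j hj hij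
    by_contra h
    exact FW_inj hAS hi hj h hij
  have hZY : Disjoint Z Y := by
    rw [disjoint_left]
    intro i h1 h2
    have := (mem_filter.1 h1).2
    have := (mem_filter.1 h2).2
    omega
  obtain ⟨zo, -, zN⟩ := hFU G ι Z f K d hK2
    (fun i hi => by
      have h1 := hlv i (hZu hi)
      rwa [(mem_filter.1 hi).2, one_smul] at h1) hc1
    (fun i hi j hj => hinj i (hZu hi) j (hZu hj))
  obtain ⟨yo, -, yN⟩ := hFU G ι Y f K ((2 : ℕ) • d) hK2
    (fun i hi => by
      have h1 := hlv i (hYu hi)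
      rwa [(mem_filter.1 hi).2] at h1) hc2
    (fun i hi j hj => hinj i (hYu hi) j (hYu hj))
  have yo' : ∀ j : ℕ, j % 2 = 1 → j ≤ Nat.card K → ∀ k ∈ K, (2 * j) • d + k ∈ FS Y f := by
    intro j hj1 hj2 k hk
    have h1 := yo j hj1 hj2 k hk
    rwa [← mul_nsmul] at h1
  have yN' : ∀ j : ℕ, j ≤ Nat.card K → ∃ x ∈ FS Y f, x - (2 * j) • d ∈ K := by
    intro j hj
    obtain ⟨x, hx, h1⟩ := yN j hj
    refine ⟨x, hx, ?_⟩
    rwa [← mul_nsmul] at h1
  have hper : Per (FS (Z ∪ Y) f) K d (3 * Nat.card K) := by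
    intro v hv1 hv2
    have hYZ : Disjoint Y Z := hZY.symm
    have hcomm : Z ∪ Y = Y ∪ Z := union_comm _ _
    obtain ⟨i, j, hv, hi, hj, hij⟩ := FW_num (Nat.card K) v hK (FW_even K hK2 hK) hv1 (by omega)
    rcases hij with h | h
    · exact FW_lev f K d Z Y hZY i (2 * j) v hv (zo i h hi) (yN' j hj)
    · rw [hcomm]
      exact FW_lev f K d Y Z hYZ (2 * j) i v (by omega) (yo' j h hj) (zN i hi)
  have h1 := hEt G ι (Z ∪ Y) (u.filter fun i => 3 ≤ lv i) f K d lv (3 * Nat.card K)
    (by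
      rw [disjoint_left]
      intro i h1 h2
      rw [mem_union] at h1
      have h3 := (mem_filter.1 h2).2
      rcases h1 with h1 | h1
      · have := (mem_filter.1 h1).2
        omega
      · have := (mem_filter.1 h1).2
        omega)
    (fun i hi => hlv i (mem_filter.1 hi).1) hper
    (fun i hi => by
      obtain ⟨h1, h2⟩ := mem_filter.1 hi
      refine ⟨by omega, ?_⟩
      have h3 := hl i h1 h2
      rw [FW_sum u lv (lv i) h2, hc1, hc2] at h3
      omega)
  rw [FW_sum' u lv, hc1, hc2]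
  have e3 : Nat.card K + 2 * Nat.card K = 3 * Nat.card K := by ring
  rw [e3]
  refine fun v hv1 hv2 k hk => FS_mono ?_ f (h1 v hv1 hv2 k hk)
  exact union_subset (union_subset hZu hYu) (filter_subset _ _)

end Pool.Agent.SSX
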