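import Pool.Agent.SSX.St

/-!
# SSX, FlF: full slices (after SSF, FlF of helper30)
-/

set_option autoImplicit false

noncomputable section

open Finset Pool.Agent.Helper64.Rho Pool.Agent.SDG Pool.Agent.MDR Pool.Agent.SSC Pool.Agent.SSE Pool.Agent.SSF
open scoped Classical Pointwise

namespace Pool.Agent.SSX

private theorem FlF_inj {G ι : Type} [AddCommGroup G] {s : Finset ι} {f : ι → G} (h : AS s f)
    {i j : ι} (hi : i ∈ s) (hj : j ∈ s) (hij : f i = f j) : i = j := by
  have h1 := h.2 (f j)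
  rw [card_le_one] at h1
  exact h1 i (mem_filter.2 ⟨hi, Or.inl hij⟩) j (mem_filter.2 ⟨hj, Or.inl rfl⟩)

/-- elements of `ks k (Z.image f)` are sums over `k` members of `Z` -/
private theorem FlF_ks {G ι : Type} [AddCommGroup G] {Z : Finset ι} {f : ι → G}
    (hinj : ∀ i ∈ Z, ∀ j ∈ Z, f i = f j → i = j) {k : ℕ} {w : G} (hw : w ∈ ks k (Z.image f)) :
    ∃ R ⊆ Z, R.card = k ∧ ∑ i ∈ R, f i = w := by
  unfold ks at hw
  obtain ⟨U, hU, rfl⟩ := mem_image.1 hw
  obtain ⟨hU1, hU2⟩ := mem_powersetCard.1 hU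
  obtain ⟨R, hR, hRU⟩ : ∃ R ⊆ Z, R.image f = U := by
    refine ⟨Z.filter fun i => f i ∈ U, filter_subset _ _, ?_⟩
    ext y
    rw [mem_image]
    constructor
    · rintro ⟨i, hi, rfl⟩
      exact (mem_filter.1 hi).2
    · intro hy
      obtain ⟨i, hi, rfl⟩ := mem_image.1 (hU1 hy)
      exact ⟨i, mem_filter.2 ⟨hi, hy⟩, rfl⟩
  have hinj' : Set.InjOn f (R : Set ι) := fun i hi j hj hij => hinj i (hR hi) j (hR hj) hij
  refine ⟨R, hR, ?_, ?_⟩
  · rw [← hU2, ← hRU, card_image_of_injOn hinj']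
  · rw [← hRU, sum_image hinj']

private theorem FlF_sum {G ι : Type} [AddCommGroup G] {K : AddSubgroup G} {c : G} {f : ι → G}
    (R : Finset ι) (h : ∀ i ∈ R, f i - c ∈ K) : ∑ i ∈ R, f i - R.card • c ∈ K := by
  have h1 : ∑ i ∈ R, f i - R.card • c = ∑ i ∈ R, (f i - c) := by
    rw [sum_sub_distrib, sum_const]
  rw [h1]
  exact K.sum_mem h

/-- the elements `0`, `± f i` of `K` are different -/
private theorem FlF_ins {G ι : Type} [AddCommGroup G] [Finite G] {u : Finset ι} {f : ι → G} (K : AddSubgroup G)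
    (hAE : AE u f) : 2 * (ins u f K).card + 1 ≤ Nat.card K := by
  have := Fintype.ofFinite G
  have hMc : Nat.card K = (Finset.univ.filter fun x : G => x ∈ K).card := by
    rw [Nat.card_eq_fintype_card, Fintype.card_subtype]
  have hins : ins u f K ⊆ u := filter_subset _ _
  have h1 : ((ins u f K).image f).card = (ins u f K).card :=
    card_image_of_injOn fun i hi j hj h => FlF_inj hAE.1 (hins hi) (hins hj) h
  have h2 : ((ins u f K).image fun i => - f i).card = (ins u f K).card :=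
    card_image_of_injOn fun i hi j hj h => FlF_inj hAE.1 (hins hi) (hins hj) (neg_injective h)
  have hne : ∀ i ∈ ins u f K, ∀ j ∈ ins u f K, f i ≠ - f j := by
    intro i hi j hj h
    have h3 := hAE.1.2 (f i)
    rw [card_le_one] at h3
    have h4 : i = j := h3 i (mem_filter.2 ⟨hins hi, Or.inl rfl⟩) j (mem_filter.2 ⟨hins hj, Or.inr (by rw [h, neg_neg])⟩)
    subst h4
    apply hAE.2 i (hins hi)
    nth_rewrite 1 [h]
    exact neg_add_cancel _
  have hd : Disjoint ((ins u f K).image f) ((ins u f K).image fun i => - f i) := by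
    rw [disjoint_left]
    intro y hy hy2
    obtain ⟨i, hi, rfl⟩ := mem_image.1 hy
    obtain ⟨j, hj, hj2⟩ := mem_image.1 hy2
    exact hne i hi j hj hj2.symm
  have h0 : (0 : G) ∉ (ins u f K).image f ∪ (ins u f K).image fun i => - f i := by
    intro h
    rcases mem_union.1 h with h | h
    · obtain ⟨i, hi, hi2⟩ := mem_image.1 h
      exact hAE.1.1 i (hins hi) hi2
    · obtain ⟨i, hi, hi2⟩ := mem_image.1 h
      exact hAE.1.1 i (hins hi) (neg_eq_zero.1 hi2)
  have h5 : insert (0 : G) ((ins u f K).image f ∪ (ins u f K).image fun i => - f i) ⊆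
      Finset.univ.filter fun x : G => x ∈ K := by
    intro y hy
    refine mem_filter.2 ⟨mem_univ _, ?_⟩
    rcases mem_insert.1 hy with h | h
    · rw [h]
      exact K.zero_mem
    · rcases mem_union.1 h with h | h
      · obtain ⟨i, hi, rfl⟩ := mem_image.1 h
        exact (mem_filter.1 hi).2
      · obtain ⟨i, hi, rfl⟩ := mem_image.1 h
        exact K.neg_mem (mem_filter.1 hi).2
  have h6 := card_le_card h5
  rw [card_insert_of_notMem h0, card_union_of_disjoint hd, h1, h2, ← hMc] at h6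
  omega

/-- the exceptional case of KSF does not occur -/
private theorem FlF_card {G ι : Type} [AddCommGroup G] [Finite G] (hKS : SSF.St_KSF) (u Z : Finset ι) (f : ι → G)
    (K : AddSubgroup G) (c : G) (hK2 : ∃ x ∈ K, x + x ≠ 0) (hAE : AE u f) (hZu : Z ⊆ u) (hZc : ∀ i ∈ Z, f i - c ∈ K)
    (hcard : Nat.card K ≤ Z.card + (ins u f K).card)
    (k : ℕ) (hk1 : 1 ≤ k) (hk2 : k + 1 ≤ Z.card) : Z.card ≤ (ks k (Z.image f)).card := by
  have hinj : ∀ i ∈ Z, ∀ j ∈ Z, f i = f j → i = j := fun i hi j hj h =>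
    FlF_inj hAE.1 (hZu hi) (hZu hj) h
  have hA : (Z.image f).card = Z.card := card_image_of_injOn fun i hi j hj h => hinj i hi j hj h
  rcases hKS G (Z.image f) k hk1 (by rw [hA]; exact hk2) with hW | ⟨a0, L, hL2, hAL⟩
  · rw [hA] at hW
    exact hW
  exfalso
  have ha0 : a0 ∈ Z.image f := (hAL a0).2 (by rw [sub_self]; exact L.zero_mem)
  have hLK : L ≤ K := by
    intro y hy
    have h1 : a0 + y ∈ Z.image f := (hAL _).2 (by rw [add_sub_cancel_left]; exact hy)
    obtain ⟨i, hi, hi2⟩ := mem_image.1 h1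
    obtain ⟨j, hj, hj2⟩ := mem_image.1 ha0
    have h2 := K.sub_mem (hZc i hi) (hZc j hj)
    rw [hi2, hj2] at h2
    have h3 : a0 + y - c - (a0 - c) = y := by abel
    rwa [h3] at h2
  have hLZ : Nat.card L = Z.card := by
    rw [← hA]
    have := Fintype.ofFinite G
    have hMc : Nat.card L = (Finset.univ.filter fun x : G => x ∈ L).card := by
      rw [Nat.card_eq_fintype_card, Fintype.card_subtype]
    rw [hMc]
    refine card_bij (fun x _ => a0 + x) (fun x hx => ?_) (fun x _ y _ h => add_left_cancel h)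
      (fun y hy => ?_)
    · exact (hAL _).2 (by rw [add_sub_cancel_left]; exact (mem_filter.1 hx).2)
    · exact ⟨y - a0, mem_filter.2 ⟨mem_univ _, (hAL y).1 hy⟩, by abel⟩
  have hdvd : Nat.card L ∣ Nat.card K := AddSubgroup.card_dvd_of_le hLK
  have hne : Nat.card L ≠ Nat.card K := by
    intro h
    obtain ⟨x, hx, hx2⟩ := hK2
    have hLK' : L = K := AddSubgroup.eq_of_le_of_card_ge hLK h.ge
    apply hx2
    apply hL2
    rw [hLK']
    exact hx
  have hpos : 0 < Nat.card K := Nat.card_pos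
  have h2L : 2 * Nat.card L ≤ Nat.card K := by
    obtain ⟨m, hm⟩ := hdvd
    rcases m with _ | _ | m
    · omega
    · omega
    · rw [hm]
      nlinarith [Nat.zero_le (Nat.card L * m)]
  have hi := FlF_ins (f := f) (u := u) K hAE
  omega

/-- Full slices. -/
theorem thm_FlF : SSF.St_KSF → SDG.St_Sm → SDG.St_Ba1 → St_FlF := by
  intro hKS hSm hBa G ι _ _ u Z f K c hK2 hAE hAp hZu hZc hcK hcard x k hk1 hk2 hx
  have hAS : AS u f := hAE.1
  have hinj : ∀ i ∈ Z, ∀ j ∈ Z, f i = f j → i = j := fun i hi j hj h =>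
    FlF_inj hAS (hZu hi) (hZu hj) h
  have hins : ins u f K ⊆ u := filter_subset _ _
  have hY : (ins u f K).card + 1 ≤ (FS (ins u f K) f).card :=
    (hSm G ι (ins u f K) f (fun i hi => hAS.1 i (hins hi)) ((hBa G ι f).2.1 u _ hins hAp)).1
  have hW := FlF_card hKS u Z f K c hK2 hAE hZu hZc hcard k hk1 hk2
  have := Fintype.ofFinite G
  have hMc : Nat.card K = (Finset.univ.filter fun x : G => x ∈ K).card := by
    rw [Nat.card_eq_fintype_card, Fintype.card_subtype]
  have hne : (((ks k (Z.image f)).image fun w => x - w) ∩ FS (ins u f K) f).Nonempty := by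
    apply Finset.inter_nonempty_of_card_lt_card_add_card
      (s := Finset.univ.filter fun x : G => x ∈ K)
    · intro y hy
      obtain ⟨w, hw, rfl⟩ := mem_image.1 hy
      obtain ⟨R, hR, hRk, rfl⟩ := FlF_ks hinj hw
      refine mem_filter.2 ⟨mem_univ _, ?_⟩
      have h1 := FlF_sum R fun i hi => hZc i (hR hi)
      rw [hRk] at h1
      have h2 : x - ∑ i ∈ R, f i = (x - k • c) - (∑ i ∈ R, f i - k • c) := by abel
      rw [h2]
      exact K.sub_mem hx h1
    · intro y hy
      exact mem_filter.2 ⟨mem_univ _, FS_subset_of_mem (fun i hi => (mem_filter.1 hi).2) hy⟩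
    · rw [card_image_of_injective _ sub_right_injective, ← hMc]
      omega
  obtain ⟨y, hy⟩ := hne
  rw [mem_inter] at hy
  obtain ⟨w, hw, hwy⟩ := mem_image.1 hy.1
  obtain ⟨R, hR, -, hRw⟩ := FlF_ks hinj hw
  have hdis : Disjoint Z (ins u f K) := by
    rw [disjoint_left]
    intro i hi hi2
    apply hcK
    have h1 := K.sub_mem (mem_filter.1 hi2).2 (hZc i hi)
    rwa [sub_sub_cancel] at h1
  rw [mem_FS_union hdis]
  refine ⟨w, mem_FS.2 ⟨R, hR, hRw⟩, y, hy.2, ?_⟩
  rw [← hwy]
  abel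

end Pool.Agent.SSX
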