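import Mathlib
import Pool.Agent.SSX.St

/-!
# SSX (copied from Pool/Agent/SSF/GrF.lean), module GrF (MP_ec93d3_co): the growth alternatives for a family
-/

set_option autoImplicit false

noncomputable section

open Finset Pool.Agent.Helper64.Rho Pool.Agent.SDG Pool.Agent.MDR Pool.Agent.SSC Pool.Agent.SSE Pool.Agent.SSF
open scoped Classical Pointwise

namespace Pool.Agent.SSX

private lemma GrF_four {G : Type} [AddCommGroup G] [Finite G] (K : AddSubgroup G)
    (h : Nat.card K = 4) : IsAddCyclic K ∨ ∀ x ∈ K, x + x = 0 := by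
  by_cases hx : ∀ x ∈ K, x + x = 0
  · exact Or.inr hx
  · left
    push Not at hx
    obtain ⟨x, hxK, hx2⟩ := hx
    have h1 : addOrderOf (⟨x, hxK⟩ : K) ∣ 4 := by
      rw [← h]
      exact addOrderOf_dvd_natCard _
    have h2 : ¬ addOrderOf (⟨x, hxK⟩ : K) ∣ 2 := by
      intro h2
      have h3 := addOrderOf_dvd_iff_nsmul_eq_zero.1 h2
      apply hx2
      have h4 := congrArg Subtype.val h3
      rw [two_nsmul] at h4
      exact h4
    have h3 : addOrderOf (⟨x, hxK⟩ : K) = 4 := by
      have h4 : addOrderOf (⟨x, hxK⟩ : K) ≤ 4 := Nat.le_of_dvd (by norm_num) h1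
      interval_cases h5 : addOrderOf (⟨x, hxK⟩ : K)
      · simp at h1
      · exact absurd (one_dvd 2) h2
      · exact absurd (dvd_refl 2) h2
      · omega
      · rfl
    exact isAddCyclic_of_addOrderOf_eq_card (⟨x, hxK⟩ : K) (h3.trans h.symm)

theorem thm_GrF : KAU.St_GRA → SSF.St_Kh2F → SSF.St_Kh3F → SSF.St_Kh4F → SSF.St_KhV → St_KhW → St_GrF := by
  intro hGRA hKh2 hKh3 hKh4 hKhV hKhW G ι _ _ u f _ hcyc hAE hap hgen hl hDC hN hor
  rcases hGRA G ι u f hcyc hAE hgen hl hDC hN with ⟨K, hNF, hK4, hAPK⟩ | hB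
  · have hH : HKF u f K := ⟨hAE, hap, hl, hNF.2.2, hAPK, hor⟩
    have hK2 : 2 ≤ Nat.card K := by
      by_contra hc
      have h1 : 0 < Nat.card K := Nat.card_pos
      have h2 : Nat.card K = 1 := by omega
      exact hNF.1 (AddSubgroup.card_eq_one.1 h2)
    by_cases h5 : 5 ≤ Nat.card K
    · have hK2' : ∀ x ∈ K, x + x = 0 := by
        rcases hK4 with h6 | h6
        · omega
        · exact h6
      exact Or.inr (Or.inr (Or.inl (hKhW G ι u f K hH hK2' h5)))
    have hcases : Nat.card K = 2 ∨ Nat.card K = 3 ∨ Nat.card K = 4 := by omega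
    rcases hcases with h | h | h
    · exact Or.inr (Or.inr (Or.inl (hKh2 G ι u f K hH h)))
    · rcases hKh3 G ι u f K hH h with h1 | h1
      · exact Or.inl h1
      · exact Or.inr (Or.inr (Or.inl h1))
    · rcases GrF_four K h with hc | hc
      · rcases hKh4 G ι u f K hH hc h with h1 | h1
        · exact Or.inr (Or.inl ⟨K, h1⟩)
        · exact Or.inr (Or.inr (Or.inl h1))
      · exact Or.inr (Or.inr (Or.inl (hKhV G ι u f K hH hc h)))
  · exact Or.inr (Or.inr (Or.inr hB))

end Pool.Agent.SSX
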