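import Pool.Agent.SSX.St

/-!
# SSX, HoF: the halves (adapted from the end of Pool/Agent/SSF/HoF.lean)
-/

set_option autoImplicit false

noncomputable section

open Finset Pool.Agent.Helper64.Rho Pool.Agent.SDG Pool.Agent.MDR Pool.Agent.SSC Pool.Agent.SSE Pool.Agent.SSF
open scoped Classical Pointwise

namespace Pool.Agent.SSX

/-- every proper subgroup is contained in a subgroup of prime index -/
private lemma HoF_prime {G : Type} [AddCommGroup G] [Finite G] (M : AddSubgroup G) (hM : M ≠ ⊤) :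
    ∃ M' : AddSubgroup G, M ≤ M' ∧ M'.index.Prime := by
  obtain ⟨M', hco, hle⟩ := (eq_top_or_exists_le_coatom M).resolve_left hM
  refine ⟨M', hle, ?_⟩
  have hidx : M'.index ≠ 1 := fun h => hco.1 (AddSubgroup.index_eq_one.1 h)
  have hp : M'.index.minFac.Prime := Nat.minFac_prime hidx
  have : Fact M'.index.minFac.Prime := ⟨hp⟩
  have hdvd : M'.index.minFac ∣ Nat.card (G ⧸ M') := Nat.minFac_dvd _
  obtain ⟨q, hq⟩ := exists_prime_addOrderOf_dvd_card' M'.index.minFac hdvd
  have h1 : M' ≤ (AddSubgroup.zmultiples q).comap (QuotientAddGroup.mk' M') := by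
    intro x hx
    rw [AddSubgroup.mem_comap, QuotientAddGroup.mk'_apply, (QuotientAddGroup.eq_zero_iff x).2 hx]
    exact zero_mem _
  have h2 : (AddSubgroup.zmultiples q).comap (QuotientAddGroup.mk' M') = ⊤ := by
    rcases hco.le_iff.1 h1 with h | h
    · exact h
    · exfalso
      obtain ⟨g, rfl⟩ := QuotientAddGroup.mk_surjective q
      have h3 : g ∈ M' := by
        rw [← h, AddSubgroup.mem_comap, QuotientAddGroup.mk'_apply]
        exact AddSubgroup.mem_zmultiples _
      rw [(QuotientAddGroup.eq_zero_iff g).2 h3, addOrderOf_zero] at hq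
      exact hp.one_lt.ne hq
  have h3 : AddSubgroup.zmultiples q = ⊤ := by
    rw [eq_top_iff]
    intro x _
    obtain ⟨g, rfl⟩ := QuotientAddGroup.mk_surjective x
    have h4 : g ∈ (AddSubgroup.zmultiples q).comap (QuotientAddGroup.mk' M') := by
      rw [h2]
      exact AddSubgroup.mem_top g
    exact h4
  have h4 : Nat.card (AddSubgroup.zmultiples q) = addOrderOf q := Nat.card_zmultiples q
  rw [h3, AddSubgroup.card_top, hq] at h4
  have h5 : M'.index = M'.index.minFac := h4
  rw [h5]
  exact hp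

private lemma HoF_split {G ι : Type} [AddCommGroup G] (s : Finset ι) (f : ι → G)
    (M : AddSubgroup G) : (ins s f M).card + (outs s f M).card = s.card :=
  card_filter_add_card_filter_not (s := s) (fun i => f i ∈ M)

private lemma HoF_ins {G ι : Type} [AddCommGroup G] {s s' : Finset ι} (h : s ⊆ s') (f : ι → G)
    (M : AddSubgroup G) : (ins s f M).card ≤ (ins s' f M).card :=
  card_le_card (filter_subset_filter _ h)

private lemma HoF_mono {G ι : Type} [AddCommGroup G] (u : Finset ι) (f : ι → G)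
    {M M' : AddSubgroup G} (hle : M ≤ M') : (outs u f M').card ≤ (outs u f M).card := by
  refine card_le_card fun i hi => ?_
  unfold outs at hi ⊢
  rw [mem_filter] at hi ⊢
  exact ⟨hi.1, fun h => hi.2 (hle h)⟩

private lemma HoF_AS {G ι : Type} [AddCommGroup G] {s s' : Finset ι} {f : ι → G} (h : s' ⊆ s)
    (hs : AS s f) : AS s' f :=
  ⟨fun i hi => hs.1 i (h hi), fun x => (card_le_card (filter_subset_filter _ h)).trans (hs.2 x)⟩

/-- overgroups when the quotient is cyclic -/
private lemma HoF_over {G : Type} [AddCommGroup G] [Finite G] (M : AddSubgroup G) (x : G)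
    (hx : ∀ g : G, ∃ k : ℕ, g - k • x ∈ M) (d : ℕ) (hd : d ∣ M.index) :
    ∃ M' : AddSubgroup G, M ≤ M' ∧ M'.index = d := by
  have hn : M.index ≠ 0 := AddSubgroup.index_ne_zero_of_finite
  have hd0 : d ≠ 0 := fun h => hn (by rw [h] at hd; exact Nat.eq_zero_of_zero_dvd hd)
  set q : G ⧸ M := (x : G ⧸ M) with hq
  have htop : AddSubgroup.zmultiples q = ⊤ := by
    rw [eq_top_iff]
    intro z _
    obtain ⟨g, rfl⟩ := QuotientAddGroup.mk_surjective z
    obtain ⟨k, hk⟩ := hx g
    refine ⟨(k : ℤ), ?_⟩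
    show (k : ℤ) • q = _
    rw [natCast_zsmul, hq, ← QuotientAddGroup.mk_nsmul, QuotientAddGroup.eq]
    have e1 : -(k • x) + g = g - k • x := by abel
    rw [e1]
    exact hk
  have hord : addOrderOf q = M.index := by
    rw [← Nat.card_zmultiples q, htop, AddSubgroup.card_top]
    rfl
  have hord2 : addOrderOf (d • q) = M.index / d := by
    rw [addOrderOf_nsmul_of_dvd hd0 (by rw [hord]; exact hd), hord]
  refine ⟨(AddSubgroup.zmultiples (d • q)).comap (QuotientAddGroup.mk' M), ?_, ?_⟩
  · intro g hg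
    rw [AddSubgroup.mem_comap, QuotientAddGroup.mk'_apply, (QuotientAddGroup.eq_zero_iff g).2 hg]
    exact zero_mem _
  · rw [AddSubgroup.index_comap_of_surjective _ (QuotientAddGroup.mk'_surjective M)]
    have h1 := AddSubgroup.card_mul_index (AddSubgroup.zmultiples (d • q))
    rw [Nat.card_zmultiples, hord2] at h1
    have h2 : Nat.card (G ⧸ M) = M.index := rfl
    rw [h2] at h1
    obtain ⟨e, he⟩ := hd
    rw [he, Nat.mul_div_cancel_left e (Nat.pos_of_ne_zero hd0)] at h1
    have he0 : 0 < e := by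
      rcases Nat.eq_zero_or_pos e with h | h
      · rw [h, mul_zero] at he
        exact absurd he hn
      · exact h
    rw [mul_comm d e] at h1
    exact Nat.eq_of_mul_eq_mul_left he0 h1

/-- claim 4 -/
private lemma HoF_sep {G ι : Type} [AddCommGroup G] [Finite G] (hI4 : St_I4F) (t : ℕ)
    (s : Finset ι) (f : ι → G) (hC : CtxF t s f) (ht : 9 ≤ t) (u : Finset ι) (hus : u ⊆ s)
    (hu : AS u f) (hcu : t / 2 ≤ u.card)
    (h1 : ∀ M : AddSubgroup G, M ≠ ⊤ → 1 ≤ (outs u f M).card)
    (h2 : ∀ M : AddSubgroup G, M.index.Prime → M.index ≠ 2 → 2 ≤ (outs u f M).card) : Sep u f := by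
  intro M hM hM2
  by_contra hcon
  have h3 : (outs u f M).card = 1 := by
    have := h1 M hM
    omega
  obtain ⟨i0, hi0⟩ := card_eq_one.1 h3
  have hi0' : i0 ∈ outs u f M := by
    rw [hi0]
    exact mem_singleton_self _
  have hiu : i0 ∈ u := mem_of_mem_filter i0 hi0'
  have hin : ∀ i ∈ u, i ≠ i0 → f i ∈ M := by
    intro i hi hne
    by_contra hiM
    have h4 : i ∈ outs u f M := mem_filter.2 ⟨hi, hiM⟩
    rw [hi0, mem_singleton] at h4
    exact hne h4
  -- the quotient is generated by `f i0`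
  have hgen : ∀ g : G, ∃ k : ℕ, g - k • f i0 ∈ M := by
    have htop : M ⊔ AddSubgroup.zmultiples (f i0) = ⊤ := by
      by_contra hne
      have h4 := h1 _ hne
      obtain ⟨j, hj⟩ := card_pos.1 (by omega : 0 < (outs u f (M ⊔ AddSubgroup.zmultiples (f i0))).card)
      obtain ⟨hj1, hj2⟩ := mem_filter.1 hj
      by_cases hji : j = i0
      · apply hj2
        rw [hji]
        exact AddSubgroup.mem_sup_right (AddSubgroup.mem_zmultiples _)
      · exact hj2 (AddSubgroup.mem_sup_left (hin j hj1 hji))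
    intro g
    have hg : g ∈ M ⊔ AddSubgroup.zmultiples (f i0) := by
      rw [htop]
      exact AddSubgroup.mem_top g
    obtain ⟨m, hm, z, hz, rfl⟩ := AddSubgroup.mem_sup.1 hg
    have hz' : z ∈ AddSubmonoid.multiples (f i0) := mem_multiples_iff_mem_zmultiples.2 hz
    obtain ⟨k, hk⟩ := hz'
    refine ⟨k, ?_⟩
    have hk' : k • f i0 = z := hk
    rw [hk', add_sub_cancel_right]
    exact hm
  have hn : M.index ≠ 0 := AddSubgroup.index_ne_zero_of_finite
  have hn1 : M.index ≠ 1 := fun h => hM (AddSubgroup.index_eq_one.1 h)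
  have hp2 : ∀ p : ℕ, p.Prime → p ∣ M.index → p = 2 := by
    intro p hp hpd
    by_contra hne
    obtain ⟨M', hle, hidx⟩ := HoF_over M (f i0) hgen p hpd
    have h5 := h2 M' (by rw [hidx]; exact hp) (by rw [hidx]; exact hne)
    have h6 := HoF_mono u f hle
    omega
  have h4 : 4 ∣ M.index := by
    obtain ⟨p, hp, hpd⟩ := Nat.exists_prime_and_dvd hn1
    obtain rfl := hp2 p hp hpd
    obtain ⟨m, hm⟩ := hpd
    have hm1 : m ≠ 1 := by
      intro h
      rw [h] at hm
      exact hM2 hm
    obtain ⟨q, hq, hqd⟩ := Nat.exists_prime_and_dvd hm1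
    obtain rfl := hp2 q hq (hm ▸ hqd.mul_left 2)
    obtain ⟨k, hk⟩ := hqd
    exact ⟨k, by rw [hm, hk]; ring⟩
  obtain ⟨M4, hle, hidx⟩ := HoF_over M (f i0) hgen 4 h4
  have h5 := hI4 G ι t s (u.erase i0) f M4 (f i0) hC ht hidx
    (fun g => (hgen g).imp fun k hk => hle hk)
    (fun i hi => mem_filter.2 ⟨hus (mem_of_mem_erase hi),
      hle (hin i (mem_of_mem_erase hi) (ne_of_mem_erase hi))⟩)
    (HoF_AS (erase_subset _ _) hu)
  rw [card_erase_of_mem hiu] at h5
  omega

theorem thm_HoF : SDG.St_Ba1 → St_IxF → St_I4F → St_P2X → St_HoF := by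
  intro _ hIx hI4 hP2 G ι _ _ t s f hC ht
  obtain ⟨p, r, hS, hpc, h2x, h3x⟩ := hP2 G ι t s f hC ht
  obtain ⟨hd, hun, hA1, hA2, -, -⟩ := hS
  have hcard : s.card = t := hC.2.2.2.2.1
  have hcs : p.card + r.card = t := by
    rw [← card_union_of_disjoint hd, hun, hcard]
  have hrc : r.card = t / 2 := by omega
  have hsub1 : p ⊆ s := by
    rw [← hun]
    exact subset_union_left
  have hsub2 : r ⊆ s := by
    rw [← hun]
    exact subset_union_right
  -- odd prime index
  have cl3 : ∀ M : AddSubgroup G, M.index.Prime → M.index ≠ 2 →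
      2 ≤ (outs p f M).card ∧ 2 ≤ (outs r f M).card := by
    intro M hp hM2
    by_cases h3 : M.index = 3
    · exact h3x M h3
    · have h5 : 5 ≤ M.index := by
        have h2' := hp.two_le
        have h4 : M.index ≠ 4 := by
          intro h
          rw [h] at hp
          exact absurd hp (by norm_num)
        omega
      have h6 := (hIx G ι t s f M hC ht hp).1 h5
      have a1 := HoF_split p f M
      have a2 := HoF_split r f M
      have b1 := HoF_ins hsub1 f M
      have b2 := HoF_ins hsub2 f M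
      constructor <;> omega
  -- all proper subgroups
  have cl4 : ∀ M : AddSubgroup G, M ≠ ⊤ → 1 ≤ (outs p f M).card ∧ 1 ≤ (outs r f M).card := by
    intro M hM
    obtain ⟨M', hle, hp⟩ := HoF_prime M hM
    have m1 := HoF_mono p f hle
    have m2 := HoF_mono r f hle
    by_cases h2 : M'.index = 2
    · obtain ⟨⟨i, hi, hiM⟩, j, hj, hjM⟩ := h2x M' h2
      have e1 : 0 < (outs p f M').card := card_pos.2 ⟨i, mem_filter.2 ⟨hi, hiM⟩⟩
      have e2 : 0 < (outs r f M').card := card_pos.2 ⟨j, mem_filter.2 ⟨hj, hjM⟩⟩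
      exact ⟨by omega, by omega⟩
    · obtain ⟨e1, e2⟩ := cl3 M' hp h2
      exact ⟨by omega, by omega⟩
  refine ⟨p, r, hd, hun, hA1, hA2, hpc, hrc, cl4, ?_, ?_⟩
  · exact HoF_sep hI4 t s f hC ht p hsub1 hA1 (by omega) (fun M hM => (cl4 M hM).1)
      (fun M hp h2 => (cl3 M hp h2).1)
  · exact HoF_sep hI4 t s f hC ht r hsub2 hA2 (by omega) (fun M hM => (cl4 M hM).2)
      (fun M hp h2 => (cl3 M hp h2).2)

end Pool.Agent.SSX
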