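import Pool.Agent.SSX.St
import Pool.Agent.SDG.P1

/-!
# SSX (copied from Pool/Agent/SSF/I4F.lean), I4F: antisymmetric families in a subgroup with cyclic quotient of order 4
-/

set_option autoImplicit false

noncomputable section

open Finset Pool.Agent.Helper64.Rho Pool.Agent.SDG Pool.Agent.MDR Pool.Agent.SSC Pool.Agent.SSE Pool.Agent.SSF
open scoped Classical Pointwise

namespace Pool.Agent.SSX

/-- the quotient map to `ZMod 4` -/
private theorem I4F_phi {G : Type} [AddCommGroup G] [Finite G] (M : AddSubgroup G) (g : G)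
    (h4 : M.index = 4) (hg : ∀ x : G, ∃ k : ℕ, x - k • g ∈ M) :
    ∃ φ : G →+ ZMod 4, Function.Surjective φ ∧ ∀ x, φ x = 0 ↔ x ∈ M := by
  have hc : IsAddCyclic (G ⧸ M) := by
    refine ⟨⟨(QuotientAddGroup.mk g : G ⧸ M), ?_⟩⟩
    intro y
    obtain ⟨x, rfl⟩ := QuotientAddGroup.mk_surjective y
    obtain ⟨k, hk⟩ := hg x
    refine ⟨(k : ℤ), ?_⟩
    show (k : ℤ) • (QuotientAddGroup.mk g : G ⧸ M) = (QuotientAddGroup.mk x : G ⧸ M)
    rw [natCast_zsmul, ← QuotientAddGroup.mk_nsmul, QuotientAddGroup.eq]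
    have e : -(k • g) + x = x - k • g := by abel
    rw [e]
    exact hk
  have hcard : Nat.card (G ⧸ M) = 4 := by
    rw [← AddSubgroup.index_eq_card, h4]
  obtain ⟨e⟩ : Nonempty (ZMod 4 ≃+ (G ⧸ M)) := by
    have h1 := zmodAddCyclicAddEquiv hc
    rw [hcard] at h1
    exact ⟨h1⟩
  refine ⟨e.symm.toAddMonoidHom.comp (QuotientAddGroup.mk' M), ?_, ?_⟩
  · exact e.symm.surjective.comp (QuotientAddGroup.mk'_surjective M)
  · intro x
    have h1 : (e.symm.toAddMonoidHom.comp (QuotientAddGroup.mk' M)) x =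
      e.symm (QuotientAddGroup.mk x : G ⧸ M) := rfl
    rw [h1, AddEquiv.map_eq_zero_iff, QuotientAddGroup.eq_zero_iff]

/-- one more member gives one more sum -/
private theorem I4F_succ {G ι : Type} [AddCommGroup G] {I : Finset ι} {f : ι → G} {k : ι}
    (hk : k ∉ I) (h0 : f k ≠ 0) (hA : Aper (FS I f)) :
    (FS I f).card + 1 ≤ (FS (insert k I) f).card := by
  by_contra hlt
  have hsub : FS I f ⊆ FS (insert k I) f := FS_mono (subset_insert k I) f
  have heq : FS I f = FS (insert k I) f := eq_of_subset_of_card_le hsub (by omega)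
  apply h0
  apply hA
  intro x hx
  rw [heq]
  obtain ⟨t, ht, rfl⟩ := mem_FS.1 hx
  have hkt : k ∉ t := fun h => hk (ht h)
  refine mem_FS.2 ⟨insert k t, insert_subset_insert k ht, ?_⟩
  rw [sum_insert hkt, add_comm]

/-- many members give many sums -/
private theorem I4F_grow {G ι : Type} [AddCommGroup G] (f : ι → G) (V : Finset ι) (n : ℕ) :
    ∀ W : Finset ι, Disjoint V W → W.card = n → (∀ i ∈ W, f i ≠ 0) → Aper (FS (V ∪ W) f) →
      (∀ A B : Finset ι, A ⊆ B → Aper (FS B f) → Aper (FS A f)) →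
      (FS V f).card + n ≤ (FS (V ∪ W) f).card := by
  induction n with
  | zero =>
    intro W _ hW _ _ _
    rw [card_eq_zero] at hW
    subst hW
    simp
  | succ n ih =>
    intro W hd hW h0 hA hsub
    obtain ⟨k, hk⟩ : W.Nonempty := by
      rw [← card_pos]
      omega
    have hkV : k ∉ V := fun h => (disjoint_left.1 hd) h hk
    have hun : V ∪ W = insert k (V ∪ W.erase k) := by
      rw [← union_insert, insert_erase hk]
    have hk2 : k ∉ V ∪ W.erase k := by
      rw [mem_union, not_or]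
      exact ⟨hkV, notMem_erase k W⟩
    have hA2 : Aper (FS (V ∪ W.erase k) f) := by
      apply hsub _ _ _ hA
      exact union_subset_union_right (erase_subset k W)
    have h1 := ih (W.erase k) (hd.mono_right (erase_subset k W))
      (by rw [card_erase_of_mem hk]; omega) (fun i hi => h0 i (mem_of_mem_erase hi)) hA2 hsub
    have h2 := I4F_succ hk2 (h0 k hk) hA2
    rw [hun]
    omega

/-- the classes of the sums of three members -/
private theorem I4F_cls : ∀ u v w : ZMod 4, u ≠ 0 → u ≠ 2 → v ≠ 0 → w ≠ 0 → ∀ c : ZMod 4,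
    c = 0 ∨ c = u ∨ c = v ∨ c = w ∨ c = u + v ∨ c = u + w ∨ c = v + w ∨ c = u + (v + w) := by
  decide

/-- the sumset of an aperiodic set in `M` with a set which meets all classes and has at least five
elements -/
private theorem I4F_sum {G : Type} [AddCommGroup G] (φ : G →+ ZMod 4) (Y Z : Finset G)
    (hY : ∀ y ∈ Y, φ y = 0) (hYa : Aper Y) (hZ : ∀ c : ZMod 4, ∃ z ∈ Z, φ z = c)
    (hZ5 : 5 ≤ Z.card) : 4 * Y.card + 1 ≤ (Y + Z).card := by
  have hcard : ∀ d : G, (Y.image fun y => y + d).card = Y.card := fun d =>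
    card_image_of_injective _ (add_left_injective d)
  have hsub : ∀ z ∈ Z, (Y.image fun y => y + z) ⊆ (Y + Z).filter fun x => φ x = φ z := by
    intro z hz x hx
    obtain ⟨y, hy, rfl⟩ := mem_image.1 hx
    rw [mem_filter]
    refine ⟨add_mem_add hy hz, ?_⟩
    rw [map_add, hY y hy, zero_add]
  have hge : ∀ c : ZMod 4, Y.card ≤ ((Y + Z).filter fun x => φ x = c).card := by
    intro c
    obtain ⟨z, hz, rfl⟩ := hZ c
    rw [← hcard z]
    exact card_le_card (hsub z hz)
  have htot : (Y + Z).card = ∑ c : ZMod 4, ((Y + Z).filter fun x => φ x = c).card :=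
    card_eq_sum_card_fiberwise (fun x _ => mem_univ _)
  -- two elements of the same class
  obtain ⟨b, hb, b', hb', hne, heq⟩ : ∃ b ∈ Z, ∃ b' ∈ Z, b ≠ b' ∧ φ b = φ b' := by
    apply exists_ne_map_eq_of_card_lt_of_maps_to (t := (univ : Finset (ZMod 4)))
    · rw [card_univ, ZMod.card]
      omega
    · intro x _
      exact mem_univ _
  have hbig : Y.card + 1 ≤ ((Y + Z).filter fun x => φ x = φ b).card := by
    by_contra hcon
    have h1 : (Y.image fun y => y + b) = (Y + Z).filter fun x => φ x = φ b :=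
      eq_of_subset_of_card_le (hsub b hb) (by rw [hcard]; omega)
    have h2 : (Y.image fun y => y + b') = (Y + Z).filter fun x => φ x = φ b' :=
      eq_of_subset_of_card_le (hsub b' hb') (by rw [hcard, ← heq]; omega)
    have h3 : (Y.image fun y => y + b) = (Y.image fun y => y + b') := by
      rw [h1, h2, heq]
    apply hne
    have h4 : b - b' = 0 := by
      apply hYa
      intro y hy
      have h5 : y + b ∈ Y.image fun y => y + b' := by
        rw [← h3]
        exact mem_image_of_mem _ hy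
      obtain ⟨y', hy', h6⟩ := mem_image.1 h5
      have h7 : y + (b - b') = y' := by
        have h8 : y + b = y' + b' := h6.symm
        calc y + (b - b') = (y + b) - b' := by abel
          _ = y' := by rw [h8]; abel
      rw [h7]
      exact hy'
    exact sub_eq_zero.1 h4
  have hlt : ∑ _c : ZMod 4, Y.card < ∑ c : ZMod 4, ((Y + Z).filter fun x => φ x = c).card :=
    sum_lt_sum (fun c _ => hge c) ⟨φ b, mem_univ _, hbig⟩
  rw [sum_const, card_univ, ZMod.card, smul_eq_mul] at hlt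
  omega

/-- the numbers -/
private theorem I4F_num (t a : ℕ) (h9 : 9 ≤ t) (h1 : t / 2 ≤ a + 1) (h2 : a + 4 ≤ t)
    (hcf : ∀ t : ℕ, cf 2 t = 1 + (t + 1) ^ 2 / 4) (y : ℕ) (hy1 : cf 2 a ≤ y) (hy2 : a + 4 ≤ y) :
    cf 2 t ≤ 4 * y + cf 2 (t - a - 3) := by
  rw [hcf] at hy1 ⊢
  rw [hcf]
  by_cases ha : a ≤ 5
  · have ht : t ≤ 13 := by omega
    interval_cases t <;> interval_cases a <;> simp at hy1 hy2 h1 h2 ⊢ <;> omega
  · obtain ⟨n, rfl⟩ : ∃ n, t = a + 4 + n := ⟨t - a - 4, by omega⟩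
    have e : a + 4 + n - a - 3 + 1 = n + 2 := by omega
    rw [e]
    have h3 : 4 * ((a + 1) ^ 2 / 4) + 1 ≥ (a + 1) ^ 2 := by
      have h4 : (a + 1) ^ 2 % 4 ≤ 1 := by
        have h5 : (a + 1) % 4 = 0 ∨ (a + 1) % 4 = 1 ∨ (a + 1) % 4 = 2 ∨ (a + 1) % 4 = 3 := by
          omega
        rcases h5 with h5 | h5 | h5 | h5 <;> simp [Nat.pow_mod, h5]
      omega
    have h6 : 4 * ((n + 2) ^ 2 / 4) + 1 ≥ (n + 2) ^ 2 := by
      have h4 : (n + 2) ^ 2 % 4 ≤ 1 := by
        have h5 : (n + 2) % 4 = 0 ∨ (n + 2) % 4 = 1 ∨ (n + 2) % 4 = 2 ∨ (n + 2) % 4 = 3 := by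
          omega
        rcases h5 with h5 | h5 | h5 | h5 <;> simp [Nat.pow_mod, h5]
      omega
    have h7 : n ≤ a - 1 := by omega
    have h8 : (a + 4 + n + 1) ^ 2 ≤ 4 * (a + 1) ^ 2 + 11 + (n + 2) ^ 2 := by
      have h10 : n + 1 ≤ a := by omega
      nlinarith
    have h9 : (a + 4 + n + 1) ^ 2 / 4 ≤ (4 * (a + 1) ^ 2 + 11 + (n + 2) ^ 2) / 4 :=
      Nat.div_le_div_right h8
    omega

theorem thm_I4F : SDG.St_Nm1 → SDG.St_Ba1 → SDG.St_Kn → SDG.St_Sm → SSE.St_B3E → St_IxF →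
    St_I4F := by
  intro hNm hBa1 hKn hSm hB3 hIx G ι _ _ t s X f M g hCtx ht9 h4 hg hXI hXAS
  have hIxM := hIx G ι t s f
  have hCtx' := hCtx
  obtain ⟨hPF, -, hR2, -, hst, hnz, hcap, hap, hgen, hvio⟩ := hCtx
  obtain ⟨hB1, hBsub, -, -, hB5, -⟩ := hBa1 G ι f
  obtain ⟨φ, hφs, hφ⟩ := I4F_phi M g h4 hg
  by_contra hcon
  obtain ⟨I, hI⟩ : ∃ I, I = ins s f M := ⟨_, rfl⟩
  obtain ⟨O, hO⟩ : ∃ O, O = outs s f M := ⟨_, rfl⟩
  rw [← hI] at hXI
  have hIs : I ⊆ s := hI ▸ filter_subset _ _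
  have hOs : O ⊆ s := hO ▸ filter_subset _ _
  have hIM : ∀ i ∈ I, f i ∈ M := fun i hi => by
    rw [hI] at hi; exact (mem_filter.1 hi).2
  have hOM : ∀ i ∈ O, f i ∉ M := fun i hi => by
    rw [hO] at hi; exact (mem_filter.1 hi).2
  have hIO : Disjoint I O := by
    rw [disjoint_left]
    exact fun i hi hi2 => hOM i hi2 (hIM i hi)
  have hIOs : I ∪ O = s := by
    rw [hI, hO]
    unfold ins outs
    exact filter_union_filter_not_eq _ _
  have hcard : I.card + O.card = t := by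
    rw [← hst, ← hIOs, card_union_of_disjoint hIO]
  -- the subgroup of index 2
  have hM2 : (AddSubgroup.comap φ (AddSubgroup.zmultiples (2 : ZMod 4))).index = 2 := by
    rw [AddSubgroup.index_comap_of_surjective _ hφs]
    have h1 := (AddSubgroup.zmultiples (2 : ZMod 4)).card_mul_index
    rw [Nat.card_zmultiples, addOrderOf_eq_prime (by decide : 2 • (2 : ZMod 4) = 0) (by decide),
      Nat.card_zmod] at h1
    omega
  have hO4 := (hIxM _ hCtx' ht9 (by rw [hM2]; exact Nat.prime_two)).2.2 hM2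
  obtain ⟨x, hx⟩ : (outs s f (AddSubgroup.comap φ (AddSubgroup.zmultiples (2 : ZMod 4)))).Nonempty := by
    rw [← card_pos]
    omega
  have hout2 : ∀ i ∈ outs s f (AddSubgroup.comap φ (AddSubgroup.zmultiples (2 : ZMod 4))),
      i ∈ O ∧ φ (f i) ≠ 0 ∧ φ (f i) ≠ 2 := by
    intro i hi
    obtain ⟨h1, h2⟩ := mem_filter.1 hi
    rw [AddSubgroup.mem_comap] at h2
    have h3 : φ (f i) ≠ 0 := by
      intro h
      apply h2
      rw [h]
      exact AddSubgroup.zero_mem _
    have h4 : φ (f i) ≠ 2 := by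
      intro h
      apply h2
      rw [h]
      exact AddSubgroup.mem_zmultiples _
    refine ⟨?_, h3, h4⟩
    rw [hO]
    exact mem_filter.2 ⟨h1, fun h => h3 ((hφ _).2 h)⟩
  have hOc : 4 ≤ O.card := le_trans hO4 (card_le_card fun i hi => (hout2 i hi).1)
  obtain ⟨hxO, hx0, hx2⟩ := hout2 x hx
  -- two more members
  obtain ⟨R', hR'O, hR'c⟩ := exists_subset_card_eq (show 2 ≤ (O.erase x).card by
    rw [card_erase_of_mem hxO]; omega)
  obtain ⟨y, y', hyy, rfl⟩ := card_eq_two.1 hR'c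
  have hyO : y ∈ O.erase x := hR'O (mem_insert_self _ _)
  have hy'O : y' ∈ O.erase x := hR'O (mem_insert_of_mem (mem_singleton_self _))
  obtain ⟨hyx, hyO⟩ := mem_erase.1 hyO
  obtain ⟨hy'x, hy'O⟩ := mem_erase.1 hy'O
  have hφO : ∀ i ∈ O, φ (f i) ≠ 0 := fun i hi h => hOM i hi ((hφ _).1 h)
  obtain ⟨R, hR⟩ : ∃ R : Finset ι, R = {x, y, y'} := ⟨_, rfl⟩
  have hRc : R.card = 3 := by
    rw [hR, card_eq_three]
    exact ⟨x, y, y', hyx.symm, hy'x.symm, hyy, rfl⟩
  have hRO : R ⊆ O := by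
    rw [hR]
    intro i hi
    simp only [mem_insert, mem_singleton] at hi
    rcases hi with rfl | rfl | rfl
    · exact hxO
    · exact hyO
    · exact hy'O
  have hZ : ∀ c : ZMod 4, ∃ z ∈ FS R f, φ z = c := by
    intro c
    have hmem : ∀ v : Finset ι, v ⊆ R → ∑ i ∈ v, f i ∈ FS R f := fun v hv => mem_FS.2 ⟨v, hv, rfl⟩
    have hxR : x ∈ R := by rw [hR]; simp
    have hyR : y ∈ R := by rw [hR]; simp
    have hy'R : y' ∈ R := by rw [hR]; simp
    rcases I4F_cls (φ (f x)) (φ (f y)) (φ (f y')) hx0 hx2 (hφO y hyO) (hφO y' hy'O) c with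
      h | h | h | h | h | h | h | h
    · exact ⟨_, hmem ∅ (empty_subset _), by rw [h]; simp⟩
    · exact ⟨_, hmem {x} (by simpa using hxR), by rw [h]; simp⟩
    · exact ⟨_, hmem {y} (by simpa using hyR), by rw [h]; simp⟩
    · exact ⟨_, hmem {y'} (by simpa using hy'R), by rw [h]; simp⟩
    · refine ⟨_, hmem {x, y} (by simp [insert_subset_iff, hxR, hyR]), ?_⟩
      rw [h, sum_pair hyx.symm, map_add]
    · refine ⟨_, hmem {x, y'} (by simp [insert_subset_iff, hxR, hy'R]), ?_⟩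
      rw [h, sum_pair hy'x.symm, map_add]
    · refine ⟨_, hmem {y, y'} (by simp [insert_subset_iff, hyR, hy'R]), ?_⟩
      rw [h, sum_pair hyy, map_add]
    · refine ⟨_, hmem {x, y, y'} (by simp [insert_subset_iff, hxR, hyR, hy'R]), ?_⟩
      rw [h, sum_insert (by simp [hyx.symm, hy'x.symm]), sum_pair hyy, map_add, map_add]
  have hcapsub : ∀ v ⊆ s, Cap 2 v f := fun v hv => P1_cap_mono le_rfl hv hcap
  have hRs : R ⊆ s := hRO.trans hOs
  have hZ5 : 5 ≤ (FS R f).card := by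
    have h1 := (hSm G ι R f (fun i hi => hnz i (hRs hi)) (hBsub s R hRs hap)).2 (hcapsub R hRs)
      (by omega)
    omega
  have hPFv : ∀ v ⊆ s, v.card < t → cf 2 v.card ≤ (FS v f).card := fun v hv hvt =>
    hPF v.card hvt G ι v f hR2 rfl (fun i hi => hnz i (hv hi)) (hcapsub v hv) (hBsub s v hv hap)
  have hIap : Aper (FS I f) := hBsub s I hIs hap
  have hYM : ∀ z ∈ FS I f, φ z = 0 := fun z hz => (hφ z).2 (FS_subset_of_mem hIM hz)
  have h5 := I4F_sum φ (FS I f) (FS R f) hYM hIap hZ hZ5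
  have hIR : Disjoint I R := hIO.mono_right hRO
  rw [← hB1 I R hIR] at h5
  -- the rest
  have hd : Disjoint (I ∪ R) (O \ R) := by
    rw [disjoint_union_left]
    exact ⟨hIO.mono_right sdiff_subset, disjoint_sdiff⟩
  have hun : (I ∪ R) ∪ (O \ R) = s := by
    rw [union_assoc, union_sdiff_of_subset hRO, hIOs]
  have h6 := hB1 (I ∪ R) (O \ R) hd
  rw [hun] at h6
  have h7 := (hKn G).1 (FS (I ∪ R) f) (FS (O \ R) f) ⟨0, zero_mem_FS _ _⟩ ⟨0, zero_mem_FS _ _⟩
    (by rw [← h6]; exact hap)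
  rw [← h6] at h7
  have hORc : (O \ R).card = t - I.card - 3 := by
    rw [card_sdiff_of_subset hRO, hRc]
    omega
  have h8 := hPFv (O \ R) (sdiff_subset.trans hOs) (by omega)
  rw [hORc] at h8
  -- many sums in `M`
  have hXc : t / 2 ≤ X.card + 1 := by omega
  have hXI' := card_le_card hXI
  have h9 := hPFv I hIs (by omega)
  obtain ⟨X3, hX3X, hX3c⟩ := exists_subset_card_eq (show 3 ≤ X.card by omega)
  have hX3s : X3 ⊆ s := (hX3X.trans hXI).trans hIs
  have hX3 : AE X3 f := by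
    refine ⟨⟨fun i hi => hXAS.1 i (hX3X hi), P1_cap_mono le_rfl hX3X hXAS.2⟩, ?_⟩
    intro i hi h
    exact hB5 s i (hX3s hi) hap (hnz i (hX3s hi)) (eq_neg_of_add_eq_zero_left h)
  have h10 := hB3 G ι X3 f hX3 (by omega)
  rw [hX3c] at h10
  have hIX : X3 ∪ (I \ X3) = I := union_sdiff_of_subset (hX3X.trans hXI)
  have h11 := I4F_grow f X3 (I \ X3).card (I \ X3) disjoint_sdiff rfl
    (fun i hi => hnz i (hIs (sdiff_subset hi))) (by rw [hIX]; exact hIap)
    (fun A B hAB hB => hBsub B A hAB hB)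
  rw [hIX, card_sdiff_of_subset (hX3X.trans hXI), hX3c] at h11
  have h12 := I4F_num t I.card ht9 (by omega) (by omega) hNm.2.2.1 (FS I f).card h9 (by omega)
  omega

end Pool.Agent.SSX
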