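import Pool.Agent.SSX.St

/-!
# SSX, module K1X: four coloops (`thm_K1X : SDG.St_Ba1 → SDG.St_Kn → St_NuX → St_K1X`)

Every coloop doubles the number of sums, so four of them multiply it by 16; the numbers (`St_NuX` (2)) exclude this except for
`t = 9`, `|r| = 4`.
-/

set_option autoImplicit false

noncomputable section

open Finset Pool.Agent.Helper64.Rho Pool.Agent.SDG Pool.Agent.MDR Pool.Agent.SSC Pool.Agent.SSE Pool.Agent.SSF
open scoped Classical Pointwise

namespace Pool.Agent.SSX

/-- coloops double the number of sums -/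
private theorem K1X_pow (h1 : SDG.St_Ba1) {G ι : Type} [AddCommGroup G] (r : Finset ι) (f : ι → G) :
    ∀ Q : Finset ι, Q ⊆ r → (∀ y ∈ Q, Clp r f y) →
      (FS r f).card = 2 ^ Q.card * (FS (r \ Q) f).card := by
  intro Q
  induction Q using Finset.induction_on with
  | empty =>
    intro _ _
    simp
  | insert y Q hy ih =>
    intro hQ hc
    have hyr : y ∈ r := hQ (mem_insert_self y Q)
    have hQr : Q ⊆ r := fun z hz => hQ (mem_insert_of_mem hz)
    have h2 := ih hQr (fun z hz => hc z (mem_insert_of_mem hz))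
    have hyW : y ∈ r \ Q := mem_sdiff.2 ⟨hyr, hy⟩
    have hE : (r \ Q).erase y = r \ insert y Q := by
      ext z
      simp only [mem_erase, mem_sdiff, mem_insert, not_or]
      tauto
    obtain ⟨M, -, hyM, hM⟩ := hc y (mem_insert_self y Q)
    have hg : f y ∉ gen ((r \ Q).erase y) f := by
      intro hm
      apply hyM
      have hle : gen ((r \ Q).erase y) f ≤ M := by
        unfold gen
        rw [AddSubgroup.closure_le]
        rintro _ ⟨j, hj, rfl⟩
        have hj' : j ∈ (r \ Q).erase y := hj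
        apply hM j
        rw [mem_erase] at hj' ⊢
        exact ⟨hj'.1, (mem_sdiff.1 hj'.2).1⟩
      exact hle hm
    have h3 := (h1 G ι f).2.2.2.1 (r \ Q) y hyW hg
    rw [hE] at h3
    rw [h2, h3, card_insert_of_notMem hy, pow_succ]
    ring

/-- the lower bound for a proper subfamily -/
private theorem K1X_low (h1 : SDG.St_Ba1) {G ι : Type} [AddCommGroup G] [Finite G] {t : ℕ} {s : Finset ι}
    {f : ι → G} (hC : CtxF t s f) (W : Finset ι) (hW : W ⊆ s) (hl : W.card < t) :
    cf 2 W.card ≤ (FS W f).card := by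
  obtain ⟨hP, -, hR, -, -, h0, hcap, hap, -⟩ := hC
  refine hP W.card hl G ι W f hR rfl (fun i hi => h0 i (hW hi)) ?_ ((h1 G ι f).2.1 s W hW hap)
  intro x
  exact le_trans (card_le_card (filter_subset_filter _ hW)) (hcap x)

theorem thm_K1X (h1 : SDG.St_Ba1) (hKn : SDG.St_Kn) (hN : St_NuX) : St_K1X := by
  intro G ι _ _ t s p r Q f hC ht hS hQ hQ4 hcl
  obtain ⟨hdis, hun, -, -, hpr, hrp⟩ := hS
  have hsc : s.card = t := hC.2.2.2.2.1
  have hap : Aper (FS s f) := hC.2.2.2.2.2.2.2.1
  have hlt : (FS s f).card < cf 2 t := hC.2.2.2.2.2.2.2.2.2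
  have hcard : p.card + r.card = t := by
    rw [← hsc, ← hun, card_union_of_disjoint hdis]
  have hr4 : 4 ≤ r.card := by
    rw [← hQ4]
    exact card_le_card hQ
  have hps : p ⊆ s := by
    rw [← hun]
    exact subset_union_left
  have hrs : r ⊆ s := by
    rw [← hun]
    exact subset_union_right
  by_contra hcon
  have hlp := K1X_low h1 hC p hps (by omega)
  have hlW := K1X_low h1 hC (r \ Q) (fun i hi => hrs (mem_sdiff.1 hi).1) (by
    have := card_le_card (sdiff_subset : r \ Q ⊆ r)
    omega)
  have hWc : (r \ Q).card = r.card - 4 := by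
    rw [card_sdiff_of_subset hQ, hQ4]
  rw [hWc] at hlW
  have hpow := K1X_pow h1 r f Q hQ hcl
  rw [hQ4] at hpow
  have hsum : FS p f + FS r f = FS s f := by
    rw [← (h1 G ι f).1 p r hdis, hun]
  have hkn := (hKn G).1 (FS p f) (FS r f) ⟨0, zero_mem_FS p f⟩ ⟨0, zero_mem_FS r f⟩ (by
    rw [hsum]
    exact hap)
  rw [hsum] at hkn
  have hnum := hN.2.1 t r.card ht (by omega) (by
    intro h9
    by_contra h5
    exact hcon ⟨h9, by omega⟩)
  have hpc : t - r.card = p.card := by omega
  rw [hpc] at hnum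
  norm_num at hpow
  omega

end Pool.Agent.SSX
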