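import Pool.Agent.SSX.St

/-!
# SSX, K2X: the exceptional case of four coloops
-/

set_option autoImplicit false

noncomputable section

open Finset Pool.Agent.Helper64.Rho Pool.Agent.SDG Pool.Agent.MDR Pool.Agent.SSC Pool.Agent.SSE Pool.Agent.SSF
open scoped Classical Pointwise

namespace Pool.Agent.SSX

/-- the sums of members of `r` modulo the subgroups of index 2 -/
private theorem K2X_sum {G ι : Type} [AddCommGroup G] (r U : Finset ι) (f : ι → G) (Mw : ι → AddSubgroup G)
    (h1 : ∀ y ∈ r, f y ∉ Mw y) (h2 : ∀ y ∈ r, ∀ j ∈ r.erase y, f j ∈ Mw y) (hU : U ⊆ r) (w : ι) (hw : w ∈ r) :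
    ∑ y ∈ U, f y ∈ Mw w ↔ w ∉ U := by
  constructor
  · intro h hwU
    rw [← Finset.add_sum_erase U f hwU] at h
    have h3 : ∑ y ∈ U.erase w, f y ∈ Mw w := by
      refine AddSubgroup.sum_mem _ fun y hy => h2 w hw y ?_
      rw [Finset.mem_erase] at hy ⊢
      exact ⟨hy.1, hU hy.2⟩
    exact h1 w hw ((AddSubgroup.add_mem_cancel_right _ h3).1 h)
  · intro hwU
    refine AddSubgroup.sum_mem _ fun y hy => h2 w hw y ?_
    rw [Finset.mem_erase]
    exact ⟨fun h => hwU (h ▸ hy), hU hy⟩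

/-- the order of the group -/
private theorem K2X_card {G ι : Type} [AddCommGroup G] [Finite G] (r : Finset ι) (f : ι → G) (Mw : ι → AddSubgroup G)
    (h0 : ∀ y ∈ r, (Mw y).index = 2)
    (h1 : ∀ y ∈ r, f y ∉ Mw y) (h2 : ∀ y ∈ r, ∀ j ∈ r.erase y, f j ∈ Mw y) :
    Nat.card G = Nat.card (⨅ y ∈ r, Mw y : AddSubgroup G) * 2 ^ r.card := by
  have hF : ∀ x : G, x ∈ (⨅ y ∈ r, Mw y : AddSubgroup G) ↔ ∀ y ∈ r, x ∈ Mw y := by
    intro x
    simp only [AddSubgroup.mem_iInf]
  let h : (⨅ y ∈ r, Mw y : AddSubgroup G) × r.powerset → G := fun q => (q.1 : G) + ∑ y ∈ q.2.val, f y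
  have hinj : Function.Injective h := by
    rintro ⟨⟨z, hz⟩, ⟨U, hU⟩⟩ ⟨⟨z', hz'⟩, ⟨U', hU'⟩⟩ he
    have he' : z + ∑ y ∈ U, f y = z' + ∑ y ∈ U', f y := he
    rw [Finset.mem_powerset] at hU hU'
    have hUU : U = U' := by
      ext w
      by_cases hw : w ∈ r
      · have a1 := K2X_sum r U f Mw h1 h2 hU w hw
        have a2 := K2X_sum r U' f Mw h1 h2 hU' w hw
        have a3 : z + ∑ y ∈ U, f y ∈ Mw w ↔ ∑ y ∈ U, f y ∈ Mw w :=
          AddSubgroup.add_mem_cancel_left _ ((hF z).1 hz w hw)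
        have a4 : z' + ∑ y ∈ U', f y ∈ Mw w ↔ ∑ y ∈ U', f y ∈ Mw w :=
          AddSubgroup.add_mem_cancel_left _ ((hF z').1 hz' w hw)
        rw [he'] at a3
        have a5 : w ∉ U ↔ w ∉ U' := a1.symm.trans (a3.symm.trans (a4.trans a2))
        exact not_iff_not.1 a5
      · exact ⟨fun h => absurd (hU h) hw, fun h => absurd (hU' h) hw⟩
    subst hUU
    have hzz : z = z' := add_right_cancel he'
    subst hzz
    rfl
  have hsur : Function.Surjective h := by
    intro x
    have hU : r.filter (fun y => x ∉ Mw y) ∈ r.powerset := Finset.mem_powerset.2 (Finset.filter_subset _ _)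
    have hz : x - ∑ y ∈ r.filter (fun y => x ∉ Mw y), f y ∈ (⨅ y ∈ r, Mw y : AddSubgroup G) := by
      rw [hF]
      intro w hw
      have a1 := K2X_sum r (r.filter fun y => x ∉ Mw y) f Mw h1 h2 (Finset.filter_subset _ _) w hw
      rw [sub_eq_add_neg, AddSubgroup.add_mem_iff_of_index_two (h0 w hw), AddSubgroup.neg_mem_iff, a1,
        Finset.mem_filter]
      tauto
    refine ⟨⟨⟨_, hz⟩, ⟨_, hU⟩⟩, ?_⟩
    show x - ∑ y ∈ r.filter (fun y => x ∉ Mw y), f y + ∑ y ∈ r.filter (fun y => x ∉ Mw y), f y = x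
    abel
  rw [← Nat.card_congr (Equiv.ofBijective h ⟨hinj, hsur⟩), Nat.card_prod]
  congr 1
  rw [Nat.card_eq_fintype_card, Fintype.card_coe, Finset.card_powerset]

private theorem K2X_le {G : Type} [AddCommGroup G] [Finite G] (S : Finset G) (M : AddSubgroup G)
    (h : ∀ x ∈ S, x ∈ M) : S.card ≤ Nat.card M := by
  have h1 : (S : Set G).ncard ≤ (M : Set G).ncard := Set.ncard_le_ncard (fun x hx => h x hx) (Set.toFinite _)
  rw [Set.ncard_coe_finset] at h1
  exact h1

theorem thm_K2X : SDG.St_Nm1 → SDG.St_Ba1 → SDG.St_main → SSE.St_SyE → St_BnF → St_K2X := by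
  intro hNm1 hBa1 hmain hSyE hBnF G ι _ _ s p r f M hctx hspl hr hclp hM hpM
  have hBn := hBnF G ι 9 s f hctx (by norm_num)
  obtain ⟨-, -, -, -, hs9, hne, hcap, hap, hgen, hlt⟩ := hctx
  obtain ⟨hdis, huni, hASp, -, -, -⟩ := hspl
  have hc8 : cf 2 (9 - 1) = 21 := by
    rw [hNm1.2.2.1]
    norm_num
  have hc9 : cf 2 9 = 26 := by
    rw [hNm1.2.2.1]
    norm_num
  rw [hc8] at hBn
  rw [hc9] at hlt
  have hp5 : p.card = 5 := by
    have h := Finset.card_union_of_disjoint hdis
    rw [huni, hs9, hr] at h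
    omega
  -- the order of the group
  have hN45 : Nat.card G ≤ 45 := by
    rcases (hmain 9).1 G ι s f hs9 hne hcap hap with h | h
    · rw [hc9] at h
      omega
    · have hj : jj 9 * (jj 9 - 1) = 20 := rfl
      rw [hgen, hj, AddSubgroup.card_top] at h
      omega
  choose! Mw hMw2 hMw3 hMw4 using hclp
  have hcard := K2X_card r f Mw hMw2 hMw3 hMw4
  obtain ⟨F, hF⟩ : ∃ F : AddSubgroup G, F = ⨅ y ∈ r, Mw y := ⟨_, rfl⟩
  rw [← hF, hr] at hcard
  have hF2 : Nat.card F = 2 := by omega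
  have hN : Nat.card G = 32 := by omega
  have hMc : Nat.card M = 16 := by
    have h := AddSubgroup.card_mul_index M
    rw [hM, hN] at h
    omega
  have hdbl : ∀ x : G, x + x ∈ F := by
    intro x
    rw [hF]
    simp only [AddSubgroup.mem_iInf]
    intro y hy
    exact AddSubgroup.add_self_mem_of_index_two (hMw2 y hy) x
  -- the symmetric set
  have hAE : AE p f := by
    refine ⟨hASp, fun i hi h0 => ?_⟩
    have his : i ∈ s := by
      rw [← huni]
      exact Finset.mem_union_left _ hi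
    exact (hBa1 G ι f).2.2.2.2.1 s i his hap (hne i his) (eq_neg_of_add_eq_zero_left h0)
  obtain ⟨hSc, hS0, -, hScl, -, hSinv, -⟩ := hSyE G ι p f hAE
  rw [hp5] at hSc
  have hSM : ∀ y ∈ sym p f, y ∈ M := by
    intro y hy
    have h1 : y ∈ AddSubgroup.closure (sym p f : Set G) := AddSubgroup.subset_closure hy
    rw [hScl] at h1
    have h2 : gen p f ≤ M := by
      unfold gen
      rw [AddSubgroup.closure_le]
      rintro _ ⟨i, hi, rfl⟩
      exact hpM i hi
    exact h2 h1
  obtain ⟨S, hS⟩ : ∃ S : Finset G, S = (sym p f).erase 0 := ⟨_, rfl⟩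
  have hS10 : S.card = 10 := by
    rw [hS, Finset.card_erase_of_mem hS0, hSc]
  have hSmem : ∀ y ∈ S, y ∈ M ∧ y + y ≠ 0 := by
    intro y hy
    rw [hS, Finset.mem_erase] at hy
    exact ⟨hSM y hy.2, fun h => hy.1 (hSinv y hy.2 h)⟩
  have hSeq : ∀ y ∈ S, ∀ y' ∈ S, y + y = y' + y' := by
    intro y hy y' hy'
    by_contra hne'
    have h3 : ({0, y + y, y' + y'} : Finset G).card = 3 := by
      rw [Finset.card_eq_three]
      exact ⟨0, y + y, y' + y', (hSmem y hy).2.symm, (hSmem y' hy').2.symm, hne', rfl⟩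
    have h4 := K2X_le ({0, y + y, y' + y'} : Finset G) F (by
      intro x hx
      simp only [Finset.mem_insert, Finset.mem_singleton] at hx
      rcases hx with rfl | rfl | rfl
      · exact F.zero_mem
      · exact hdbl y
      · exact hdbl y')
    rw [h3, hF2] at h4
    omega
  obtain ⟨y0, hy0⟩ : S.Nonempty := by
    rw [← Finset.card_pos]
    omega
  have hinj : Function.Injective fun y : G => y - y0 := fun a b h => sub_left_injective h
  have hdisj : Disjoint S (S.image fun y => y - y0) := by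
    rw [Finset.disjoint_left]
    intro y hy hy'
    obtain ⟨y', hy'S, rfl⟩ := Finset.mem_image.1 hy'
    apply (hSmem _ hy).2
    have h := hSeq y' hy'S y0 hy0
    have h2 : y' - y0 + (y' - y0) = (y' + y') - (y0 + y0) := by abel
    rw [h2, h, sub_self]
  have hle := K2X_le (S ∪ S.image fun y => y - y0) M (by
    intro x hx
    rcases Finset.mem_union.1 hx with h | h
    · exact (hSmem x h).1
    · obtain ⟨y', hy'S, rfl⟩ := Finset.mem_image.1 h
      exact M.sub_mem (hSmem y' hy'S).1 (hSmem y0 hy0).1)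
  rw [Finset.card_union_of_disjoint hdisj, Finset.card_image_of_injective _ hinj, hS10, hMc] at hle
  omega

end Pool.Agent.SSX
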