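import Pool.Agent.SSX.St

/-!
# SSX LbX (helper32): lower bounds for antisymmetric subfamilies
-/

set_option autoImplicit false

noncomputable section

open Finset Pool.Agent.Helper64.Rho Pool.Agent.SDG Pool.Agent.MDR Pool.Agent.SSC Pool.Agent.SSE Pool.Agent.SSF
open scoped Classical Pointwise

namespace Pool.Agent.SSX

private theorem LbX_AS {G ι : Type} [AddCommGroup G] {u v : Finset ι} {f : ι → G} (hvu : v ⊆ u)
    (hA : AS u f) : AS v f :=
  ⟨fun i hi => hA.1 i (hvu hi), fun x => (card_le_card (filter_subset_filter _ hvu)).trans (hA.2 x)⟩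

private theorem LbX_AE {G ι : Type} [AddCommGroup G] (hB : SDG.St_Ba1) {s u : Finset ι} {f : ι → G}
    (hus : u ⊆ s) (hap : Aper (FS s f)) (hA : AS u f) : AE u f := by
  refine ⟨hA, fun i hi h => ?_⟩
  exact (hB G ι f).2.2.2.2.1 s i (hus hi) hap (hA.1 i hi) (eq_neg_of_add_eq_zero_left h)

private theorem LbX_mono {G ι : Type} [AddCommGroup G] {u v : Finset ι} (hvu : v ⊆ u) (f : ι → G) :
    (FS v f).card ≤ (FS u f).card :=
  card_le_card (image_subset_image (powerset_mono.2 hvu))

private theorem LbX_lam {G : Type} [AddCommGroup G] {T : Finset G} {x : G} (hT : Aper T)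
    (hx : x ≠ 0) : 1 ≤ lam T x := by
  by_contra h
  have h0 : lam T x = 0 := by omega
  unfold lam at h0
  rw [card_eq_zero, filter_eq_empty_iff] at h0
  exact hx (hT x fun y hy => not_not.1 (h0 hy))

private theorem LbX_step {G ι : Type} [AddCommGroup G] (hB : SDG.St_Ba1) (s : Finset ι)
    (f : ι → G) (hap : Aper (FS s f)) (b : ℕ) (hb : ∀ I : Finset ι, I ⊆ s → AS I f → I.card = 3 →
      b ≤ (FS I f).card) :
    ∀ (n : ℕ) (I : Finset ι), I ⊆ s → AS I f → I.card = n + 3 → b + n ≤ (FS I f).card := by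
  intro n
  induction n with
  | zero =>
    intro I hI hA hc
    exact hb I hI hA hc
  | succ n ih =>
    intro I hI hA hc
    obtain ⟨k, hk⟩ : I.Nonempty := card_pos.1 (by omega)
    have h1 := ih (I.erase k) ((erase_subset k I).trans hI) (LbX_AS (erase_subset k I) hA)
      (by rw [card_erase_of_mem hk]; omega)
    have h2 := (hB G ι f).2.2.1 I k hk
    have h3 := LbX_lam ((hB G ι f).2.1 s I hI hap) (hA.1 k hk)
    omega

theorem thm_LbX : SDG.St_Nm1 → SDG.St_Ba1 → SSE.St_B3E → St_LbX := by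
  intro _ hB h3 G ι _ _ t s I f hC hI hne hA
  obtain ⟨hPR, -, hR, -, hcard, h0, hcap, hap, -, -⟩ := hC
  have hlt : I.card < t := by
    rw [← hcard]
    exact card_lt_card (hI.ssubset_of_ne hne)
  refine ⟨?_, fun h2 => ?_, fun h2 => ?_⟩
  · exact hPR I.card hlt G ι I f hR rfl (fun i hi => h0 i (hI hi))
      (fun x => (card_le_card (filter_subset_filter _ hI)).trans (hcap x))
      ((hB G ι f).2.1 s I hI hap)
  · obtain ⟨J, hJ, hJc⟩ := exists_subset_card_eq h2
    have h4 := h3 G ι J f (LbX_AE hB (hJ.trans hI) hap (LbX_AS hJ hA)) (by omega)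
    have h5 := LbX_mono hJ f
    rw [hJc] at h4
    omega
  · have h4 := LbX_step hB s f hap 7 (fun J hJ hJA hJc => by
      have h5 := h3 G ι J f (LbX_AE hB hJ hap hJA) (by omega)
      rw [hJc] at h5
      omega) (I.card - 3) I hI hA (by omega)
    omega

end Pool.Agent.SSX
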