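import Pool.Agent.SSX.St

/-!
# SSX, module LcW: levels of a family nearly filled by a group killed by 2
-/

set_option autoImplicit false

noncomputable section

open Finset Pool.Agent.Helper64.Rho Pool.Agent.SDG Pool.Agent.MDR Pool.Agent.SSC Pool.Agent.SSE Pool.Agent.SSF
open scoped Classical Pointwise

namespace Pool.Agent.SSX

private theorem LcW_inj {G ι : Type} [AddCommGroup G] {s : Finset ι} {f : ι → G} (h : AS s f) {i j : ι} (hi : i ∈ s)
    (hj : j ∈ s) (hij : f i = f j ∨ f i = - f j) : i = j := by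
  have h1 := h.2 (f j)
  rw [card_le_one] at h1
  exact h1 i (mem_filter.2 ⟨hi, hij⟩) j (mem_filter.2 ⟨hj, Or.inl rfl⟩)

private theorem LcW_sub {G : Type} [AddCommGroup G] [Finite G] (E : Finset G) (K : AddSubgroup G) (h : ∀ x ∈ E, x ∈ K) :
    E.card ≤ Nat.card K := by
  have h1 : Nat.card E ≤ Nat.card K :=
    Nat.card_le_card_of_injective (fun x : E => (⟨x.1, h x.1 x.2⟩ : K)) fun x y hxy =>
      Subtype.ext (congrArg (fun z : K => (z : G)) hxy)
  simpa using h1

theorem thm_LcW : SSE.St_SyE → SSE.St_LvE → St_LcW := by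
  intro hSy hLv G ι _ _ u f K hE hu hK2 hst hA
  obtain ⟨d, a, hd, hc, hD⟩ := hA
  obtain ⟨f', lv, hf', hlv, hlv0, hlvq, huniq⟩ := hLv G ι f K d hd
  have hK0 : 0 < Nat.card K := Nat.card_pos
  have hcard : Nat.card K * K.index = Nat.card G := AddSubgroup.card_mul_index K
  have h5 : 2 * a + 1 ≤ K.index := by
    have h1 : (st (sym u f) K).card ≤ Nat.card G := by
      have h0 : (st (sym u f) K).card = Nat.card (st (sym u f) K) := by simp
      rw [h0]
      exact Nat.card_le_card_of_injective (fun x : (st (sym u f) K) => (x : G)) Subtype.val_injective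
    rw [hc, ← hcard] at h1
    exact Nat.le_of_mul_le_mul_left h1 hK0
  have h1 := (hSy G ι u f hE).1
  rw [hc, h1] at hst
  have h3 : a * Nat.card K ≤ u.card := by
    have h3' : 2 * (a * Nat.card K) ≤ 2 * u.card := by nlinarith
    omega
  have hle : ∀ i ∈ u, 1 ≤ lv i ∧ lv i ≤ a := by
    intro i hi
    have hm : f i ∈ sym u f := by
      unfold sym
      exact mem_union_right _ (mem_union_left _ (mem_image_of_mem f hi))
    obtain ⟨k, hk, hk2⟩ := hD (f i) hm
    have h6 : lv i = k := huniq i k (by omega) hk2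
    have h7 : lv i ≠ 0 := fun h => hE.2 i hi (hK2 _ ((hlv0 i).1 h))
    omega
  have hcn : ∀ n, (u.filter fun i => lv i = n).card ≤ Nat.card K := by
    intro n
    have h1 : ((u.filter fun i => lv i = n).image fun i => f' i - n • d).card = (u.filter fun i => lv i = n).card := by
      apply card_image_of_injOn
      intro i hi j hj hij
      have hi := (mem_filter.1 (mem_coe.1 hi)).1
      have hj := (mem_filter.1 (mem_coe.1 hj)).1
      have h0 : f' i = f' j := sub_left_injective hij
      refine LcW_inj hE.1 hi hj ?_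
      rcases hf' i with h | h <;> rcases hf' j with h' | h' <;> rw [h, h'] at h0
      · exact Or.inl h0
      · exact Or.inr h0
      · exact Or.inr (by rw [← h0, neg_neg])
      · exact Or.inl (neg_injective h0)
    rw [← h1]
    refine LcW_sub _ _ fun x hx => ?_
    obtain ⟨i, hi, rfl⟩ := mem_image.1 hx
    have := hlv i
    rwa [(mem_filter.1 hi).2] at this
  have hsum : u.card = ∑ n ∈ Icc 1 a, (u.filter fun i => lv i = n).card :=
    card_eq_sum_card_fiberwise fun i hi => by
      have := hle i (mem_coe.1 hi)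
      exact mem_coe.2 (mem_Icc.2 this)
  have hsum2 : ∑ n ∈ Icc 1 a, (u.filter fun i => lv i = n).card ≤ a * Nat.card K := by
    refine (sum_le_card_nsmul _ _ (Nat.card K) fun n _ => hcn n).trans ?_
    simp
  have hl : u.card = a * Nat.card K := by omega
  have ha1 : 1 ≤ a := by
    rcases Nat.eq_zero_or_pos a with h | h
    · rw [h, zero_mul] at hl
      omega
    · exact h
  refine ⟨d, a, f', lv, hd, hf', hlv, h5, ha1, hle, ?_, hl⟩
  intro n hn1 hn2
  by_contra hne
  have hlt : (u.filter fun i => lv i = n).card < Nat.card K := lt_of_le_of_ne (hcn n) hne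
  have h8 : ∑ n ∈ Icc 1 a, (u.filter fun i => lv i = n).card < ∑ _n ∈ Icc 1 a, Nat.card K :=
    sum_lt_sum (fun m _ => hcn m) ⟨n, mem_Icc.2 ⟨hn1, hn2⟩, hlt⟩
  have h9 : ∑ _n ∈ Icc 1 a, Nat.card K = a * Nat.card K := by simp
  omega

end Pool.Agent.SSX
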