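import Mathlib
import Pool.Agent.SSX.St

/-!
# SSX.NuX : four numerical inequalities (helper42)
-/

set_option autoImplicit false

noncomputable section

open Finset Pool.Agent.Helper64.Rho Pool.Agent.SDG Pool.Agent.MDR Pool.Agent.SSC Pool.Agent.SSE Pool.Agent.SSF
open scoped Classical Pointwise

namespace Pool.Agent.SSX

private theorem NuX_L (h1 : SDG.St_Nm1) (n : ℕ) : (n + 1) * (n + 1) + 3 ≤ 4 * cf 2 n := by
  obtain ⟨-, hb, -, -, -, -⟩ := h1
  obtain ⟨a, ha | ha⟩ : ∃ a, n = 2 * a ∨ n = 2 * a + 1 := ⟨n / 2, by omega⟩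
  · have := hb 2 a 0 (by norm_num) (by norm_num)
    rw [Nat.add_zero] at this
    subst ha
    nlinarith
  · have := hb 2 a 1 (by norm_num) (by norm_num)
    subst ha
    nlinarith

private theorem NuX_U (h1 : SDG.St_Nm1) (n : ℕ) : 4 * cf 2 n ≤ (n + 1) * (n + 1) + 4 := by
  obtain ⟨-, hb, -, -, -, -⟩ := h1
  obtain ⟨a, ha | ha⟩ : ∃ a, n = 2 * a ∨ n = 2 * a + 1 := ⟨n / 2, by omega⟩
  · have := hb 2 a 0 (by norm_num) (by norm_num)
    rw [Nat.add_zero] at this
    subst ha
    nlinarith
  · have := hb 2 a 1 (by norm_num) (by norm_num)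
    subst ha
    nlinarith

private theorem NuX_v (h1 : SDG.St_Nm1) : cf 2 9 = 26 ∧ cf 2 3 = 5 ∧ cf 2 4 = 7 ∧ cf 2 11 = 37 ∧ cf 2 5 = 10 := by
  obtain ⟨-, -, hc, -, -, -⟩ := h1
  refine ⟨?_, ?_, ?_, ?_, ?_⟩ <;> · rw [hc]; norm_num

private theorem NuX_1 (h1 : SDG.St_Nm1) (t p : ℕ) (ht : 9 ≤ t) (hp : p = t / 2 ∨ p = (t + 1) / 2) :
    cf 2 t < 4 * cf 2 (p - 1) + cf 2 (t - p - 1) := by
  have L := NuX_L h1
  have U := NuX_U h1
  obtain ⟨v1, v2, v3, -, -⟩ := NuX_v h1
  obtain ⟨a, ha | ha⟩ : ∃ a, t = 2 * (a + 4) ∨ t = 2 * (a + 4) + 1 := ⟨t / 2 - 4, by omega⟩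
  · have hp' : p = a + 4 := by omega
    have e1 : p - 1 = a + 3 := by omega
    have e2 : t - p - 1 = a + 3 := by omega
    rw [e1, e2]
    have hU := U t
    have hL := L (a + 3)
    subst ha
    nlinarith
  · rcases hp with hp | hp
    · have hp' : p = a + 4 := by omega
      have e1 : p - 1 = a + 3 := by omega
      have e2 : t - p - 1 = a + 4 := by omega
      rw [e1, e2]
      rcases Nat.eq_zero_or_pos a with h0 | h0
      · subst h0
        subst ha
        simp only [Nat.zero_add] at *
        rw [v2, v3]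
        have : cf 2 (2 * 4 + 1) = 26 := v1
        omega
      · have hU := U t
        have hL := L (a + 3)
        have hL' := L (a + 4)
        subst ha
        nlinarith
    · have hp' : p = a + 5 := by omega
      have e1 : p - 1 = a + 4 := by omega
      have e2 : t - p - 1 = a + 3 := by omega
      rw [e1, e2]
      have hU := U t
      have hL := L (a + 3)
      have hL' := L (a + 4)
      subst ha
      nlinarith

private theorem NuX_2 (h1 : SDG.St_Nm1) (t r : ℕ) (ht : 9 ≤ t) (hr : r = t / 2 ∨ r = (t + 1) / 2) (h9 : t = 9 → r = 5) :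
    cf 2 t < 16 * cf 2 (r - 4) + cf 2 (t - r) := by
  have L := NuX_L h1
  have U := NuX_U h1
  obtain ⟨a, ha | ha⟩ : ∃ a, t = 2 * (a + 4) ∨ t = 2 * (a + 4) + 1 := ⟨t / 2 - 4, by omega⟩
  · have e1 : r - 4 = a := by omega
    have e2 : t - r = a + 4 := by omega
    rw [e1, e2]
    have hU := U t
    have hL := L a
    have hL' := L (a + 4)
    subst ha
    nlinarith
  · rcases hr with hr | hr
    · have h0 : 1 ≤ a := by
        by_contra h
        have : a = 0 := by omega
        subst this
        have := h9 (by omega)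
        omega
      have e1 : r - 4 = a := by omega
      have e2 : t - r = a + 5 := by omega
      rw [e1, e2]
      have hU := U t
      have hL := L a
      have hL' := L (a + 5)
      subst ha
      nlinarith
    · have e1 : r - 4 = a + 1 := by omega
      have e2 : t - r = a + 4 := by omega
      rw [e1, e2]
      have hU := U t
      have hL := L (a + 1)
      have hL' := L (a + 4)
      subst ha
      nlinarith

private theorem NuX_3 (h1 : SDG.St_Nm1) (t x : ℕ) (ht : 10 ≤ t) (ha1 : (t + 1) / 2 ≤ x + 2) (ha2 : t % 2 = 0 → (t + 1) / 2 ≤ x + 1)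
    (ha3 : x + 1 ≤ (t + 1) / 2) : cf 2 t < 6 * cf 2 (x - 1) + cf 2 (t - x - 2) := by
  have L := NuX_L h1
  have U := NuX_U h1
  obtain ⟨a, ha | ha⟩ : ∃ a, t = 2 * (a + 5) ∨ t = 2 * (a + 5) + 1 := ⟨t / 2 - 5, by omega⟩
  · have := ha2 (by omega)
    have e1 : x - 1 = a + 3 := by omega
    have e2 : t - x - 2 = a + 4 := by omega
    rw [e1, e2]
    have hU := U t
    have hL := L (a + 3)
    have hL' := L (a + 4)
    subst ha
    nlinarith
  · obtain hx | hx : x = a + 5 ∨ x = a + 4 := by omega
    · have e1 : x - 1 = a + 4 := by omega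
      have e2 : t - x - 2 = a + 4 := by omega
      rw [e1, e2]
      have hU := U t
      have hL' := L (a + 4)
      subst ha
      nlinarith
    · have e1 : x - 1 = a + 3 := by omega
      have e2 : t - x - 2 = a + 5 := by omega
      rw [e1, e2]
      have hU := U t
      have hL := L (a + 3)
      have hL' := L (a + 5)
      subst ha
      nlinarith

private theorem NuX_4 (h1 : SDG.St_Nm1) (t r z F : ℕ) (ht : 10 ≤ t) (hr : r = t / 2 ∨ r = (t + 1) / 2) (hz1 : r ≤ z + 3) (hz2 : z < r)
    (hF : cf 2 z ≤ F) (hF2 : 2 ≤ z → 4 ≤ F) : cf 2 t < 9 * F + cf 2 (t - z - 4) := by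
  have L := NuX_L h1
  have U := NuX_U h1
  obtain ⟨-, -, -, v4, v5⟩ := NuX_v h1
  obtain ⟨a, ha | ha⟩ : ∃ a, t = 2 * (a + 5) ∨ t = 2 * (a + 5) + 1 := ⟨t / 2 - 5, by omega⟩
  · obtain hx | hx | hx : z = a + 2 ∨ z = a + 3 ∨ z = a + 4 := by omega
    · have e2 : t - z - 4 = a + 4 := by omega
      rw [e2]
      have hU := U t
      have hL := L z
      have hL' := L (a + 4)
      subst ha
      subst hx
      nlinarith
    · have e2 : t - z - 4 = a + 3 := by omega
      rw [e2]
      have hU := U t
      have hL := L z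
      have hL' := L (a + 3)
      subst ha
      subst hx
      nlinarith
    · have e2 : t - z - 4 = a + 2 := by omega
      rw [e2]
      have hU := U t
      have hL := L z
      have hL' := L (a + 2)
      subst ha
      subst hx
      nlinarith
  · obtain hx | hx | hx | hx : z = a + 2 ∨ z = a + 3 ∨ z = a + 4 ∨ z = a + 5 := by omega
    · have e2 : t - z - 4 = a + 5 := by omega
      rw [e2]
      rcases Nat.eq_zero_or_pos a with h0 | h0
      · subst h0
        subst ha
        subst hx
        simp only [Nat.zero_add] at *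
        have : cf 2 (2 * 5 + 1) = 37 := v4
        have := hF2 le_rfl
        omega
      · have hU := U t
        have hL := L z
        have hL' := L (a + 5)
        subst ha
        subst hx
        nlinarith
    · have e2 : t - z - 4 = a + 4 := by omega
      rw [e2]
      have hU := U t
      have hL := L z
      have hL' := L (a + 4)
      subst ha
      subst hx
      nlinarith
    · have e2 : t - z - 4 = a + 3 := by omega
      rw [e2]
      have hU := U t
      have hL := L z
      have hL' := L (a + 3)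
      subst ha
      subst hx
      nlinarith
    · have e2 : t - z - 4 = a + 2 := by omega
      rw [e2]
      have hU := U t
      have hL := L z
      have hL' := L (a + 2)
      subst ha
      subst hx
      nlinarith

theorem thm_NuX : SDG.St_Nm1 → St_NuX := fun h1 =>
  ⟨fun t p => NuX_1 h1 t p, fun t r => NuX_2 h1 t r, fun t x => NuX_3 h1 t x,
    fun t r z F ht hr hz1 hz2 hF hF2 _ => NuX_4 h1 t r z F ht hr hz1 hz2 hF hF2⟩

end Pool.Agent.SSX
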