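import Pool.Agent.SSX.St
import Pool.Agent.SDG.P1

/-!
# SSX (copied from Pool/Agent/SSF/NzF.lean), NzF: two subgroups of index 3
-/

set_option autoImplicit false

noncomputable section

open Finset Pool.Agent.Helper64.Rho Pool.Agent.SDG Pool.Agent.MDR Pool.Agent.SSC Pool.Agent.SSE Pool.Agent.SSF
open scoped Classical Pointwise

namespace Pool.Agent.SSX

/-- a proper nonempty subset of a group of prime order is moved by every nonzero element -/
private theorem NzF_move {Q : Type} [AddCommGroup Q] [Finite Q] [DecidableEq Q] {p : ℕ} (hp : p.Prime)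
    (hQ : Nat.card Q = p) (A : Finset Q) (hA : A.Nonempty) (hAc : A.card < p) {x : Q} (hx : x ≠ 0) :
    A.card + 1 ≤ (A ∪ A.image (· + x)).card := by
  by_contra hcon
  have h1 : A ∪ A.image (· + x) = A := by
    refine (eq_of_subset_of_card_le subset_union_left (by omega)).symm
  obtain ⟨L, hL⟩ := P1_per A
  have hxL : x ∈ L := by
    rw [hL]
    intro y hy
    rw [← h1]
    exact mem_union_right _ (mem_image.2 ⟨y, hy, rfl⟩)
  have hpf : Fact p.Prime := ⟨hp⟩
  have htop : AddSubgroup.zmultiples x = ⊤ := by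
    apply zmultiples_eq_top_of_prime_card hQ hx
  have hLtop : L = ⊤ := by
    rw [eq_top_iff, ← htop, AddSubgroup.zmultiples_le]
    exact hxL
  obtain ⟨a, ha⟩ := hA
  have := Fintype.ofFinite Q
  have h2 : A = univ := by
    ext y
    refine ⟨fun _ => mem_univ _, fun _ => ?_⟩
    have h3 : y - a ∈ L := by rw [hLtop]; trivial
    have h4 := (hL (y - a)).1 h3 a ha
    rwa [add_sub_cancel] at h4
  rw [h2, card_univ, ← Nat.card_eq_fintype_card, hQ] at hAc
  exact lt_irrefl _ hAc

/-- classes of sums -/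
private theorem NzF_classes {G ι : Type} [AddCommGroup G] [Finite G] (f : ι → G)
    (M : AddSubgroup G) (hp : M.index.Prime) (R : Finset ι) (hR : ∀ i ∈ R, f i ∉ M)
    (hRc : R.card + 1 ≤ M.index) :
    R.card + 1 ≤ ((FS R f).image fun x => (QuotientAddGroup.mk x : G ⧸ M)).card := by
  induction R using Finset.induction_on with
  | empty => simp
  | insert r R hr ih =>
    have ih' := ih (fun i hi => hR i (mem_insert_of_mem hi)) (by
      rw [card_insert_of_notMem hr] at hRc; omega)
    rw [card_insert_of_notMem hr] at hRc ⊢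
    have h1 : ((FS (insert r R) f).image fun x => (QuotientAddGroup.mk x : G ⧸ M)) =
        ((FS R f).image fun x => (QuotientAddGroup.mk x : G ⧸ M)) ∪
          (((FS R f).image fun x => (QuotientAddGroup.mk x : G ⧸ M)).image
            (· + (QuotientAddGroup.mk (f r) : G ⧸ M))) := by
      rw [FS_insert hr, image_union, image_image, image_image]
      rfl
    rw [h1]
    by_cases hbig : R.card + 2 ≤ ((FS R f).image fun x => (QuotientAddGroup.mk x : G ⧸ M)).card
    · exact (le_trans (by omega) (card_le_card subset_union_left))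
    · have hx : (QuotientAddGroup.mk (f r) : G ⧸ M) ≠ 0 := by
        intro h
        exact hR r (mem_insert_self _ _) ((QuotientAddGroup.eq_zero_iff _).1 h)
      have h2 := NzF_move (Q := G ⧸ M) hp (M.index_eq_card).symm
        ((FS R f).image fun x => (QuotientAddGroup.mk x : G ⧸ M))
        ⟨_, mem_image.2 ⟨0, zero_mem_FS _ _, rfl⟩⟩ (by omega) hx
      omega

/-- many sums -/
private theorem NzF_mul {G ι : Type} [AddCommGroup G] [Finite G] (I R : Finset ι) (f : ι → G)
    (M : AddSubgroup G) (hd : Disjoint I R) (hI : ∀ i ∈ I, f i ∈ M) :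
    ((FS R f).image fun x => (QuotientAddGroup.mk x : G ⧸ M)).card * (FS I f).card ≤
      (FS (I ∪ R) f).card := by
  have hrep : ∀ q ∈ (FS R f).image fun x => (QuotientAddGroup.mk x : G ⧸ M),
      ∃ z ∈ FS R f, (QuotientAddGroup.mk z : G ⧸ M) = q := fun q hq => mem_image.1 hq
  choose! z hz hzq using hrep
  rw [← card_product]
  apply card_le_card_of_injOn (fun r => r.2 + z r.1)
  · intro r hr
    rw [mem_coe, mem_product] at hr
    rw [mem_coe, mem_FS_union hd]
    exact ⟨r.2, hr.2, z r.1, hz _ hr.1, rfl⟩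
  · rintro ⟨q, y⟩ hr ⟨q', y'⟩ hr' heq
    rw [mem_coe, mem_product] at hr hr'
    simp only at heq hr hr'
    have hy : y ∈ M := FS_subset_of_mem hI hr.2
    have hy' : y' ∈ M := FS_subset_of_mem hI hr'.2
    have h1 : q = q' := by
      rw [← hzq q hr.1, ← hzq q' hr'.1, QuotientAddGroup.eq]
      have h2 : - z q + z q' = y - y' := by
        have h3 : y = y' + z q' - z q := by rw [← heq]; abel
        rw [h3]
        abel
      rw [h2]
      exact M.sub_mem hy hy'
    subst h1
    have h2 : y = y' := add_right_cancel heq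
    rw [h2]

/-- the numbers -/
private theorem NzF_num (hcf : ∀ t : ℕ, cf 2 t = 1 + (t + 1) ^ 2 / 4) (t m n e y x : ℕ)
    (ht : 9 ≤ t) (hm : m + 1 ≤ (t + 1) / 2) (hn1 : (t + 1) / 2 ≤ n + 2)
    (hn2 : t % 2 = 0 → (t + 1) / 2 ≤ n + 1) (hnm : n ≤ m) (he1 : 1 ≤ e) (he2 : e ≤ 2)
    (hy3 : n - e ≤ 3 → 2 + (n - e) * (n - e + 1) ≤ 2 * y) (hyc : cf 2 (n - e) ≤ y)
    (hx : (e + 1) * y ≤ x) (hx3 : n ≤ 3 → 2 + n * (n + 1) ≤ 2 * x) :
    cf 2 t + 1 ≤ 3 * (x + (m - n)) + cf 2 (t - m - 2) := by
  rw [hcf] at hyc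
  rw [hcf, hcf]
  by_cases hbig : 15 ≤ t
  · obtain ⟨k, rfl⟩ : ∃ k, t = k + 3 := ⟨t - 3, by omega⟩
    have h1 : k ≤ 2 * n := by
      rcases Nat.even_or_odd k with ⟨j, hj⟩ | ⟨j, hj⟩
      · omega
      · have := hn2 (by omega)
        omega
    obtain ⟨u, hu⟩ : ∃ u, u = k + 3 - m - 2 + 1 := ⟨_, rfl⟩
    have h2 : k + 2 ≤ 2 * u := by omega
    rw [← hu]
    have h3 : k * k ≤ (2 * n) * (2 * n) := Nat.mul_le_mul h1 h1
    have h4 : (k + 2) * (k + 2) ≤ (2 * u) * (2 * u) := Nat.mul_le_mul h2 h2
    have h5 : u ^ 2 ≤ 4 * (u ^ 2 / 4) + 3 := by omega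
    have h6 : 4 * ((k + 3 + 1) ^ 2 / 4) ≤ (k + 3 + 1) ^ 2 := Nat.mul_div_le _ _
    have hk : 12 ≤ k := by omega
    obtain rfl | rfl : e = 1 ∨ e = 2 := by omega
    · have h7 : n - 1 + 1 = n := by omega
      rw [h7] at hyc
      have h8 : n ^ 2 ≤ 4 * (n ^ 2 / 4) + 3 := by omega
      nlinarith
    · obtain ⟨v, hv⟩ : ∃ v, v = n - 2 + 1 := ⟨_, rfl⟩
      rw [← hv] at hyc
      have h7 : k ≤ 2 * v + 2 := by omega
      obtain ⟨w, rfl⟩ : ∃ w, k = w + 2 := ⟨k - 2, by omega⟩
      have h7' : w ≤ 2 * v := by omega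
      have h8 : v ^ 2 ≤ 4 * (v ^ 2 / 4) + 3 := by omega
      have h9 : w * w ≤ (2 * v) * (2 * v) := Nat.mul_le_mul h7' h7'
      nlinarith
  · have hm' : m ≤ 6 := by omega
    have hn' : 3 ≤ n := by omega
    have ht' : t ≤ 14 := by omega
    interval_cases t <;> interval_cases m <;> interval_cases n <;> interval_cases e <;>
      simp_all <;> omega

private theorem NzF_index {G : Type} [AddCommGroup G] [Finite G] (M M' : AddSubgroup G)
    (hM3 : M.index = 3) (hM'3 : M'.index = 3) (hne : M ≠ M') (x : G) (hx : x ∉ M ⊓ M') :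
    ((M ⊓ M') ⊔ AddSubgroup.zmultiples x).index = 3 := by
  have h3M : ∀ y : G, 3 • y ∈ M := fun y => by
    have h := AddSubgroup.nsmul_index_mem M y
    rwa [hM3] at h
  have h3M' : ∀ y : G, 3 • y ∈ M' := fun y => by
    have h := AddSubgroup.nsmul_index_mem M' y
    rwa [hM'3] at h
  obtain ⟨K, hK⟩ : ∃ K, K = (M ⊓ M') ⊔ AddSubgroup.zmultiples x := ⟨_, rfl⟩
  rw [← hK]
  have hNK : M ⊓ M' ≤ K := by rw [hK]; exact le_sup_left
  have hxK : x ∈ K := by
    rw [hK]
    exact (le_sup_right : AddSubgroup.zmultiples x ≤ _) (AddSubgroup.mem_zmultiples x)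
  have h3K : ∀ y : G, 3 • y ∈ K := fun y => hNK ⟨h3M y, h3M' y⟩
  have hle : ∀ L L' : AddSubgroup G, L.index = 3 → L'.index = 3 → L ≤ L' → L = L' := by
    intro L L' h1 h2 h3
    have h4 := AddSubgroup.relIndex_mul_index h3
    rw [h1, h2] at h4
    have h5 : L.relIndex L' = 1 := by omega
    exact le_antisymm h3 (AddSubgroup.relIndex_eq_one.1 h5)
  have hkey : K = ⊤ → ∀ L : AddSubgroup G, M ⊓ M' ≤ L → x ∉ L → L ≤ M ⊓ M' := by
    intro htop L hNL hxL y hy
    have hyK : y ∈ (M ⊓ M') ⊔ AddSubgroup.zmultiples x := by rw [← hK, htop]; trivial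
    obtain ⟨a, ha, b, hb, rfl⟩ := AddSubgroup.mem_sup.1 hyK
    obtain ⟨k, rfl⟩ := AddSubgroup.mem_zmultiples_iff.1 hb
    have h3x : (3 : ℤ) • x ∈ M ⊓ M' := by
      have h := (⟨h3M x, h3M' x⟩ : 3 • x ∈ M ⊓ M')
      exact_mod_cast h
    have hkL : k • x ∈ L := by
      have h := L.sub_mem hy (hNL ha)
      rwa [add_sub_cancel_left] at h
    have h3L : ∀ q : ℤ, (3 * q) • x ∈ L := fun q => by
      rw [mul_comm, mul_smul]
      exact L.zsmul_mem (hNL h3x) q
    obtain ⟨q, hq | hq | hq⟩ : ∃ q : ℤ, k = 3 * q ∨ k = 3 * q + 1 ∨ k = 3 * q + 2 :=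
      ⟨k / 3, by omega⟩
    · refine (M ⊓ M').add_mem ha ?_
      rw [hq, mul_comm, mul_smul]
      exact (M ⊓ M').zsmul_mem h3x q
    · refine absurd ?_ hxL
      have h := L.sub_mem hkL (h3L q)
      rw [← sub_smul, hq] at h
      have e : 3 * q + 1 - 3 * q = 1 := by ring
      rwa [e, one_smul] at h
    · refine absurd ?_ hxL
      have h := L.sub_mem (h3L (q + 1)) hkL
      rw [← sub_smul, hq] at h
      have e : 3 * (q + 1) - (3 * q + 2) = 1 := by ring
      rwa [e, one_smul] at h
  have hKtop : K ≠ ⊤ := by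
    intro htop
    by_cases hxM : x ∈ M
    · have hxM' : x ∉ M' := fun h => hx ⟨hxM, h⟩
      have h := hkey htop M' inf_le_right hxM'
      exact hne (hle M' M hM'3 hM3 (h.trans inf_le_left)).symm
    · have h := hkey htop M inf_le_left hxM
      exact hne (hle M M' hM3 hM'3 (h.trans inf_le_right))
  have h1 := AddSubgroup.relIndex_mul_index hNK
  have h2 : (M ⊓ M').index ≤ 9 := by
    have h := AddSubgroup.index_inf_le (H := M) (K := M')
    rw [hM3, hM'3] at h
    exact h
  have h3 : (M ⊓ M').relIndex K ≠ 1 := fun h =>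
    hx ((AddSubgroup.relIndex_eq_one.1 h) hxK)
  have h4 : (M ⊓ M').index ≠ 0 := AddSubgroup.index_ne_zero_of_finite
  have h5 : (M ⊓ M').relIndex K ≠ 0 := fun h => h4 (by rw [← h1, h, zero_mul])
  have h6 : 2 ≤ (M ⊓ M').relIndex K := by omega
  have h7 : 2 * K.index ≤ 9 := by
    have h := Nat.mul_le_mul_right K.index h6
    omega
  have h8 : K.index ≠ 0 := AddSubgroup.index_ne_zero_of_finite
  have h9 : K.index ≠ 1 := fun h => hKtop (AddSubgroup.index_eq_one.1 h)
  have h10 : K.index ≠ 2 := fun h => hKtop (by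
    rw [eq_top_iff]
    intro y _
    have h11 := AddSubgroup.nsmul_index_mem K y
    rw [h] at h11
    have h12 := K.sub_mem (h3K y) h11
    have e : 3 • y - 2 • y = y := by
      rw [sub_eq_iff_eq_add, ← succ_nsmul']
    rwa [e] at h12)
  have h11 : K.index ≠ 4 := fun h => hKtop (by
    rw [eq_top_iff]
    intro y _
    have h11 := AddSubgroup.nsmul_index_mem K y
    rw [h] at h11
    have h12 := K.sub_mem h11 (h3K y)
    have e : 4 • y - 3 • y = y := by
      rw [sub_eq_iff_eq_add, ← succ_nsmul']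
    rwa [e] at h12)
  omega

/-- all members of `X` in both subgroups -/
private theorem NzF_zero {G ι : Type} [AddCommGroup G] [Finite G] (t : ℕ) (s X : Finset ι)
    (f : ι → G) (M M' : AddSubgroup G) (hM3 : M.index = 3) (hM'3 : M'.index = 3) (hne : M ≠ M')
    (ht : 9 ≤ t) (hst : s.card = t) (hX : X ⊆ ins s f (M ⊓ M')) (hn1 : (t + 1) / 2 ≤ X.card + 2)
    (hIx : ∀ K : AddSubgroup G, K.index = 3 → (ins s f K).card + 1 ≤ (t + 1) / 2) : False := by
  obtain ⟨N, hN⟩ : ∃ N, N = M ⊓ M' := ⟨_, rfl⟩
  have hidx : ∀ x : G, x ∉ N → (N ⊔ AddSubgroup.zmultiples x).index = 3 := fun x hx => by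
    rw [hN] at hx ⊢
    exact NzF_index M M' hM3 hM'3 hne x hx
  have h3N : ∀ y : G, 3 • y ∈ N := fun y => by
    rw [hN]
    constructor
    · have h := AddSubgroup.nsmul_index_mem M y
      rwa [hM3] at h
    · have h := AddSubgroup.nsmul_index_mem M' y
      rwa [hM'3] at h
  have hN9 : N.index ≤ 9 := by
    have h := AddSubgroup.index_inf_le (H := M) (K := M')
    rw [hM3, hM'3] at h
    rw [hN]
    exact h
  rw [← hN] at hX
  have hXc : X.card ≤ (ins s f N).card := card_le_card hX
  -- uniqueness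
  have huniq : ∀ i ∈ outs s f N, ∀ j ∈ outs s f N,
      f j ∈ N ⊔ AddSubgroup.zmultiples (f i) → j = i := by
    intro i hi j hj hji
    by_contra hne'
    obtain ⟨his, hiN⟩ := mem_filter.1 hi
    obtain ⟨hjs, hjN⟩ := mem_filter.1 hj
    have h1 := hIx _ (hidx (f i) hiN)
    have h2 : insert j (insert i (ins s f N)) ⊆ ins s f (N ⊔ AddSubgroup.zmultiples (f i)) := by
      intro k hk
      rcases mem_insert.1 hk with rfl | hk
      · exact mem_filter.2 ⟨hjs, hji⟩
      · rcases mem_insert.1 hk with rfl | hk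
        · exact mem_filter.2 ⟨his,
            (le_sup_right : AddSubgroup.zmultiples (f k) ≤ _) (AddSubgroup.mem_zmultiples _)⟩
        · obtain ⟨hks, hkN⟩ := mem_filter.1 hk
          exact mem_filter.2 ⟨hks, (le_sup_left : N ≤ _) hkN⟩
    have h3 := card_le_card h2
    have hi' : i ∉ ins s f N := fun h => hiN (mem_filter.1 h).2
    have hj' : j ∉ insert i (ins s f N) := by
      rw [mem_insert]
      rintro (h | h)
      · exact hne' h
      · exact hjN (mem_filter.1 h).2
    rw [card_insert_of_notMem hj', card_insert_of_notMem hi'] at h3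
    omega
  -- the count
  have hfin : Fintype (G ⧸ N) := Fintype.ofFinite _
  have hcount : (outs s f N ×ˢ (univ : Finset Bool)).card ≤
      ((univ : Finset (G ⧸ N)).erase 0).card := by
    apply card_le_card_of_injOn
      (fun r => if r.2 then (QuotientAddGroup.mk (f r.1) : G ⧸ N) else QuotientAddGroup.mk (- f r.1))
    · rintro ⟨i, b⟩ hr
      rw [mem_coe, mem_product] at hr
      obtain ⟨-, hiN⟩ := mem_filter.1 hr.1
      rw [mem_coe, mem_erase]
      refine ⟨?_, mem_univ _⟩
      cases b
      · simp only [Bool.false_eq_true, if_false]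
        intro h
        have h' := (QuotientAddGroup.eq_zero_iff _).1 h
        exact hiN (by simpa using N.neg_mem h')
      · simp only [if_true]
        intro h
        exact hiN ((QuotientAddGroup.eq_zero_iff _).1 h)
    · rintro ⟨i, b⟩ hr ⟨j, c⟩ hr' heq
      rw [mem_coe, mem_product] at hr hr'
      have hi := hr.1
      have hj := hr'.1
      simp only at hi hj
      have hiN := (mem_filter.1 hi).2
      have hz : ∀ k : ℤ, k • f i ∈ N ⊔ AddSubgroup.zmultiples (f i) := fun k =>
        (le_sup_right : AddSubgroup.zmultiples (f i) ≤ _) (AddSubgroup.zsmul_mem_zmultiples _ _)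
      have hz1 : f i ∈ N ⊔ AddSubgroup.zmultiples (f i) := by simpa using hz 1
      have hcon : - f i + - f i ∉ N := by
        intro h
        apply hiN
        have h2 := N.add_mem (h3N (f i)) h
        have e : 3 • f i + (- f i + - f i) = f i := by
          rw [succ_nsmul, succ_nsmul, one_nsmul]
          abel
        rwa [e] at h2
      cases b <;> cases c <;> simp only [Bool.false_eq_true, if_false, if_true] at heq <;>
        rw [QuotientAddGroup.eq] at heq
      · have h1 : f j ∈ N ⊔ AddSubgroup.zmultiples (f i) := by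
          have h2 := (N ⊔ AddSubgroup.zmultiples (f i)).sub_mem hz1
            ((le_sup_left : N ≤ N ⊔ AddSubgroup.zmultiples (f i)) heq)
          have e : f i - (- -f i + -f j) = f j := by abel
          rwa [e] at h2
        rw [huniq i hi j hj h1]
      · exfalso
        have h1 : f j ∈ N ⊔ AddSubgroup.zmultiples (f i) := by
          have h2 := (N ⊔ AddSubgroup.zmultiples (f i)).sub_mem
            ((le_sup_left : N ≤ N ⊔ AddSubgroup.zmultiples (f i)) heq) hz1
          have e : - -f i + f j - f i = f j := by abel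
          rwa [e] at h2
        rw [huniq i hi j hj h1] at heq
        apply hcon
        have h2 := N.neg_mem heq
        have e : -(- -f i + f i) = - f i + - f i := by abel
        rwa [e] at h2
      · exfalso
        have h1 : f j ∈ N ⊔ AddSubgroup.zmultiples (f i) := by
          have h2 := (N ⊔ AddSubgroup.zmultiples (f i)).neg_mem
            ((N ⊔ AddSubgroup.zmultiples (f i)).add_mem
            ((le_sup_left : N ≤ N ⊔ AddSubgroup.zmultiples (f i)) heq) hz1)
          have e : -(-f i + -f j + f i) = f j := by abel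
          rwa [e] at h2
        rw [huniq i hi j hj h1] at heq
        exact hcon heq
      · have h1 : f j ∈ N ⊔ AddSubgroup.zmultiples (f i) := by
          have h2 := (N ⊔ AddSubgroup.zmultiples (f i)).add_mem
            ((le_sup_left : N ≤ N ⊔ AddSubgroup.zmultiples (f i)) heq) hz1
          have e : -f i + f j + f i = f j := by abel
          rwa [e] at h2
        rw [huniq i hi j hj h1]
  rw [card_product, card_erase_of_mem (mem_univ _), card_univ, card_univ, Fintype.card_bool,
    ← Nat.card_eq_fintype_card (α := G ⧸ N), ← N.index_eq_card] at hcount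
  have hsum : (ins s f N).card + (outs s f N).card = t := by
    rw [← hst]
    unfold ins outs
    exact card_filter_add_card_filter_not _
  have hNM : (ins s f N).card ≤ (ins s f M).card := by
    apply card_le_card
    intro i hi
    obtain ⟨his, hiN⟩ := mem_filter.1 hi
    rw [hN] at hiN
    exact mem_filter.2 ⟨his, hiN.1⟩
  have hm := hIx M hM3
  omega

theorem thm_NzF : SDG.St_Nm1 → SDG.St_Ba1 → SDG.St_Kn → SDG.St_Sm → SSE.St_B3E → St_IxF →
    St_NzF := by
  intro hNm1 hBa1 hKn hSm hB3 hIx G ι _ _ t s X f M M' hCtx ht9 hM3 hM'3 hne hXM hXAS hn1 hn2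
  have hIx3 : ∀ K : AddSubgroup G, K.index = 3 → (ins s f K).card + 1 ≤ (t + 1) / 2 :=
    fun K hK => (hIx G ι t s f K hCtx ht9 (by rw [hK]; exact Nat.prime_three)).2.1 hK
  obtain ⟨hPR, -, hR2, -, hst, hnz, hcap, hap, hgen, hvio⟩ := hCtx
  obtain ⟨-, -, hcf, -, -, -⟩ := hNm1
  obtain ⟨hB1, hBsub, -, -, hBinv, -, -⟩ := hBa1 G ι f
  have hXs : X ⊆ s := hXM.trans (filter_subset _ _)
  have hXm : ∀ i ∈ X, f i ∈ M := fun i hi => (mem_filter.1 (hXM hi)).2
  have hnm : X.card ≤ (ins s f M).card := card_le_card hXM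
  have hm := hIx3 M hM3
  by_contra hcon
  have hAE : ∀ v ⊆ X, AE v f := by
    intro v hv
    refine ⟨⟨fun i hi => hXAS.1 i (hv hi), P1_cap_mono le_rfl hv hXAS.2⟩, fun i hi h => ?_⟩
    exact hBinv s i (hXs (hv hi)) hap (hXAS.1 i (hv hi)) (eq_neg_of_add_eq_zero_left h)
  have hcapsub : ∀ v ⊆ s, Cap 2 v f := fun v hv => P1_cap_mono le_rfl hv hcap
  have hPRv : ∀ v ⊆ s, v.card < t → cf 2 v.card ≤ (FS v f).card := fun v hv hvt =>
    hPR v.card hvt G ι v f hR2 rfl (fun i hi => hnz i (hv hi)) (hcapsub v hv) (hBsub s v hv hap)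
  rcases Nat.eq_zero_or_pos (outs X f M').card with h0 | hpos
  · refine NzF_zero t s X f M M' hM3 hM'3 hne ht9 hst ?_ hn1 hIx3
    intro i hi
    have hiM' : f i ∈ M' := by
      by_contra h
      rw [card_eq_zero] at h0
      have h1 : i ∈ outs X f M' := mem_filter.2 ⟨hi, h⟩
      rw [h0] at h1
      exact notMem_empty _ h1
    exact mem_filter.2 ⟨hXs hi, ⟨hXm i hi, hiM'⟩⟩
  · -- the members of `X` in `M'`
    have hsplit : ins X f M' ∪ outs X f M' = X := by
      unfold ins outs
      exact filter_union_filter_not_eq _ _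
    have hdis : Disjoint (ins X f M') (outs X f M') := by
      rw [disjoint_left]
      exact fun i hi hi2 => (mem_filter.1 hi2).2 (mem_filter.1 hi).2
    have hcard : (ins X f M').card + (outs X f M').card = X.card := by
      rw [← card_union_of_disjoint hdis, hsplit]
    have hz : (ins X f M').card = X.card - (outs X f M').card := by omega
    have hXt : X.card < t := by omega
    have hinsX : ins X f M' ⊆ X := filter_subset _ _
    have hy3 : X.card - (outs X f M').card ≤ 3 →
        2 + (X.card - (outs X f M').card) * (X.card - (outs X f M').card + 1) ≤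
          2 * (FS (ins X f M') f).card := by
      intro h
      rw [← hz] at h ⊢
      exact hB3 G ι _ f (hAE _ hinsX) h
    have hyc : cf 2 (X.card - (outs X f M').card) ≤ (FS (ins X f M') f).card := by
      rw [← hz]
      exact hPRv _ (hinsX.trans hXs) (by omega)
    have hx : ((outs X f M').card + 1) * (FS (ins X f M') f).card ≤ (FS X f).card := by
      have h1 := NzF_classes f M' (by rw [hM'3]; exact Nat.prime_three) (outs X f M')
        (fun i hi => (mem_filter.1 hi).2) (by omega)
      have h2 := NzF_mul (ins X f M') (outs X f M') f M' hdis (fun i hi => (mem_filter.1 hi).2)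
      rw [hsplit] at h2
      exact (Nat.mul_le_mul_right _ h1).trans h2
    have hx3 : X.card ≤ 3 → 2 + X.card * (X.card + 1) ≤ 2 * (FS X f).card := fun h =>
      hB3 G ι X f (hAE X (Subset.refl _)) h
    have hnum := NzF_num hcf t (ins s f M).card X.card (outs X f M').card
      (FS (ins X f M') f).card (FS X f).card ht9 hm hn1 hn2 hnm hpos (by omega) hy3 hyc hx hx3
    -- the members in `M`
    have hF : (FS X f).card + ((ins s f M).card - X.card) ≤ (FS (ins s f M) f).card := by
      have hd : Disjoint X (ins s f M \ X) := disjoint_sdiff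
      have h1 := hB1 X (ins s f M \ X) hd
      rw [union_sdiff_of_subset hXM] at h1
      have hsub : ins s f M \ X ⊆ s := sdiff_subset.trans (filter_subset _ _)
      have h2 := (hKn G).1 (FS X f) (FS (ins s f M \ X) f) ⟨0, zero_mem_FS _ _⟩
        ⟨0, zero_mem_FS _ _⟩ (by rw [← h1]; exact hBsub s _ (filter_subset _ _) hap)
      rw [← h1] at h2
      have h3 := (hSm G ι (ins s f M \ X) f (fun i hi => hnz i (hsub hi))
        (hBsub s _ hsub hap)).1
      rw [card_sdiff_of_subset hXM] at h3
      omega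
    -- two members outside `M`
    have hsplit' : ins s f M ∪ outs s f M = s := by
      unfold ins outs
      exact filter_union_filter_not_eq _ _
    have hdis' : Disjoint (ins s f M) (outs s f M) := by
      rw [disjoint_left]
      exact fun i hi hi2 => (mem_filter.1 hi2).2 (mem_filter.1 hi).2
    have hcard' : (ins s f M).card + (outs s f M).card = t := by
      rw [← card_union_of_disjoint hdis', hsplit', hst]
    obtain ⟨R, hRO, hRc⟩ := exists_subset_card_eq (show 2 ≤ (outs s f M).card by omega)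
    have hIR : Disjoint (ins s f M) R := hdis'.mono_right hRO
    have h1 := NzF_classes f M (by rw [hM3]; exact Nat.prime_three) R
      (fun i hi => (mem_filter.1 (hRO hi)).2) (by omega)
    have h2 := NzF_mul (ins s f M) R f M hIR (fun i hi => (mem_filter.1 hi).2)
    rw [hRc] at h1
    have h3 : 3 * (FS (ins s f M) f).card ≤ (FS (ins s f M ∪ R) f).card :=
      (Nat.mul_le_mul_right _ h1).trans h2
    have hd : Disjoint (ins s f M ∪ R) (outs s f M \ R) := by
      rw [disjoint_union_left]
      exact ⟨hdis'.mono_right sdiff_subset, disjoint_sdiff⟩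
    have hun : (ins s f M ∪ R) ∪ (outs s f M \ R) = s := by
      rw [union_assoc, union_sdiff_of_subset hRO, hsplit']
    have h4 := hB1 (ins s f M ∪ R) (outs s f M \ R) hd
    rw [hun] at h4
    have h5 := (hKn G).1 (FS (ins s f M ∪ R) f) (FS (outs s f M \ R) f) ⟨0, zero_mem_FS _ _⟩
      ⟨0, zero_mem_FS _ _⟩ (by rw [← h4]; exact hap)
    rw [← h4] at h5
    have hOR : (outs s f M \ R).card = t - (ins s f M).card - 2 := by
      rw [card_sdiff_of_subset hRO, hRc]
      omega
    have h6 := hPRv (outs s f M \ R) (sdiff_subset.trans (filter_subset _ _)) (by omega)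
    rw [hOR] at h6
    omega

end Pool.Agent.SSX
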