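import Pool.Agent.SSX.St

/-!
# SSX (copied from Pool/Agent/SSF/OdF.lean), module OdF: the odd step
-/

set_option autoImplicit false

open Finset Pool.Agent.Helper64.Rho Pool.Agent.SDG Pool.Agent.MDR Pool.Agent.SSC Pool.Agent.SSE Pool.Agent.SSF
open scoped Classical Pointwise

namespace Pool.Agent.SSX

private theorem OdF_outs {G ι : Type} [AddCommGroup G] (u : Finset ι) (f : ι → G) :
    outs u f (gen u f) = ∅ := by
  refine Finset.filter_eq_empty_iff.2 fun j hj => ?_
  rw [not_not]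
  exact AddSubgroup.subset_closure ⟨j, Finset.mem_coe.2 hj, rfl⟩

private theorem OdF_AE {G ι : Type} [AddCommGroup G] (hB : SDG.St_Ba1) {s u : Finset ι} {f : ι → G}
    (hus : u ⊆ s) (hap : Aper (FS s f)) (hA : AS u f) : AE u f := by
  refine ⟨hA, fun i hi h => ?_⟩
  exact (hB G ι f).2.2.2.2.1 s i (hus hi) hap (hA.1 i hi) (eq_neg_of_add_eq_zero_left h)

private theorem OdF_AS {G ι : Type} [AddCommGroup G] {u v : Finset ι} {f : ι → G} (hvu : v ⊆ u)
    (hA : AS u f) : AS v f :=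
  ⟨fun i hi => hA.1 i (hvu hi), fun x => (card_le_card (filter_subset_filter _ hvu)).trans (hA.2 x)⟩

private theorem OdF_DC {G ι : Type} [AddCommGroup G] [Finite G] (hSR : St_SRF) {t : ℕ} {s u : Finset ι}
    {f : ι → G} (hC : CtxF t s f) (hus : u ⊆ s) (hA : AS u f) : DC u f := by
  intro K c hK hcc hn
  exact (hSR G ι t s u f K c hC hus hA hK hcc hn).1

private theorem OdF_gen {G ι : Type} [AddCommGroup G] {u : Finset ι} {f : ι → G}
    (h : ∀ M : AddSubgroup G, M ≠ ⊤ → 1 ≤ (outs u f M).card) : gen u f = ⊤ := by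
  by_contra hne
  have h1 := h _ hne
  rw [OdF_outs] at h1
  simp at h1

private theorem OdF_it1 {G : Type} [AddCommGroup G] (D : Finset G) : it D 1 = D := by
  change ({0} : Finset G) + D = D
  ext x
  simp [Finset.mem_add]

/-- an exceptional part contains the only member of the whole family in its group of order 3 -/
private theorem OdF_K {G ι : Type} [AddCommGroup G] [Finite G] (hSR : St_SRF) (hRg : St_RgF) {t : ℕ}
    {s u v : Finset ι} {f : ι → G} {K : AddSubgroup G} {a : ℕ} (hC : CtxF t s f) (hus : u ⊆ s)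
    (hvs : v ⊆ s) (hd : Disjoint u v) (hA : AS u f) (hN : 9 ≤ Nat.card G) (hK : KAP u f K a) :
    ∀ i ∈ v, f i ∉ K := by
  have hcK : Nat.card K = 3 := hK.1
  have hidx : 3 ≤ K.index := by
    have h1 := AddSubgroup.card_mul_index K
    rw [hcK] at h1
    omega
  obtain ⟨c, hcc, h3⟩ := hRg.2.2 G ι u f K a hidx hK
  have hKb : K ≠ ⊥ := by
    rintro rfl
    rw [AddSubgroup.card_bot] at hcK
    omega
  have h4 := ((hSR G ι t s u f K c hC hus hA hKb hcc (by rw [hcK]; omega)).2 hcK).1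
  have h5 : (ins u f K).card = 1 := hK.2.1
  intro i hi hiK
  have h6 : ins u f K ⊆ ins s f K := Finset.filter_subset_filter _ hus
  have h7 : ins u f K = ins s f K := Finset.eq_of_subset_of_card_le h6 (by rw [h4, h5])
  have h8 : i ∈ ins s f K := Finset.mem_filter.2 ⟨hvs hi, hiK⟩
  rw [← h7] at h8
  exact Finset.disjoint_left.1 hd (Finset.mem_filter.1 h8).1 hi

theorem thm_OdF : SDG.St_Nm1 → SDG.St_Kn → SDG.St_Ba1 → SSE.St_SyE → St_A1X → St_DrF → St_BnF → St_SRF →
    St_RgF → SSE.St_KxE → SSE.St_KeE → SSE.St_KgE → SSF.St_KgF → SSF.St_GmF → St_GrF → St_HoF → St_DrO → St_OdF := by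
  intro hNm hKn hBa hSy hA1 hDr hBn hSR hRg hKx hKe hKg hKgF hGm hGr hHo hDO hCC G ι _ _ l s f hl hCtx
  obtain ⟨m, rfl⟩ : ∃ m, l = m + 1 := ⟨l - 1, by omega⟩
  obtain ⟨t, ht⟩ : ∃ t, t = 2 * (m + 1) - 1 := ⟨_, rfl⟩
  rw [← ht] at hCtx
  have hC := hCtx
  obtain ⟨hPE, hTT, hrk, hcyc, hsc, hne, hcap, hAper, hgen, hlt⟩ := hC
  obtain ⟨s1, s2, hd, hun, hAS1, hAS2, hc1, hc2, hout, hsep1, hsep2⟩ := hHo G ι t s f hCtx (by omega)
  have hc1' : s1.card = m + 1 := by omega
  have hc2' : s2.card = m := by omega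
  -- numbers
  obtain ⟨q, hq⟩ : ∃ q, q = m * (m + 1) := ⟨_, rfl⟩
  have e1 : (m + 1) * (m + 1 + 1) = q + 2 * m + 2 := by rw [hq]; ring
  have e2 : (m + 1) * (m + 1 - 1) = q := by rw [hq, Nat.add_sub_cancel]; ring
  have e3 : m * m + 2 * m = q + m := by rw [hq]; ring
  have hq20 : 20 ≤ q := by
    rw [hq]
    exact Nat.mul_le_mul (show 4 ≤ m by omega) (show 5 ≤ m + 1 by omega)
  have ecf : cf 2 t = q + m + 2 := by
    have h1 : (2 * (m + 1)) ^ 2 = 4 * ((m + 1) ^ 2) := by ring
    rw [hNm.2.2.1 t, show t + 1 = 2 * (m + 1) by omega, h1,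
      Nat.mul_div_cancel_left _ (by norm_num), hq]
    ring
  have ecf' : cf 2 (t - 1) = q + 1 := by
    have h1 : (2 * m + 1) ^ 2 = 4 * q + 1 := by rw [hq]; ring
    rw [hNm.2.2.1 (t - 1), show t - 1 + 1 = 2 * m + 1 by omega, h1]
    omega
  -- the two halves
  have hs1 : s1 ⊆ s := by
    rw [← hun]
    exact subset_union_left
  have hs2 : s2 ⊆ s := by
    rw [← hun]
    exact subset_union_right
  have hA1p : Aper (FS s1 f) := (hBa G ι f).2.1 s s1 hs1 hAper
  have hA2p : Aper (FS s2 f) := (hBa G ι f).2.1 s s2 hs2 hAper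
  have hE1 := OdF_AE hBa hs1 hAper hAS1
  have hE2 := OdF_AE hBa hs2 hAper hAS2
  have hR1 := OdF_DC hSR hCtx hs1 hAS1
  have hR2 := OdF_DC hSR hCtx hs2 hAS2
  have hg1 : gen s1 f = ⊤ := OdF_gen fun M hM => (hout M hM).1
  have hg2 : gen s2 f = ⊤ := OdF_gen fun M hM => (hout M hM).2
  obtain ⟨hC1, hC2⟩ := hCC m (by omega) fun n hn => hPE n (by omega)
  have hFS : FS s f = FS s1 f + FS s2 f := by
    rw [← hun]
    exact (hBa G ι f).1 s1 s2 hd
  have hX0 : (FS s1 f).Nonempty := ⟨0, zero_mem_FS _ _⟩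
  have hX20 : (FS s2 f).Nonempty := ⟨0, zero_mem_FS _ _⟩
  have hAp12 : Aper (FS s1 f + FS s2 f) := by
    rw [← hFS]
    exact hAper
  have hk1 := (hKn G).1 _ _ hX0 hX20 hAp12
  rw [← hFS] at hk1
  have hs1ne : s1.Nonempty := Finset.card_pos.1 (by omega)
  have htb : (⊤ : AddSubgroup G) ≠ ⊥ := by
    intro h
    obtain ⟨i, hi⟩ := hs1ne
    have h1 : f i ∈ (⊤ : AddSubgroup G) := AddSubgroup.mem_top _
    rw [h] at h1
    exact hAS1.1 i hi (AddSubgroup.mem_bot.1 h1)
  have hk2 : (FS s1 f).card + (FS s2 f).card ≤ Nat.card G := by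
    have h1 := (hKn G).2.1 (FS s1 f) (FS s2 f) ⊤ hX0 hX20 htb
      (fun _ _ => AddSubgroup.mem_top _) (fun _ _ => AddSubgroup.mem_top _) hAp12
    rwa [AddSubgroup.card_top] at h1
  have hN := hBn G ι t s f hCtx (by omega)
  rw [ecf'] at hN
  rw [ecf] at hlt
  -- (i)
  have hi : 2 + q ≤ 2 * (FS s2 f).card := by
    by_cases h : 2 * (FS s2 f).card ≤ Nat.card G
    · rcases hC1 G ι s2 f hrk hcyc hc2' hE2 hA2p hg2 hR2 hsep2 h with h1 | ⟨K, a, hK⟩
      · rw [← hq] at h1
        exact h1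
      · by_cases h3 : s2.card = 3 * a + 1
        · exfalso
          have h4 := hKgF G ι s2 s1 f K a hd.symm hE2 hE1
            (by rw [Finset.union_comm, hun]; exact hAper) hK
            h3 (OdF_K hSR hRg hCtx hs2 hs1 hd.symm hAS2 (by omega) hK) (by omega)
          rw [Finset.union_comm, hun, show s2.card + s1.card = t by omega, ecf] at h4
          omega
        · have h4 := (hKe G ι s2 f K a hE2 hA2p hK (Or.inr h)).2 h3
          rw [hc2', ← hq] at h4
          exact h4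
    · omega
  -- (ii)
  have hii : 2 * (FS s1 f).card ≤ q + 2 * m + 2 := by omega
  -- (iii)
  have hexc : ¬ Exc f s1 := by
    rintro ⟨K, a, hK⟩
    by_cases h3 : s1.card = 3 * a + 1
    · have h4 := hKg G ι s1 s2 f K a hd hE1 hE2 (by rw [hun]; exact hAper) hK h3
        (OdF_K hSR hRg hCtx hs1 hs2 hd hAS1 (by omega) hK) (Or.inr ⟨by omega, by omega⟩)
      rw [hun, show s1.card + s2.card = t by omega, ecf] at h4
      omega
    · have h4 := (hKe G ι s1 f K a hE1 hA1p hK (Or.inl (by rw [hc1', e2]; omega))).2 h3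
      rw [hc1', e1] at h4
      omega
  -- (iv)
  have hout3 : ∀ M : AddSubgroup G, M ≠ ⊤ → M.index ≠ 2 → 3 ≤ (outs s1 f M).card := by
    intro M hM hM2
    have h1 := hsep1 M hM hM2
    have h2 := hDr G ι s1 f M (fun n hn => hPE n (by omega)) hrk hE1 hA1p hg1 (by omega)
      (by rw [hc1', e1]; omega) hM2
    omega
  have hoc : ∀ i ∈ s1, ∀ M : AddSubgroup G, (outs s1 f M).card ≤ (outs (s1.erase i) f M).card + 1 := by
    intro i hi M
    have h4 : outs s1 f M ⊆ insert i (outs (s1.erase i) f M) := by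
      intro j hj
      rw [Finset.mem_insert]
      by_cases hji : j = i
      · exact Or.inl hji
      · have h5 := Finset.mem_filter.1 hj
        exact Or.inr (Finset.mem_filter.2 ⟨Finset.mem_erase.2 ⟨hji, h5.1⟩, h5.2⟩)
    exact (Finset.card_le_card h4).trans (Finset.card_insert_le _ _)
  have hSep' : ∀ i ∈ s1, Sep (s1.erase i) f := by
    intro i hi M hM hM2
    have h3 := hout3 M hM hM2
    have h4 := hoc i hi M
    omega
  have hASE : ∀ i ∈ s1, AS (s1.erase i) f := fun i _ => OdF_AS (Finset.erase_subset _ _) hAS1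
  have hEE : ∀ i ∈ s1, AE (s1.erase i) f := fun i hi =>
    OdF_AE hBa ((Finset.erase_subset _ _).trans hs1) hAper (hASE i hi)
  have hRE : ∀ i ∈ s1, DC (s1.erase i) f := fun i hi =>
    OdF_DC hSR hCtx ((Finset.erase_subset _ _).trans hs1) (hASE i hi)
  have hApE : ∀ i ∈ s1, Aper (FS (s1.erase i) f) := fun i _ =>
    (hBa G ι f).2.1 s1 _ (Finset.erase_subset _ _) hA1p
  have hcE : ∀ i ∈ s1, (s1.erase i).card = m := by
    intro i hi
    rw [Finset.card_erase_of_mem hi, hc1', Nat.add_sub_cancel]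
  have hexc' : ∀ i ∈ s1, ¬ Exc f (s1.erase i) := by
    rintro i hi ⟨K, a, hK⟩
    rcases hKx G ι s1 f K a i hE1 hA1p hi hK (Or.inl (by rw [hc1', e2]; omega)) with h | h
    · exact hexc h
    · rw [hc1', e1] at h
      omega
  have hlow : ∀ i ∈ s1, gen (s1.erase i) f = ⊤ → 2 + q ≤ 2 * (FS (s1.erase i) f).card := by
    intro i hi hgi
    by_cases h : 2 * (FS (s1.erase i) f).card ≤ Nat.card G
    · rcases hC1 G ι (s1.erase i) f hrk hcyc (hcE i hi) (hEE i hi) (hApE i hi) hgi (hRE i hi)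
        (hSep' i hi) h with h1 | h1
      · rw [← hq] at h1
        exact h1
      · exact absurd h1 (hexc' i hi)
    · omega
  have hlam : ∀ i ∈ s1, gen (s1.erase i) f = ⊤ → lam (FS s1 f) (f i) + 2 ≤ m + 1 := by
    intro i hi hgi
    by_contra hcon
    have h1 := (hBa G ι f).2.2.1 s1 i hi
    have h2 := hlow i hi hgi
    have h3 : 2 * (FS (s1.erase i) f).card = 2 + q := by omega
    have h5 : 2 * (FS (s1.erase i) f).card ≤ Nat.card G := by omega
    rcases hC2 G ι (s1.erase i) f hrk hcyc (hcE i hi) (hEE i hi) (hApE i hi) hgi (hRE i hi)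
      (hSep' i hi) h5 (by rw [e3]; omega) with h6 | h6 | ⟨K, h6⟩
    · rw [← hq] at h6
      omega
    · exact hexc' i hi h6
    · have h7 : m = 5 := by
        have h8 := h6.2.1
        rw [hcE i hi] at h8
        exact h8
      have h8 : q = 30 := by rw [hq, h7]
      have h9 := hGm G ι s1 f i K hE1 hA1p hi h6 (by omega)
      omega
  -- the lower bound for the first half
  have hXlow : 2 + q ≤ 2 * (FS s1 f).card := by
    by_contra hcon
    have h1 : 2 * (FS s1 f).card ≤ Nat.card G := by omega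
    rcases (hCC (m + 1) (by omega) fun n hn => hPE n (by omega)).1 G ι s1 f hrk hcyc hc1' hE1 hA1p hg1 hR1 hsep1
      h1 with h2 | h2
    · rw [e1] at h2
      omega
    · exact hexc h2
  -- the drop case
  have hgenE : ∀ i ∈ s1, gen (s1.erase i) f = ⊤ := by
    by_contra hcon
    push Not at hcon
    obtain ⟨i0, hi0, hgi0⟩ := hcon
    have hidx : (gen (s1.erase i0) f).index = 2 := by
      by_contra h2
      have h3 := hsep1 _ hgi0 h2
      have h4 := hoc i0 hi0 (gen (s1.erase i0) f)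
      rw [OdF_outs] at h4
      simp only [Finset.card_empty] at h4
      omega
    refine hDO G ι s1 f i0 (fun n hn => hPE n (by omega)) hE1 hA1p hg1 (by omega) hi0 hidx ?_ ?_ ?_ ?_
    · intro i hi hgi
      rw [hc1']
      exact hlam i hi hgi
    · rw [hc1', e1]
      exact hii
    · rw [hc1', e2]
      exact hXlow
    · rw [hc1', e2]
      omega
  obtain ⟨hSc, hS0, hSn, hScl, hSl, -, -⟩ := hSy G ι s1 f hE1
  have hlamD : ∀ y ∈ sym s1 f, lam (FS s1 f) y + 2 ≤ m + 1 := by
    intro y hy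
    have h1 := hSl (FS s1 f) (m - 1) (fun i hi => by
      have h2 := hlam i hi (hgenE i hi)
      omega) y hy
    omega
  -- (v)
  have hN4 : s1.card * (s1.card - 1) + 2 ≤ Nat.card G := by
    rw [hc1', e2]
    omega
  have hgrow : ∀ i, 1 ≤ i → (∃ τ : ℕ, KAU.TolP (m + 1) τ ∧ Nat.card G ≤ (it (sym s1 f) i).card + τ) ∨
      i * (2 * (m + 1) + 2) ≤ (it (sym s1 f) i).card + 2 := by
    rcases hGr G ι s1 f hrk hcyc hE1 hA1p hg1 (by omega) hR1 hN4 (Or.inl (by rw [hc1', e2]; omega)) with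
      h | ⟨K, -, h⟩ | h | h
    · exact absurd h hexc
    · rw [hc1', e1] at h
      omega
    · rw [hc1', e1] at h
      omega
    · intro i hi
      rw [hc1'] at h
      rcases h i hi with h3 | h3 | ⟨h3, h4⟩
      · exact Or.inl h3
      · right
        omega
      · right
        subst h3
        omega
  -- (vi)
  by_cases h : 2 * (FS s1 f).card ≤ Nat.card G
  · refine hA1 G (FS s1 f) (sym s1 f) (m + 1) hS0 (by omega) hlamD (by rw [e2]; exact hXlow)
      (by rw [e1]; exact hii) fun i hi => ?_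
    rcases hgrow i hi with ⟨τ, hτ, h1⟩ | h1
    · exact Or.inl ⟨τ, hτ, by omega⟩
    · exact Or.inr h1
  · have : Fintype G := Fintype.ofFinite G
    have hcc : ((FS s1 f)ᶜ).card = Nat.card G - (FS s1 f).card := by
      rw [Finset.card_compl, Nat.card_eq_fintype_card]
    refine hA1 G (FS s1 f)ᶜ (sym s1 f) (m + 1) hS0 (by omega) (fun y hy => ?_)
      (by rw [e2, hcc]; omega) (by rw [e1, hcc]; omega) fun i hi => ?_
    · rw [lam_compl]
      exact hlamD y hy
    · rcases hgrow i hi with ⟨τ, hτ, h1⟩ | h1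
      · left
        rw [hcc]
        exact ⟨τ, hτ, by omega⟩
      · exact Or.inr h1

end Pool.Agent.SSX
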