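import Pool.Agent.SSX.St

/-!
# SSX, module P1X (MP_ec93d3_co): best splitting for index 2
-/

set_option autoImplicit false

noncomputable section

open Finset Pool.Agent.Helper64.Rho Pool.Agent.SDG Pool.Agent.MDR Pool.Agent.SSC Pool.Agent.SSE Pool.Agent.SSF
open scoped Classical Pointwise

namespace Pool.Agent.SSX

/-- the number of subgroups of index 2 containing all members of `p` -/
private def P1X_n {G ι : Type} [AddCommGroup G] (p : Finset ι) (f : ι → G) : ℕ :=
  Set.ncard {M : AddSubgroup G | M.index = 2 ∧ ∀ i ∈ p, f i ∈ M}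

private theorem P1X_sym {G ι : Type} [AddCommGroup G] {s p r : Finset ι} {f : ι → G} (h : Spl s p r f) :
    Spl s r p f :=
  ⟨h.1.symm, by rw [union_comm]; exact h.2.1, h.2.2.2.1, h.2.2.1, h.2.2.2.2.2, h.2.2.2.2.1⟩

/-- exchange of a member which is not a coloop -/
private theorem P1X_sub {G ι : Type} [AddCommGroup G] (p : Finset ι) (f : ι → G) (x y : ι) (h : ¬ Clp p f x) :
    {M : AddSubgroup G | M.index = 2 ∧ ∀ i ∈ insert y (p.erase x), f i ∈ M} ⊆
      {M : AddSubgroup G | M.index = 2 ∧ ∀ i ∈ p, f i ∈ M} := by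
  rintro M ⟨h2, h3⟩
  refine ⟨h2, fun i hi => ?_⟩
  by_cases hix : i = x
  · subst hix
    by_contra h4
    exact h ⟨M, h2, h4, fun j hj => h3 j (mem_insert_of_mem hj)⟩
  · exact h3 i (mem_insert_of_mem (mem_erase.2 ⟨hix, hi⟩))

theorem thm_P1X (hSw : St_SwX) (hP1 : St_P1s) : St_P1X := by
  intro G ι _ _ t s f hC ht
  have key : ∀ (p r : Finset ι) (M : AddSubgroup G), Spl s p r f → M.index = 2 → (∀ i ∈ p, f i ∈ M) →
      ∃ p' r' : Finset ι, Spl s p' r' f ∧ p'.card = p.card ∧ r'.card = r.card ∧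
        P1X_n p' f < P1X_n p f ∧ P1X_n r' f ≤ P1X_n r f := by
    intro p r M hS hM hp
    obtain ⟨x, hx, y, hy, h1, h2, h3, h4, h5⟩ := hP1 G ι t s p r f M hC ht hS hM hp
    obtain ⟨g1, g2, g3, -, -⟩ := hSw.2 G ι s p r f x y hS hx hy h4 h5
    refine ⟨insert y (p.erase x), insert x (r.erase y), g1, g2, g3, ?_, ?_⟩
    · refine Set.ncard_lt_ncard ⟨P1X_sub p f x y h2, fun hsub => ?_⟩ (Set.toFinite _)
      have h6 : M ∈ {M : AddSubgroup G | M.index = 2 ∧ ∀ i ∈ insert y (p.erase x), f i ∈ M} := hsub ⟨hM, hp⟩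
      exact h1 (h6.2 y (mem_insert_self _ _))
    · exact Set.ncard_le_ncard (P1X_sub r f y x h3) (Set.toFinite _)
  have main : ∀ (n : ℕ) (p r : Finset ι), Spl s p r f → p.card = (t + 1) / 2 → P1X_n p f + P1X_n r f = n →
      ∃ p r : Finset ι, Spl s p r f ∧ p.card = (t + 1) / 2 ∧
        ∀ M : AddSubgroup G, M.index = 2 → (∃ i ∈ p, f i ∉ M) ∧ ∃ i ∈ r, f i ∉ M := by
    intro n
    induction n using Nat.strong_induction_on with
    | _ n ih =>
      intro p r hS hc hn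
      by_cases hg : ∀ M : AddSubgroup G, M.index = 2 → (∃ i ∈ p, f i ∉ M) ∧ ∃ i ∈ r, f i ∉ M
      · exact ⟨p, r, hS, hc, hg⟩
      · push Not at hg
        obtain ⟨M, hM, hM2⟩ := hg
        by_cases hp : ∀ i ∈ p, f i ∈ M
        · obtain ⟨p', r', k1, k2, -, k4, k5⟩ := key p r M hS hM hp
          exact ih (P1X_n p' f + P1X_n r' f) (by omega) p' r' k1 (k2.trans hc) rfl
        · have hr : ∀ i ∈ r, f i ∈ M := by
            push Not at hp
            exact hM2 hp
          obtain ⟨r', p', k1, -, k3, k4, k5⟩ := key r p M (P1X_sym hS) hM hr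
          exact ih (P1X_n p' f + P1X_n r' f) (by omega) p' r' (P1X_sym k1) (k3.trans hc) rfl
  obtain ⟨-, -, -, -, hcard, h0, hcap, -⟩ := hC
  obtain ⟨p, r, hS, hc⟩ := hSw.1 G ι s f h0 hcap
  exact main _ p r hS (by rw [hc, hcard]) rfl

end Pool.Agent.SSX
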