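import Pool.Agent.SSX.St
import Pool.Agent.SDG.Ba1

/-!
# SSX: a part contained in a subgroup of index two, exchange
-/

set_option autoImplicit false

noncomputable section

open Finset Pool.Agent.Helper64.Rho Pool.Agent.SDG Pool.Agent.MDR Pool.Agent.SSC Pool.Agent.SSE Pool.Agent.SSF
open scoped Classical Pointwise

namespace Pool.Agent.SSX

private theorem P1s_inj {G ι : Type} [AddCommGroup G] {p : Finset ι} {f : ι → G} (h : AS p f)
    {i j : ι} (hi : i ∈ p) (hj : j ∈ p) (hij : f i = f j ∨ f i = - f j) : i = j := by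
  have h1 := h.2 (f j)
  by_contra hne
  have h2 : ({i, j} : Finset ι) ⊆ p.filter fun k => f k = f j ∨ f k = - f j := by
    intro k hk
    rw [mem_insert, mem_singleton] at hk
    rw [mem_filter]
    rcases hk with rfl | rfl
    · exact ⟨hi, hij⟩
    · exact ⟨hj, Or.inl rfl⟩
  have h3 := card_le_card h2
  rw [card_pair hne] at h3
  omega

theorem thm_P1s : St_IxF → St_CvX → St_NuX → St_K1X → St_K2X → St_P1s := by
  intro hIx hCv hNu hK1 hK2 G ι _ _ t s p r f M hC ht hS hM hp
  obtain ⟨hdis, hun, hAp, hAr, hc1, hc2⟩ := hS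
  have hS' : Spl s p r f := ⟨hdis, hun, hAp, hAr, hc1, hc2⟩
  obtain ⟨hPR, -, -, -, hst, hne0, hcap, haper, -, -⟩ := id hC
  have hcard : p.card + r.card = t := by
    rw [← card_union_of_disjoint hdis, hun, hst]
  have hps : p ⊆ s := by rw [← hun]; exact subset_union_left
  have hrs : r ⊆ s := by rw [← hun]; exact subset_union_right
  -- many members of `r` are outside `M`
  have hout : outs s f M ⊆ outs r f M := by
    intro i hi
    rw [outs, mem_filter] at hi ⊢
    refine ⟨?_, hi.2⟩
    rw [← hun, mem_union] at hi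
    rcases hi.1 with h | h
    · exact absurd (hp i h) hi.2
    · exact h
  have h4 : 4 ≤ (outs r f M).card :=
    ((hIx G ι t s f M hC ht (by rw [hM]; exact Nat.prime_two)).2.2 hM).trans (card_le_card hout)
  have hio : (ins r f M).card + (outs r f M).card = r.card := by
    unfold ins outs
    exact card_filter_add_card_filter_not (fun i => f i ∈ M)
  -- a member of `p` without partner
  obtain ⟨x, hx, hxr⟩ : ∃ x ∈ p, ∀ j ∈ r, f j ≠ f x ∧ f j ≠ - f x := by
    by_contra hcon
    push Not at hcon
    have hex : ∀ x ∈ p, ∃ j ∈ r, f j = f x ∨ f j = - f x := by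
      intro x hx
      obtain ⟨j, hj, h⟩ := hcon x hx
      refine ⟨j, hj, ?_⟩
      by_cases h1 : f j = f x
      · exact Or.inl h1
      · exact Or.inr (h h1)
    choose! φ hφr hφ using hex
    have h5 : p.card ≤ (ins r f M).card := by
      apply card_le_card_of_injOn φ
      · intro i hi
        have hi' : i ∈ p := hi
        rw [mem_coe, ins, mem_filter]
        refine ⟨hφr i hi', ?_⟩
        rcases hφ i hi' with h | h
        · rw [h]; exact hp i hi'
        · rw [h]; exact M.neg_mem (hp i hi')
      · intro i hi j hj hij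
        have hi' : i ∈ p := hi
        have hj' : j ∈ p := hj
        apply P1s_inj hAp hi' hj'
        rcases hφ i hi' with h | h <;> rcases hφ j hj' with h' | h' <;> rw [hij] at h
        · exact Or.inl (h.symm.trans h')
        · exact Or.inr (h.symm.trans h')
        · right
          rw [← h', h, neg_neg]
        · left
          exact neg_injective (h.symm.trans h')
    omega
  -- a member outside `M`
  obtain ⟨y0, hy0⟩ : (outs r f M).Nonempty := by
    rw [← card_pos]
    omega
  have hy0r : y0 ∈ r := (mem_filter.mp hy0).1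
  have hy0M : f y0 ∉ M := (mem_filter.mp hy0).2
  have hxs : x ∈ s := hps hx
  have hxM : f x ∈ M := hp x hx
  -- `x` is not a coloop
  have hxc : ¬ Clp p f x := by
    rintro ⟨M', hM', hxM', hpM'⟩
    obtain ⟨cv1, cv2, -, cv4, cv5⟩ := hCv
    have hind : (M ⊓ M').index = 4 := by
      have := cv4 G M M' 2 Nat.prime_two hM' (fun h => hxM' (h hxM))
      rw [this, hM]
    have hxy : x ≠ y0 := fun h => hy0M (h ▸ hxM)
    have hcov : ∀ g : G, ∃ z ∈ FS ({x} ∪ {y0}) f, g - z ∈ M ⊓ M' := by
      apply cv1 G ι {x} {y0} f (M ⊓ M') M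
      · rw [disjoint_singleton]
        exact hxy
      · exact cv2 G ι x f M M' hM' hxM hxM'
      · intro g
        obtain ⟨z, hz, hgz⟩ := cv2 G ι y0 f ⊤ M hM (AddSubgroup.mem_top _) hy0M g
          (AddSubgroup.mem_top _)
        exact ⟨z, hz, hgz.2⟩
    have hIs : p.erase x ⊆ s := (erase_subset _ _).trans hps
    have hR2 : ({x} ∪ {y0} : Finset ι).card = 2 := by
      rw [card_union_of_disjoint (disjoint_singleton.mpr hxy), card_singleton, card_singleton]
    have h5 := cv5 G ι t s (p.erase x) ({x} ∪ {y0}) f (M ⊓ M') hC hIs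
      (by
        intro i hi
        rw [mem_union, mem_singleton, mem_singleton] at hi
        rcases hi with rfl | rfl
        · exact hxs
        · exact hrs hy0r)
      (by
        rw [disjoint_left]
        intro i hi hi'
        rw [mem_union, mem_singleton, mem_singleton] at hi'
        rcases hi' with rfl | rfl
        · exact (mem_erase.mp hi).1 rfl
        · exact disjoint_left.mp hdis (mem_erase.mp hi).2 hy0r)
      ⟨x, by simp⟩
      (fun i hi => ⟨hp i (mem_erase.mp hi).2, hpM' i hi⟩) hcov
    rw [hind, hR2, card_erase_of_mem hx] at h5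
    have hpc : 1 ≤ p.card := card_pos.mpr ⟨x, hx⟩
    have h6 : cf 2 (p.card - 1) ≤ (FS (p.erase x) f).card := by
      apply hPR (p.card - 1) (by omega) G ι (p.erase x) f rfl (card_erase_of_mem hx)
      · intro i hi
        exact hne0 i (hIs hi)
      · intro g
        exact (card_le_card (filter_subset_filter _ hIs)).trans (hcap g)
      · exact Ba1_sub f s _ hIs haper
    have h7 := hNu.1 t p.card ht (by omega)
    have h8 : t - (p.card - 1) - 2 = t - p.card - 1 := by omega
    rw [h8] at h5
    omega
  -- a member of `r` which is not a coloop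
  obtain ⟨y, hy, hyc⟩ : ∃ y ∈ outs r f M, ¬ Clp r f y := by
    by_contra hcon
    push Not at hcon
    obtain ⟨Q, hQ, hQ4⟩ := exists_subset_card_eq h4
    have hQr : Q ⊆ r := hQ.trans (filter_subset _ _)
    obtain ⟨rfl, hr4⟩ := hK1 G ι t s p r Q f hC ht hS' hQr hQ4 (fun y hy => hcon y (hQ hy))
    have hQe : Q = r := eq_of_subset_of_card_le hQr (by omega)
    exact hK2 G ι s p r f M hC hS' hr4 (fun y hy => hcon y (hQ (hQe ▸ hy))) hM hp
  have hyr : y ∈ r := (mem_filter.mp hy).1
  have hyM : f y ∉ M := (mem_filter.mp hy).2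
  refine ⟨x, hx, y, hyr, hyM, hxc, hyc, hxr, fun j hj => ⟨?_, ?_⟩⟩
  · intro h
    exact hyM (h ▸ hp j hj)
  · intro h
    apply hyM
    have : f y = - f j := by rw [h, neg_neg]
    rw [this]
    exact M.neg_mem (hp j hj)

end Pool.Agent.SSX
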