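import Pool.Agent.SSX.St

/-!
# SSX, module P2X (MP_ec93d3_co): best splitting for index 2 and index 3
-/

set_option autoImplicit false

noncomputable section

open Finset Pool.Agent.Helper64.Rho Pool.Agent.SDG Pool.Agent.MDR Pool.Agent.SSC Pool.Agent.SSE Pool.Agent.SSF
open scoped Classical Pointwise

namespace Pool.Agent.SSX

/-- subgroups of index 3 with at most `k` members outside -/
private def P2X_S {G ι : Type} [AddCommGroup G] (k : ℕ) (p : Finset ι) (f : ι → G) : Set (AddSubgroup G) :=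
  {M : AddSubgroup G | M.index = 3 ∧ (outs p f M).card ≤ k}

/-- the measure -/
private def P2X_n {G ι : Type} [AddCommGroup G] (p : Finset ι) (f : ι → G) : ℕ :=
  (P2X_S 0 p f).ncard + (P2X_S 1 p f).ncard

private theorem P2X_sym {G ι : Type} [AddCommGroup G] {s p r : Finset ι} {f : ι → G} (h : Spl s p r f) :
    Spl s r p f :=
  ⟨h.1.symm, by rw [union_comm]; exact h.2.1, h.2.2.2.1, h.2.2.1, h.2.2.2.2.2, h.2.2.2.2.1⟩

/-- exchange of a member which is not a coloop keeps the condition for index 2 -/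
private theorem P2X_ix {G ι : Type} [AddCommGroup G] (p : Finset ι) (f : ι → G) (x y : ι) (h : ¬ Clp p f x)
    (h2 : ∀ M : AddSubgroup G, M.index = 2 → ∃ i ∈ p, f i ∉ M) :
    ∀ M : AddSubgroup G, M.index = 2 → ∃ i ∈ insert y (p.erase x), f i ∉ M := by
  intro M hM
  by_contra h3
  push Not at h3
  obtain ⟨i, hi, hi2⟩ := h2 M hM
  by_cases hix : i = x
  · subst hix
    exact h ⟨M, hM, hi2, fun j hj => h3 j (mem_insert_of_mem hj)⟩
  · exact hi2 (h3 i (mem_insert_of_mem (mem_erase.2 ⟨hix, hi⟩)))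

theorem thm_P2X (hSw : St_SwX) (hP1 : St_P1X) (hP2 : St_P2s) : St_P2X := by
  intro G ι _ _ t s f hC ht
  have key : ∀ (p r : Finset ι) (M : AddSubgroup G), Spl s p r f →
      (∀ M : AddSubgroup G, M.index = 2 → ∃ i ∈ p, f i ∉ M) → (∀ M : AddSubgroup G, M.index = 2 → ∃ i ∈ r, f i ∉ M) →
      M.index = 3 → (outs p f M).card ≤ 1 →
      ∃ p' r' : Finset ι, Spl s p' r' f ∧ p'.card = p.card ∧ r'.card = r.card ∧
        (∀ M : AddSubgroup G, M.index = 2 → ∃ i ∈ p', f i ∉ M) ∧ (∀ M : AddSubgroup G, M.index = 2 → ∃ i ∈ r', f i ∉ M) ∧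
        P2X_n p' f < P2X_n p f ∧ P2X_n r' f ≤ P2X_n r f := by
    intro p r M hS hi1 hi2 hM hp
    obtain ⟨a1, a2, x, hx, y, hy, b1, b2, b3, b4, b5, b6, b7⟩ := hP2 G ι t s p r f M hC ht hS hM hp
    obtain ⟨g1, g2, g3, g4, g5⟩ := hSw.2 G ι s p r f x y hS hx hy b5 b6
    have hMp := g4 M
    rw [if_pos b1, if_neg b2] at hMp
    have hMr := g5 M
    rw [if_pos b1, if_neg b2] at hMr
    -- the new part `p'`
    have hp' : ∀ M' : AddSubgroup G, M'.index = 3 → M' ≠ M → 2 ≤ (outs (insert y (p.erase x)) f M').card := by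
      intro M' hM' hne
      have e1 := a2 M' hM' hne
      have e2 := g4 M'
      split_ifs at e2 <;> omega
    have hr' : ∀ M' : AddSubgroup G, M'.index = 3 → (outs (insert x (r.erase y)) f M').card ≤ 1 →
        (outs r f M').card ≤ (outs (insert x (r.erase y)) f M').card := by
      intro M' hM' hle
      have e2 := g5 M'
      by_cases c1 : f y ∈ M'
      · rw [if_pos c1] at e2
        omega
      · by_cases c2 : f x ∈ M'
        · have e3 := b7 M' hM' c1 c2
          rw [if_neg c1, if_pos c2] at e2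
          omega
        · rw [if_neg c1, if_neg c2] at e2
          omega
    refine ⟨insert y (p.erase x), insert x (r.erase y), g1, g2, g3, P2X_ix p f x y b3 hi1, P2X_ix r f y x b4 hi2, ?_, ?_⟩
    · have k0 : P2X_S 0 (insert y (p.erase x)) f = ∅ := by
        refine Set.eq_empty_iff_forall_notMem.2 fun M' hM' => ?_
        obtain ⟨q1, q2⟩ := hM'
        by_cases hne : M' = M
        · subst hne
          omega
        · have := hp' M' q1 hne
          omega
      have k1 : P2X_S 1 (insert y (p.erase x)) f ⊆ P2X_S 1 p f := by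
        intro M' hM'
        obtain ⟨q1, q2⟩ := hM'
        by_cases hne : M' = M
        · subst hne
          exact ⟨q1, hp⟩
        · have := hp' M' q1 hne
          omega
      have k2 : (P2X_S 1 (insert y (p.erase x)) f).ncard ≤ (P2X_S 1 p f).ncard := Set.ncard_le_ncard k1 (Set.toFinite _)
      unfold P2X_n
      rw [k0, Set.ncard_empty]
      by_cases hz : (outs p f M).card = 0
      · have k3 : 0 < (P2X_S 0 p f).ncard := by
          rw [Set.ncard_pos (Set.toFinite _)]
          exact ⟨M, hM, by omega⟩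
        omega
      · have k3 : (P2X_S 1 (insert y (p.erase x)) f).ncard < (P2X_S 1 p f).ncard := by
          refine Set.ncard_lt_ncard ⟨k1, fun hsub => ?_⟩ (Set.toFinite _)
          have h6 : M ∈ P2X_S 1 (insert y (p.erase x)) f := hsub ⟨hM, hp⟩
          have h7 := h6.2
          omega
        omega
    · unfold P2X_n
      refine Nat.add_le_add (Set.ncard_le_ncard ?_ (Set.toFinite _)) (Set.ncard_le_ncard ?_ (Set.toFinite _))
      · intro M' hM'
        obtain ⟨q1, q2⟩ := hM'
        exact ⟨q1, (hr' M' q1 (by omega)).trans q2⟩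
      · intro M' hM'
        obtain ⟨q1, q2⟩ := hM'
        exact ⟨q1, (hr' M' q1 q2).trans q2⟩
  have main : ∀ (n : ℕ) (p r : Finset ι), Spl s p r f → p.card = (t + 1) / 2 →
      (∀ M : AddSubgroup G, M.index = 2 → ∃ i ∈ p, f i ∉ M) → (∀ M : AddSubgroup G, M.index = 2 → ∃ i ∈ r, f i ∉ M) →
      P2X_n p f + P2X_n r f = n →
      ∃ p r : Finset ι, Spl s p r f ∧ p.card = (t + 1) / 2 ∧
        (∀ M : AddSubgroup G, M.index = 2 → (∃ i ∈ p, f i ∉ M) ∧ ∃ i ∈ r, f i ∉ M) ∧
        ∀ M : AddSubgroup G, M.index = 3 → 2 ≤ (outs p f M).card ∧ 2 ≤ (outs r f M).card := by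
    intro n
    induction n using Nat.strong_induction_on with
    | _ n ih =>
      intro p r hS hc h1 h2 hn
      by_cases hg : ∀ M : AddSubgroup G, M.index = 3 → 2 ≤ (outs p f M).card ∧ 2 ≤ (outs r f M).card
      · exact ⟨p, r, hS, hc, fun M hM => ⟨h1 M hM, h2 M hM⟩, hg⟩
      · push Not at hg
        obtain ⟨M, hM, hM2⟩ := hg
        by_cases hp : 2 ≤ (outs p f M).card
        · have hr := hM2 hp
          obtain ⟨r', p', k1, k2, k3, k4, k5, k6, k7⟩ := key r p M (P2X_sym hS) h2 h1 hM (by omega)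
          exact ih (P2X_n p' f + P2X_n r' f) (by omega) p' r' (P2X_sym k1) (k3.trans hc) k5 k4 rfl
        · obtain ⟨p', r', k1, k2, k3, k4, k5, k6, k7⟩ := key p r M hS h1 h2 hM (by omega)
          exact ih (P2X_n p' f + P2X_n r' f) (by omega) p' r' k1 (k2.trans hc) k4 k5 rfl
  obtain ⟨p, r, hS, hc, hg⟩ := hP1 G ι t s f hC ht
  exact main _ p r hS hc (fun M hM => (hg M hM).1) (fun M hM => (hg M hM).2) rfl

end Pool.Agent.SSX
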