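import Pool.Agent.SSX.St

/-!
# SSX, module P2s (MP_ec93d3_co): a part with at most one member outside a subgroup of index 3

`thm_P2s : SDG.St_Nm1 → St_IxF → St_NzF → St_CvX → St_LbX → St_NuX → St_K1X → St_Q9X → St_P2s`.
-/

set_option autoImplicit false

noncomputable section

open Finset Pool.Agent.Helper64.Rho Pool.Agent.SDG Pool.Agent.MDR Pool.Agent.SSC Pool.Agent.SSE Pool.Agent.SSF
open scoped Classical Pointwise

namespace Pool.Agent.SSX

private theorem P2s_ins_outs {G ι : Type} [AddCommGroup G] (u : Finset ι) (f : ι → G) (M : AddSubgroup G) :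
    (ins u f M).card + (outs u f M).card = u.card := by
  unfold ins outs
  exact card_filter_add_card_filter_not (s := u) (fun i => f i ∈ M)

private theorem P2s_ins_union {G ι : Type} [AddCommGroup G] {s p r : Finset ι} (f : ι → G) (M : AddSubgroup G)
    (hd : Disjoint p r) (hu : p ∪ r = s) : (ins p f M).card + (ins r f M).card = (ins s f M).card := by
  unfold ins
  rw [← hu, filter_union, card_union_of_disjoint]
  exact disjoint_filter_filter hd

private theorem P2s_AS {G ι : Type} [AddCommGroup G] {u v : Finset ι} {f : ι → G} (h : AS u f) (hv : v ⊆ u) :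
    AS v f :=
  ⟨fun i hi => h.1 i (hv hi), fun x => le_trans (card_le_card (filter_subset_filter _ hv)) (h.2 x)⟩

/-- two members of an antisymmetric family with values `± x` are equal -/
private theorem P2s_uniq {G ι : Type} [AddCommGroup G] {u : Finset ι} {f : ι → G} (h : AS u f) {a b : ι}
    (ha : a ∈ u) (hb : b ∈ u) (x : G) (h1 : f a = x ∨ f a = -x) (h2 : f b = x ∨ f b = -x) : a = b :=
  card_le_one.1 (h.2 x) a (mem_filter.2 ⟨ha, h1⟩) b (mem_filter.2 ⟨hb, h2⟩)

private theorem P2s_par {G : Type} [AddCommGroup G] {a b : G} (h : a = b ∨ a = -b) : b = a ∨ b = -a := by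
  rcases h with h | h
  · exact Or.inl h.symm
  · right
    rw [h, neg_neg]

private theorem P2s_mem {G : Type} [AddCommGroup G] {a b : G} (M : AddSubgroup G) (h : a = b ∨ a = -b) :
    a ∈ M ↔ b ∈ M := by
  rcases h with h | h
  · rw [h]
  · rw [h, neg_mem_iff]

/-- at most one member of `u` has a partner in a set `v` with at most one possible partner -/
private theorem P2s_part {G ι : Type} [AddCommGroup G] {u v w : Finset ι} {f : ι → G} (h : AS u f) (hw : w ⊆ u)
    (hv : v.card ≤ 1) : (w.filter fun i => ∃ j ∈ v, f j = f i ∨ f j = -f i).card ≤ 1 := by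
  rw [card_le_one]
  intro a ha b hb
  obtain ⟨ha1, j, hj, hj2⟩ := mem_filter.1 ha
  obtain ⟨hb1, k, hk, hk2⟩ := mem_filter.1 hb
  have hjk : j = k := card_le_one.1 hv j hj k hk
  subst hjk
  exact P2s_uniq h (hw ha1) (hw hb1) (f j) (P2s_par hj2) (P2s_par hk2)

theorem thm_P2s (hNm : SDG.St_Nm1) (hIx : St_IxF) (hNz : St_NzF) (hCv : St_CvX) (hLb : St_LbX) (hNu : St_NuX)
    (hK1 : St_K1X) (hQ9 : St_Q9X) : St_P2s := by
  obtain ⟨cv1, cv2, cv3, cv4, cv5⟩ := hCv
  intro G ι _ _ t s p r f M hC ht hS hM hout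
  have hS' := hS
  obtain ⟨hdis, hun, hpA, hrA, hpr, hrp⟩ := hS
  have hsc : s.card = t := hC.2.2.2.2.1
  have hcard : p.card + r.card = t := by
    rw [← hsc, ← hun, card_union_of_disjoint hdis]
  have hps : p ⊆ s := by
    rw [← hun]
    exact subset_union_left
  have hrs : r ⊆ s := by
    rw [← hun]
    exact subset_union_right
  have hinsS : (ins s f M).card + 1 ≤ (t + 1) / 2 :=
    (hIx G ι t s f M hC ht (by rw [hM]; exact Nat.prime_three)).2.1 hM
  have hio : (ins s f M).card + (outs s f M).card = s.card := P2s_ins_outs s f M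
  have hpo : (ins p f M).card + (outs p f M).card = p.card := P2s_ins_outs p f M
  have hro : (ins r f M).card + (outs r f M).card = r.card := P2s_ins_outs r f M
  have hun2 : (ins p f M).card + (ins r f M).card = (ins s f M).card := P2s_ins_union f M hdis hun
  have hXp : ins p f M ⊆ p := filter_subset _ _
  have hXs : ins p f M ⊆ s := hXp.trans hps
  have hXA : AS (ins p f M) f := P2s_AS hpA hXp
  have hXne : ins p f M ≠ s := by
    intro h
    have h2 : (ins p f M).card = t := by rw [h, hsc]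
    omega
  -- two members outside `M` cover the classes modulo `M`
  have hcov2 : ∀ y y' : ι, y ≠ y' → f y ∉ M → f y' ∉ M → ∀ a : G, ∃ z ∈ FS {y, y'} f, a - z ∈ M := by
    intro y y' hne hy hy' a
    exact cv3 G ι y y' f M ⊤ hne le_top (by rw [AddSubgroup.relIndex_top_right]; exact hM)
      (AddSubgroup.mem_top _) (AddSubgroup.mem_top _) hy hy' a (AddSubgroup.mem_top _)
  -- `t = 9` is impossible
  have ht10 : 10 ≤ t := by
    by_contra hlt
    have h9 : t = 9 := by omega
    obtain ⟨y, hy, y', hy', hne⟩ := one_lt_card.1 (show 1 < (outs s f M).card by omega)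
    have hy2 := mem_filter.1 hy
    have hy2' := mem_filter.1 hy'
    have h1 := cv5 G ι t s (ins p f M) {y, y'} f M hC hXs (by
      intro i hi
      rcases mem_insert.1 hi with h | h
      · rw [h]; exact hy2.1
      · rw [mem_singleton.1 h]; exact hy2'.1) (by
      rw [disjoint_left]
      intro i hi hi2
      have h3 := (mem_filter.1 hi).2
      rcases mem_insert.1 hi2 with h | h
      · rw [h] at h3; exact hy2.2 h3
      · rw [mem_singleton.1 h] at h3; exact hy2'.2 h3) ⟨y, mem_insert_self _ _⟩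
      (fun i hi => (mem_filter.1 hi).2) (hcov2 y y' hne hy2.2 hy2'.2)
    have hl := (hLb G ι t s (ins p f M) f hC hXs hXne hXA).2.2 (by omega)
    have hc2 : ({y, y'} : Finset ι).card = 2 := card_pair hne
    rw [hc2, hM, h9] at h1
    have e9 : cf 2 9 = 26 := (hNm.2.2.1 9).trans (by norm_num)
    have e4 : cf 2 4 = 7 := (hNm.2.2.1 4).trans (by norm_num)
    have e3 : cf 2 3 = 5 := (hNm.2.2.1 3).trans (by norm_num)
    have hx : (ins p f M).card = 3 ∨ (ins p f M).card = 4 := by omega
    rcases hx with hx | hx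
    · rw [hx] at h1 hl
      have : cf 2 (9 - 3 - 2) = 7 := e4
      omega
    · rw [hx] at h1 hl
      have : cf 2 (9 - 4 - 2) = 5 := e3
      omega
  have hX1 : (t + 1) / 2 ≤ (ins p f M).card + 2 := by omega
  have hX2 : t % 2 = 0 → (t + 1) / 2 ≤ (ins p f M).card + 1 := by omega
  have hX3 : (ins p f M).card + 1 ≤ (t + 1) / 2 := by omega
  have hr5 : 5 ≤ (outs r f M).card := by omega
  have hir : (ins r f M).card ≤ 1 := by omega
  have hNz' : ∀ M' : AddSubgroup G, M'.index = 3 → M' ≠ M → 3 ≤ (outs (ins p f M) f M').card := by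
    intro M' hM' hne
    exact hNz G ι t s (ins p f M) f M M' hC ht hM hM' (Ne.symm hne) (filter_subset_filter _ hps) hXA hX1 hX2
  refine ⟨by omega, ?_, ?_⟩
  · intro M' hM' hne
    refine le_trans (hNz' M' hM' hne) (card_le_card ?_)
    exact filter_subset_filter _ hXp
  -- (a)
  have ha : ∀ x ∈ ins p f M, ¬ Clp p f x := by
    rintro x hx ⟨M2, hM2, hxM2, hpM2⟩
    have hxM : f x ∈ M := (mem_filter.1 hx).2
    have hxp : x ∈ p := (mem_filter.1 hx).1
    have hidx : (M ⊓ M2).index = 2 * M.index :=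
      cv4 G M M2 2 Nat.prime_two hM2 (fun hle => hxM2 (hle hxM))
    obtain ⟨z, hz, z', hz', hne⟩ := one_lt_card.1 (show 1 < (outs r f M).card by omega)
    have hz2 := mem_filter.1 hz
    have hz2' := mem_filter.1 hz'
    have hxz : x ∉ ({z, z'} : Finset ι) := by
      intro hi2
      rcases mem_insert.1 hi2 with h | h
      · rw [h] at hxM; exact hz2.2 hxM
      · rw [mem_singleton.1 h] at hxM; exact hz2'.2 hxM
    have hdj : Disjoint ({x} : Finset ι) {z, z'} := disjoint_singleton_left.2 hxz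
    have hcov := cv1 G ι {x} {z, z'} f (M ⊓ M2) M hdj (cv2 G ι x f M M2 hM2 hxM hxM2)
      (hcov2 z z' hne hz2.2 hz2'.2)
    have hIc : ((ins p f M).erase x).card = (ins p f M).card - 1 := card_erase_of_mem hx
    have hRc : (({x} : Finset ι) ∪ {z, z'}).card = 3 := by
      rw [card_union_of_disjoint hdj, card_singleton, card_pair hne]
    have h1 := cv5 G ι t s ((ins p f M).erase x) ({x} ∪ {z, z'}) f (M ⊓ M2) hC
      ((erase_subset _ _).trans hXs) (by
      intro i hi
      rcases mem_union.1 hi with h | h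
      · rw [mem_singleton.1 h]; exact hps hxp
      · rcases mem_insert.1 h with h | h
        · rw [h]; exact hrs hz2.1
        · rw [mem_singleton.1 h]; exact hrs hz2'.1) (by
      rw [disjoint_left]
      intro i hi hi2
      obtain ⟨h3, h4⟩ := mem_erase.1 hi
      have h5 := (mem_filter.1 h4).2
      rcases mem_union.1 hi2 with h | h
      · exact h3 (mem_singleton.1 h)
      · rcases mem_insert.1 h with h | h
        · rw [h] at h5; exact hz2.2 h5
        · rw [mem_singleton.1 h] at h5; exact hz2'.2 h5)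
      ⟨x, mem_union_left _ (mem_singleton_self x)⟩ (by
      intro i hi
      obtain ⟨h3, h4⟩ := mem_erase.1 hi
      exact ⟨(mem_filter.1 h4).2, hpM2 i (mem_erase.2 ⟨h3, (mem_filter.1 h4).1⟩)⟩) hcov
    rw [hIc, hRc, hidx, hM] at h1
    have hl := (hLb G ι t s ((ins p f M).erase x) f hC ((erase_subset _ _).trans hXs) (by
      intro h
      have h3 : x ∈ (ins p f M).erase x := by
        rw [h]; exact hps hxp
      exact (mem_erase.1 h3).1 rfl) (P2s_AS hXA (erase_subset _ _))).1
    rw [hIc] at hl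
    have hn := hNu.2.2.1 t (ins p f M).card ht10 hX1 hX2 hX3
    have he : t - ((ins p f M).card - 1) - 3 = t - (ins p f M).card - 2 := by omega
    rw [he] at h1
    omega
  -- (b)
  have hb : ∃ y ∈ r, f y ∉ M ∧ ¬ Clp r f y ∧ ∀ j ∈ p, f j ≠ f y ∧ f j ≠ -f y := by
    by_contra hcon
    have hsub : outs r f M ⊆ ((outs r f M).filter fun y => Clp r f y) ∪
        ((outs r f M).filter fun y => ∃ j ∈ outs p f M, f j = f y ∨ f j = -f y) := by
      intro y hy
      obtain ⟨hy1, hy2⟩ := mem_filter.1 hy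
      by_cases hc : Clp r f y
      · exact mem_union_left _ (mem_filter.2 ⟨hy, hc⟩)
      · refine mem_union_right _ (mem_filter.2 ⟨hy, ?_⟩)
        by_contra hno
        refine hcon ⟨y, hy1, hy2, hc, fun j hj => ?_⟩
        rw [← not_or]
        intro hor
        exact hno ⟨j, mem_filter.2 ⟨hj, fun h => hy2 ((P2s_mem M hor).1 h)⟩, hor⟩
    have h1 := card_le_card hsub
    have h2 := card_union_le ((outs r f M).filter fun y => Clp r f y)
      ((outs r f M).filter fun y => ∃ j ∈ outs p f M, f j = f y ∨ f j = -f y)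
    have h3 : ((outs r f M).filter fun y => ∃ j ∈ outs p f M, f j = f y ∨ f j = -f y).card ≤ 1 :=
      P2s_part hrA (filter_subset _ _) hout
    have h4 : ((outs r f M).filter fun y => Clp r f y).card ≤ 3 := by
      by_contra h5
      obtain ⟨Q, hQ, hQc⟩ := exists_subset_card_eq
        (show 4 ≤ ((outs r f M).filter fun y => Clp r f y).card by omega)
      have h6 := hK1 G ι t s p r Q f hC ht hS'
        (fun i hi => (mem_filter.1 (mem_filter.1 (hQ hi)).1).1) hQc (fun y hy => (mem_filter.1 (hQ hy)).2)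
      omega
    omega
  obtain ⟨y, hyr, hyM, hyC, hyP⟩ := hb
  -- (c)
  have hc : ∀ M' M'' : AddSubgroup G, M'.index = 3 → M''.index = 3 → f y ∉ M' → f y ∉ M'' →
      (outs r f M').card ≤ 2 → (outs r f M'').card ≤ 2 → M' = M'' := by
    intro M' M'' hM' hM'' hy1 hy2 ho1 ho2
    by_contra hne
    obtain ⟨hidx, R, hRs, hRc, hRF, hRcov⟩ := hQ9 G ι t s f M' M'' hC ht10 hM' hM'' hne
    have hIr : ins r f (M' ⊓ M'') ⊆ r := filter_subset _ _
    have hyI : y ∉ ins r f (M' ⊓ M'') := fun h => hy1 (mem_filter.1 h).2.1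
    have h1 := cv5 G ι t s (ins r f (M' ⊓ M'')) R f (M' ⊓ M'') hC (hIr.trans hrs) hRs (by
      rw [disjoint_left]
      intro i hi hi2
      exact hRF i hi2 (mem_filter.1 hi).2) (by
      rw [← card_pos, hRc]
      norm_num) (fun i hi => (mem_filter.1 hi).2) hRcov
    rw [hRc, hidx] at h1
    have hIne : ins r f (M' ⊓ M'') ≠ s := by
      intro h
      apply hyI
      rw [h]
      exact hrs hyr
    obtain ⟨l1, l2, l3⟩ := hLb G ι t s (ins r f (M' ⊓ M'')) f hC (hIr.trans hrs) hIne (P2s_AS hrA hIr)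
    have hio2 : (ins r f (M' ⊓ M'')).card + (outs r f (M' ⊓ M'')).card = r.card := P2s_ins_outs r f _
    have hou : outs r f (M' ⊓ M'') ⊆ outs r f M' ∪ outs r f M'' := by
      intro i hi
      obtain ⟨hi1, hi2⟩ := mem_filter.1 hi
      by_cases h : f i ∈ M'
      · exact mem_union_right _ (mem_filter.2 ⟨hi1, fun h' => hi2 ⟨h, h'⟩⟩)
      · exact mem_union_left _ (mem_filter.2 ⟨hi1, h⟩)
    have hint : 1 ≤ (outs r f M' ∩ outs r f M'').card :=
      card_pos.2 ⟨y, mem_inter.2 ⟨mem_filter.2 ⟨hyr, hy1⟩, mem_filter.2 ⟨hyr, hy2⟩⟩⟩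
    have hui := card_union_add_card_inter (outs r f M') (outs r f M'')
    have hle := card_le_card hou
    have hlt : (ins r f (M' ⊓ M'')).card < r.card := card_lt_card ⟨hIr, fun h => hyI (h hyr)⟩
    have hn := hNu.2.2.2 t r.card (ins r f (M' ⊓ M'')).card (FS (ins r f (M' ⊓ M'')) f).card ht10
      (by omega) (by omega) hlt l1 l2 l3
    omega
  -- (d)
  have hpart : ((ins p f M).filter fun i => ∃ j ∈ ins r f M, f j = f i ∨ f j = -f i).card ≤ 1 :=
    P2s_part hpA hXp hir
  have hfree : ∀ x ∈ ins p f M, ¬ (∃ j ∈ ins r f M, f j = f x ∨ f j = -f x) →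
      ∀ j ∈ r, f j ≠ f x ∧ f j ≠ -f x := by
    intro x hx hno j hj
    rw [← not_or]
    intro hor
    exact hno ⟨j, mem_filter.2 ⟨hj, (P2s_mem M hor).2 (mem_filter.1 hx).2⟩, hor⟩
  -- choice of `x` in a subset with at least two elements
  have hch : ∀ W ⊆ ins p f M, 2 ≤ W.card → ∃ x ∈ W, ∀ j ∈ r, f j ≠ f x ∧ f j ≠ -f x := by
    intro W hW hWc
    by_contra hcon
    have hsub : W ⊆ (ins p f M).filter fun i => ∃ j ∈ ins r f M, f j = f i ∨ f j = -f i := by
      intro x hx
      refine mem_filter.2 ⟨hW hx, ?_⟩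
      by_contra hno
      exact hcon ⟨x, hx, hfree x (hW hx) hno⟩
    have := card_le_card hsub
    omega
  by_cases hex : ∃ M' : AddSubgroup G, M'.index = 3 ∧ f y ∉ M' ∧ (outs r f M').card ≤ 2
  · obtain ⟨M', hM', hyM', hoM'⟩ := hex
    have hne : M' ≠ M := by
      intro h
      rw [h] at hoM'
      omega
    obtain ⟨x, hxW, hxr⟩ := hch (outs (ins p f M) f M') (filter_subset _ _) (by
      have := hNz' M' hM' hne
      omega)
    obtain ⟨hxX, hxM'⟩ := mem_filter.1 hxW
    refine ⟨x, hXp hxX, y, hyr, (mem_filter.1 hxX).2, hyM, ha x hxX, hyC, hxr, hyP, ?_⟩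
    intro M'' hM'' hy2 hx2
    by_contra hlt
    have heq : M' = M'' := hc M' M'' hM' hM'' hyM' hy2 hoM' (by omega)
    rw [heq] at hxM'
    exact hxM' hx2
  · obtain ⟨x, hxX, hxr⟩ := hch (ins p f M) (Subset.refl _) (by omega)
    refine ⟨x, hXp hxX, y, hyr, (mem_filter.1 hxX).2, hyM, ha x hxX, hyC, hxr, hyP, ?_⟩
    intro M'' hM'' hy2 hx2
    by_contra hlt
    exact hex ⟨M'', hM'', hy2, by omega⟩

end Pool.Agent.SSX
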