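import Pool.Agent.SSX.St

/-!
# SSX (copied from Pool/Agent/SSF/RgF.lean), RgF: dense cosets, subfamilies and regularity (helper34)
-/

set_option autoImplicit false

noncomputable section

open Finset Pool.Agent.Helper64.Rho Pool.Agent.SDG Pool.Agent.MDR Pool.Agent.SSC Pool.Agent.SSE Pool.Agent.SSF
open scoped Classical Pointwise

namespace Pool.Agent.SSX

private theorem RgF_DC {G ι : Type} [AddCommGroup G] [Finite G] (u v : Finset ι) (f : ι → G)
    (hvu : v ⊆ u) (h : DC u f) : DC v f := by
  intro K c hK hc hcard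
  refine h K c hK hc (hcard.trans (Nat.add_le_add ?_ ?_))
  · exact card_le_card (filter_subset_filter _ hvu)
  · exact card_le_card (filter_subset_filter _ hvu)

private theorem RgF_AE {G ι : Type} [AddCommGroup G] (u v : Finset ι) (f : ι → G)
    (hvu : v ⊆ u) (h : AE u f) : AE v f := by
  refine ⟨⟨fun i hi => h.1.1 i (hvu hi), fun x => ?_⟩, fun i hi => h.2 i (hvu hi)⟩
  exact (card_le_card (filter_subset_filter _ hvu)).trans (h.1.2 x)

private theorem RgF_index {G : Type} [AddCommGroup G] [Finite G] (K : AddSubgroup G) (d : G)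
    (hd : ∀ x : G, ∃ k : ℕ, x - k • d ∈ K) (h2 : d + d ∈ K) : K.index ≤ 2 := by
  have hs : (Set.univ : Set (G ⧸ K)) ⊆ {0, QuotientAddGroup.mk d} := by
    intro q _
    induction q using QuotientAddGroup.induction_on with
    | _ x =>
      obtain ⟨k, hk⟩ := hd x
      have h3 : ∀ j : ℕ, (2 * j) • d ∈ K := by
        intro j
        have e : (2 * j) • d = j • (d + d) := by
          rw [← two_nsmul, smul_smul, mul_comm]
        rw [e]
        exact K.nsmul_mem h2 j
      rcases Nat.even_or_odd' k with ⟨j, hj | hj⟩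
      · left
        rw [QuotientAddGroup.eq_zero_iff]
        have h4 := K.add_mem hk (h3 j)
        rw [hj, sub_add_cancel] at h4
        exact h4
      · right
        rw [Set.mem_singleton_iff, QuotientAddGroup.eq]
        have h4 := K.neg_mem (K.add_mem hk (h3 j))
        have e : -(x - k • d + (2 * j) • d) = -x + d := by
          rw [hj, add_smul, one_smul]
          abel
        rwa [e] at h4
  have h5 : K.index = (Set.univ : Set (G ⧸ K)).ncard := by
    rw [Set.ncard_univ]
    rfl
  rw [h5]
  calc (Set.univ : Set (G ⧸ K)).ncard ≤ ({0, QuotientAddGroup.mk d} : Set (G ⧸ K)).ncard :=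
        Set.ncard_le_ncard hs (Set.toFinite _)
    _ ≤ ({QuotientAddGroup.mk d} : Set (G ⧸ K)).ncard + 1 := Set.ncard_insert_le _ _
    _ = 2 := by rw [Set.ncard_singleton]

theorem thm_RgF : SSE.St_SyE → SSE.St_NfE → St_RgF := by
  intro _ hNf
  refine ⟨fun G ι _ _ u v f => RgF_DC u v f, ?_, ?_⟩
  · intro G ι _ _ u f hcyc hAE hDC v hv K hK hi hcard
    obtain ⟨i1, hi1, h2⟩ := hi
    have h := hNf G ι v f K i1 (RgF_AE u v f hv hAE) hK hi1 h2 hcard
    obtain ⟨-, -, h3, -, -⟩ := h
    suffices hs : Nat.card K ≤ 4 ∨ ∀ x ∈ K, x + x = 0 by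
      rcases hs with h6 | h6
      · exact h6
      · have : IsAddCyclic K := inferInstance
        obtain ⟨g, hg⟩ := IsAddCyclic.exists_generator (α := K)
        have h7 : addOrderOf g = Nat.card K := addOrderOf_eq_card_of_forall_mem_zmultiples hg
        have h8 : addOrderOf g ∣ 2 := by
          rw [addOrderOf_dvd_iff_nsmul_eq_zero, two_nsmul]
          exact Subtype.ext (h6 g.1 g.2)
        have h9 := Nat.le_of_dvd (by norm_num) h8
        omega
    refine RgF_DC u v f hv hDC K (f i1) hK h2 (h3.trans (Nat.add_le_add_right ?_ _))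
    apply card_le_card
    intro i hi
    rw [mem_filter] at hi ⊢
    refine ⟨hi.1, ?_⟩
    by_cases h4 : f i + f i1 ∈ K
    · exact Or.inr h4
    · left
      have h5 : (if f i + f i1 ∈ K then - f i else f i) - f i1 ∈ K := hi.2
      rw [if_neg h4] at h5
      exact h5
  · intro G ι _ _ u f K a hidx hKAP
    obtain ⟨-, -, ha, d, lv, hd, hlv, hcnt, -⟩ := hKAP
    refine ⟨d, fun h => ?_, ?_⟩
    · have := RgF_index K d hd h
      omega
    · rw [← hcnt 1 le_rfl ha]
      apply card_le_card
      intro i hi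
      rw [mem_filter] at hi ⊢
      obtain ⟨hi1, hi2⟩ := hi
      refine ⟨(mem_filter.1 hi1).1, ?_⟩
      have h3 := (hlv i hi1).2.2
      rw [hi2, one_smul] at h3
      exact h3

end Pool.Agent.SSX
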