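import Pool.Agent.SSX.St

/-!
# SSX: SwX, splittings and exchange
-/

set_option autoImplicit false

noncomputable section

open Finset Pool.Agent.Helper64.Rho Pool.Agent.SDG Pool.Agent.MDR Pool.Agent.SSC Pool.Agent.SSE Pool.Agent.SSF
open scoped Classical Pointwise

namespace Pool.Agent.SSX

private theorem SwX_bal {G ι : Type} (p r : Finset ι) (f : ι → G) (h1 : p.card ≤ r.card + 1)
    (h2 : r.card ≤ p.card + 1) : Bal (fun _ => 0) p r f := by
  intro c
  by_cases hc : (0 : ℕ) = c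
  · have e1 : (p.filter fun i => (fun _ : G => (0 : ℕ)) (f i) = c) = p :=
      filter_true_of_mem fun _ _ => hc
    have e2 : (r.filter fun i => (fun _ : G => (0 : ℕ)) (f i) = c) = r :=
      filter_true_of_mem fun _ _ => hc
    rw [e1, e2]
    exact ⟨h1, h2⟩
  · have e1 : (p.filter fun i => (fun _ : G => (0 : ℕ)) (f i) = c) = ∅ :=
      filter_false_of_mem fun _ _ => hc
    have e2 : (r.filter fun i => (fun _ : G => (0 : ℕ)) (f i) = c) = ∅ :=
      filter_false_of_mem fun _ _ => hc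
    rw [e1, e2]
    simp

theorem thm_SwX : SSF.St_SpF → SSF.St_XcF → St_SwX := by
  intro hS hX
  refine ⟨?_, ?_⟩
  · intro G ι _ s f hf hc
    obtain ⟨p, r, h1, h2, h3, h4, h5, h6, -⟩ := hS G ι s f (fun _ => 0) hf hc (fun _ => rfl)
    refine ⟨p, r, ⟨h1, h2, h3, h4, ?_, ?_⟩, h5⟩
    · omega
    · omega
  · intro G ι _ s p r f x y hs hx hy hjx hjy
    obtain ⟨g1, g2, g3, g4, g5, g6⟩ := hs
    obtain ⟨k1, k2, k3, k4, k5, k6, -, k7, k8⟩ :=
      hX G ι p r f (fun _ => 0) x y g1 g3 g4 (SwX_bal p r f g5 g6) hx hy rfl hjx hjy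
    refine ⟨⟨k1, k2.trans g2, k3, k4, ?_, ?_⟩, k5, k6, k7, k8⟩
    · omega
    · omega

end Pool.Agent.SSX
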