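import Pool.Agent.SSF.Main
import Pool.Agent.KAU.All
import Pool.Agent.SSX.A1X
import Pool.Agent.SSX.A2X
import Pool.Agent.SSX.BnF
import Pool.Agent.SSX.C1F
import Pool.Agent.SSX.C2F
import Pool.Agent.SSX.C4F
import Pool.Agent.SSX.CCF
import Pool.Agent.SSX.CvX
import Pool.Agent.SSX.DpF
import Pool.Agent.SSX.DrF
import Pool.Agent.SSX.DrO
import Pool.Agent.SSX.EvF
import Pool.Agent.SSX.FU
import Pool.Agent.SSX.FW
import Pool.Agent.SSX.FlF
import Pool.Agent.SSX.GdX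
import Pool.Agent.SSX.GrF
import Pool.Agent.SSX.HoF
import Pool.Agent.SSX.I4F
import Pool.Agent.SSX.IxF
import Pool.Agent.SSX.K1X
import Pool.Agent.SSX.K2X
import Pool.Agent.SSX.KhW
import Pool.Agent.SSX.LbX
import Pool.Agent.SSX.LcW
import Pool.Agent.SSX.NuX
import Pool.Agent.SSX.NzF
import Pool.Agent.SSX.OdF
import Pool.Agent.SSX.P1X
import Pool.Agent.SSX.P1s
import Pool.Agent.SSX.P2X
import Pool.Agent.SSX.P2s
import Pool.Agent.SSX.PFF
import Pool.Agent.SSX.Q9X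
import Pool.Agent.SSX.RgF
import Pool.Agent.SSX.S8F
import Pool.Agent.SSX.SRF
import Pool.Agent.SSX.SwX
import Pool.Agent.SSX.TfF
import Pool.Agent.SSX.WiF

/-!
# SSX: assembly (helper86).  The sharp lower bound for the number of subset sums in ALL finite abelian groups.
-/

set_option autoImplicit false

noncomputable section

open Finset Pool.Agent.Helper64.Rho
open scoped Classical Pointwise

namespace Pool.Agent.SSX

theorem all_A1X : St_A1X := thm_A1X SSC.mdr_Av0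
theorem all_A2X : St_A2X := thm_A2X SSC.mdr_Av0
theorem all_BnF : St_BnF := thm_BnF SDG.all_Nm1 SDG.all_Ba1 SDG.all_Kn SDG.all_Sm
theorem all_RgF : St_RgF := thm_RgF SSE.all_SyE SSE.all_NfE
theorem all_DrF : St_DrF := thm_DrF SDG.all_Nm1 SDG.all_Ba1 SDG.all_Sm SSC.all_Nu SSE.all_B3E
theorem all_TfF : St_TfF := thm_TfF
theorem all_DpF : St_DpF := thm_DpF SDG.all_Ba1 SSE.all_KeE all_RgF all_TfF
theorem all_LcW : St_LcW := thm_LcW SSE.all_SyE SSE.all_LvE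
theorem all_FU : St_FU := thm_FU
theorem all_FW : St_FW := thm_FW SSC.all_Et all_FU
theorem all_KhW : St_KhW := thm_KhW SDG.all_Ba1 SSC.mdr_Sg all_LcW all_FU all_FW SSE.all_Cn
theorem all_GrF : St_GrF := thm_GrF KAU.all_GRA SSF.all_Kh2F SSF.all_Kh3F SSF.all_Kh4F SSF.all_KhV all_KhW
theorem all_C1F : St_C1F :=
  thm_C1F SDG.all_Ba1 SDG.all_Sm SSE.all_SyE all_A1X SSE.all_KxE SSF.all_GmF all_RgF all_DrF all_DpF all_GrF
theorem all_C2F : St_C2F := thm_C2F SDG.all_Ba1 SSE.all_SyE SSE.all_KxE all_A2X SSF.all_GmF all_RgF all_DrF all_DpF all_GrF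
theorem all_C4F : St_C4F := thm_C4F SSE.all_PgE SSF.all_BoF
theorem all_CCF : St_CCF := thm_CCF all_C4F all_C1F all_C2F
theorem all_FlF : St_FlF := thm_FlF SSF.all_KSF SDG.all_Sm SDG.all_Ba1
theorem all_WiF : St_WiF := thm_WiF all_FlF
theorem all_SRF : St_SRF := thm_SRF SDG.all_Nm1 SDG.all_Ba1 SDG.all_Kn SDG.all_Qu SSC.mdr_Sg SSC.mdr_SC SSC.mdr_N5 SSC.all_Nu all_WiF
theorem all_IxF : St_IxF := thm_IxF SDG.all_Nm1 SDG.all_Ba1 SDG.all_Kn SDG.all_Sm SSC.all_Nu SSE.all_NuE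
theorem all_I4F : St_I4F := thm_I4F SDG.all_Nm1 SDG.all_Ba1 SDG.all_Kn SDG.all_Sm SSE.all_B3E all_IxF
theorem all_NzF : St_NzF := thm_NzF SDG.all_Nm1 SDG.all_Ba1 SDG.all_Kn SDG.all_Sm SSE.all_B3E all_IxF
theorem all_SwX : St_SwX := thm_SwX SSF.all_SpF SSF.all_XcF
theorem all_NuX : St_NuX := thm_NuX SDG.all_Nm1
theorem all_CvX : St_CvX := thm_CvX SDG.all_Ba1 SDG.all_Kn
theorem all_LbX : St_LbX := thm_LbX SDG.all_Nm1 SDG.all_Ba1 SSE.all_B3E
theorem all_K1X : St_K1X := thm_K1X SDG.all_Ba1 SDG.all_Kn all_NuX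
theorem all_K2X : St_K2X := thm_K2X SDG.all_Nm1 SDG.all_Ba1 SDG.all_main SSE.all_SyE all_BnF
theorem all_P1s : St_P1s := thm_P1s all_IxF all_CvX all_NuX all_K1X all_K2X
theorem all_P1X : St_P1X := thm_P1X all_SwX all_P1s
theorem all_Q9X : St_Q9X := thm_Q9X all_IxF all_CvX
theorem all_P2s : St_P2s := thm_P2s SDG.all_Nm1 all_IxF all_NzF all_CvX all_LbX all_NuX all_K1X all_Q9X
theorem all_P2X : St_P2X := thm_P2X all_SwX all_P1X all_P2s
theorem all_HoF : St_HoF := thm_HoF SDG.all_Ba1 all_IxF all_I4F all_P2X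
theorem all_GdX : St_GdX := thm_GdX
theorem all_DrO : St_DrO := thm_DrO SDG.all_Nm1 SDG.all_Ba1 SDG.all_Av SSE.all_SyE all_TfF all_GdX
theorem all_EvF : St_EvF := thm_EvF SDG.all_Nm1 SDG.all_Kn SDG.all_Ba1 all_BnF all_SRF all_RgF all_HoF SSE.all_KeE SSE.all_KgE
theorem all_OdF : St_OdF :=
  thm_OdF SDG.all_Nm1 SDG.all_Kn SDG.all_Ba1 SSE.all_SyE all_A1X all_DrF all_BnF all_SRF all_RgF SSE.all_KxE SSE.all_KeE
    SSE.all_KgE SSF.all_KgF SSF.all_GmF all_GrF all_HoF all_DrO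
theorem all_S8F : St_S8F :=
  thm_S8F SDG.all_Nm1 SDG.all_Kn SDG.all_Ba1 SSC.mdr_Sp2 SSE.all_B3E SSE.all_PgE SSF.all_BoF SSE.all_SyE all_SRF all_BnF
    SSE.all_KgE SSC.all_Ct
theorem all_PFF : St_PFF := thm_PFF SDG.all_Tr SDG.all_main SSE.all_PFE all_S8F all_EvF all_OdF

/-- **PR**: families of `t` nonzero elements of a finite abelian group, at most two of them equal to `± x` for each `x`, with an aperiodic
set of sums, have at least `1 + (t + 1) ^ 2 / 4` sums -/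
theorem PR_all : ∀ t : ℕ, PR t :=
  all_PFF (all_CCF fun l hl => (SSE.all_CC l hl fun n _ => SSE.all_PFE n).1)

/-- the same statement without the dummy of this folder -/
theorem PAG_all (G ι : Type) [AddCommGroup G] [Finite G] (s : Finset ι) (f : ι → G) (h0 : ∀ i ∈ s, f i ≠ 0) (hc : SDG.Cap 2 s f)
    (ha : SDG.Aper (FS s f)) : SDG.cf 2 s.card ≤ (FS s f).card :=
  PR_all s.card G ι s f rfl rfl h0 hc ha

end Pool.Agent.SSX
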