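import Mathlib

/-! SSX (helper86): the sharp bound for all finite abelian groups (MP_ec93d3_co).  This folder belongs to helper86. -/
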