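import Pool.Agent.SSX.St
import Pool.Agent.SDG.Kn

/-!
# SSX, module GdX: weak growth by the theorem of Kneser
-/

set_option autoImplicit false

noncomputable section

open Finset Pool.Agent.Helper64.Rho Pool.Agent.SDG Pool.Agent.MDR Pool.Agent.SSC Pool.Agent.SSE Pool.Agent.SSF
open scoped Classical Pointwise

namespace Pool.Agent.SSX

/-- the group of the periods of a finite set -/
private def GdX_per {G : Type} [AddCommGroup G] (X : Finset G) : AddSubgroup G where
  carrier := {g | ∀ x ∈ X, x + g ∈ X}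
  add_mem' := by
    intro a b ha hb x hx
    have := hb _ (ha x hx)
    rwa [add_assoc] at this
  zero_mem' := by
    intro x hx
    simpa using hx
  neg_mem' := by
    intro g hg x hx
    have h1 : X.image (· + g) = X := by
      apply eq_of_subset_of_card_le
      · intro y hy
        obtain ⟨z, hz, rfl⟩ := mem_image.1 hy
        exact hg z hz
      · rw [card_image_of_injective _ (add_left_injective g)]
    rw [← h1] at hx
    obtain ⟨z, hz, rfl⟩ := mem_image.1 hx
    simpa using hz

private lemma GdX_mem {G : Type} [AddCommGroup G] {X : Finset G} {g : G} :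
    g ∈ GdX_per X ↔ ∀ x ∈ X, x + g ∈ X := Iff.rfl

/-- a finset with the elements of a subgroup -/
private lemma GdX_fin {G : Type} [AddCommGroup G] [Finite G] (L : AddSubgroup G) :
    ∃ F : Finset G, (∀ x, x ∈ F ↔ x ∈ L) ∧ F.card = Nat.card L := by
  refine ⟨(Set.toFinite (L : Set G)).toFinset, fun x => by simp, ?_⟩
  rw [← Set.ncard_eq_toFinset_card]
  rfl

private lemma GdX_zero {G : Type} [AddCommGroup G] (D : Finset G) (h0 : (0 : G) ∈ D) (i : ℕ) :
    (0 : G) ∈ it D i := by
  induction i with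
  | zero => simp [it]
  | succ i ih =>
    show (0 : G) ∈ it D i + D
    have := add_mem_add ih h0
    simpa using this

private lemma GdX_image {G G' : Type} [AddCommGroup G] [AddCommGroup G'] (φ : G →+ G')
    (D : Finset G) (i : ℕ) : it (D.image φ) i = (it D i).image φ := by
  induction i with
  | zero => simp [it]
  | succ i ih =>
    show it (D.image φ) i + D.image φ = (it D i + D).image φ
    rw [ih, image_add]

private lemma GdX_grow (hK : SDG.St_Kn) {G : Type} [AddCommGroup G] [Finite G] (D : Finset G)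
    (h0 : (0 : G) ∈ D) (i : ℕ) : Aper (it D i) → i * (D.card - 1) + 1 ≤ (it D i).card := by
  induction i with
  | zero => simp [it]
  | succ i ih =>
    intro hA
    have hD : D.Nonempty := ⟨0, h0⟩
    have hI : (it D i).Nonempty := ⟨0, GdX_zero D h0 i⟩
    have h1 := (hK G).1 (it D i) D hI hD hA
    have h2 := ih ((hK G).2.2.1 (it D i) D hI hD hA).1
    have h3 : 1 ≤ D.card := hD.card_pos
    show (i + 1) * (D.card - 1) + 1 ≤ (it D i + D).card
    rw [add_mul, one_mul]
    omega

private lemma GdX_num (l i m k d X : ℕ) (hl : 2 ≤ l) (hd : 2 * l ≤ d + 1) (hi : 1 ≤ i)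
    (hm : 3 ≤ m) (hdm : d ≤ k * m) (hX : k * (i * (m - 1) + 1) ≤ X) : i * l + 1 ≤ X := by
  obtain ⟨n, rfl⟩ : ∃ n, m = n + 3 := ⟨m - 3, by omega⟩
  obtain ⟨j, rfl⟩ : ∃ j, i = j + 1 := ⟨i - 1, by omega⟩
  obtain ⟨h, rfl⟩ : ∃ h, l = h + 2 := ⟨l - 2, by omega⟩
  have e1 : n + 3 - 1 = n + 2 := by omega
  rw [e1] at hX
  have h1 : (n + 3) * (2 * (j + 1) + 1) ≤ 3 * ((j + 1) * (n + 2) + 1) := by
    nlinarith [Nat.zero_le (j * n)]
  have h2 : k * ((n + 3) * (2 * (j + 1) + 1)) ≤ k * (3 * ((j + 1) * (n + 2) + 1)) :=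
    Nat.mul_le_mul_left _ h1
  have h3 : (2 * h + 3) * (2 * (j + 1) + 1) ≤ (k * (n + 3)) * (2 * (j + 1) + 1) :=
    Nat.mul_le_mul_right _ (by omega)
  have h4 : 3 * ((j + 1) * (h + 2) + 1) ≤ (2 * h + 3) * (2 * (j + 1) + 1) := by
    nlinarith [Nat.zero_le (j * h)]
  have h5 : (k * (n + 3)) * (2 * (j + 1) + 1) = k * ((n + 3) * (2 * (j + 1) + 1)) := by ring
  have h6 : k * (3 * ((j + 1) * (n + 2) + 1)) = 3 * (k * ((j + 1) * (n + 2) + 1)) := by ring
  omega

private lemma GdX_core (hK : SDG.St_Kn) {G Q : Type} [AddCommGroup G] [Finite G] [AddCommGroup Q]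
    [Finite Q] (D : Finset G) (l i : ℕ) (h0 : (0 : G) ∈ D) (hs : ∀ y ∈ D, -y ∈ D)
    (hD : AddSubgroup.closure (D : Set G) = ⊤) (hl : 2 ≤ l) (hJ : 2 * l ≤ D.card + 1)
    (hi1 : 1 ≤ i) (hG : ∃ x : G, x ∉ it D i) (π : G →+ Q)
    (hsur : Function.Surjective π) (hker : ∀ x, π x = 0 ↔ x ∈ GdX_per (it D i)) :
    i * l + 1 ≤ (it D i).card := by
  set X := it D i with hX
  have hX0 : (0 : G) ∈ X := GdX_zero D h0 i
  obtain ⟨HF, hHF, hHc⟩ := GdX_fin (GdX_per X)
  set H := GdX_per X with hH
  have hπ : ∀ x y : G, π x = π y ↔ y - x ∈ H := by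
    intro x y
    rw [← hker, map_sub, sub_eq_zero]
    exact eq_comm
  have hXH : ∀ x ∈ X, ∀ g ∈ H, x + g ∈ X := fun x hx g hg => GdX_mem.1 hg x hx
  -- the set is a union of cosets
  have hcard : X.card = Nat.card H * (X.image π).card := by
    rw [card_eq_sum_card_image π X, mul_comm, ← smul_eq_mul, ← sum_const]
    refine sum_congr rfl fun C hC => ?_
    obtain ⟨a, ha, rfl⟩ := mem_image.1 hC
    rw [← hHc]
    refine card_bij (fun x _ => x - a) ?_ (fun x _ y _ h => sub_left_injective h) ?_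
    · intro x hx
      rw [hHF]
      exact (hπ _ _).1 (mem_filter.1 hx).2.symm
    · intro y hy
      rw [hHF] at hy
      refine ⟨a + y, ?_, by abel⟩
      rw [mem_filter]
      refine ⟨hXH a ha y hy, ?_⟩
      rw [eq_comm, hπ]
      simpa using hy
  have himg : it (D.image π) i = X.image π := GdX_image π D i
  have hAp : Aper (it (D.image π) i) := by
    rw [himg]
    intro g hg
    obtain ⟨g, rfl⟩ := hsur g
    rw [hker, GdX_mem]
    intro x hx
    have h1 : π (x + g) ∈ X.image π := by
      rw [map_add]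
      exact hg _ (mem_image_of_mem _ hx)
    obtain ⟨y, hy, hyx⟩ := mem_image.1 h1
    have h2 := hXH y hy _ ((hπ _ _).1 hyx)
    simpa using h2
  have h0' : (0 : Q) ∈ D.image π := by
    rw [← map_zero π]
    exact mem_image_of_mem _ h0
  have hgrow := GdX_grow hK (D.image π) h0' i hAp
  rw [himg] at hgrow
  have hne : ∃ y ∈ D, y ∉ H := by
    by_contra hcon
    push Not at hcon
    have h1 : H = ⊤ := by
      rw [eq_top_iff, ← hD, AddSubgroup.closure_le]
      exact hcon
    obtain ⟨x, hx⟩ := hG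
    apply hx
    have := hXH 0 hX0 x (by rw [h1]; trivial)
    simpa using this
  obtain ⟨y0, hy0, hy0'⟩ := hne
  have hy1 : π y0 ≠ 0 := by
    intro h
    exact hy0' ((hker y0).1 h)
  have hy2 : π y0 ∈ D.image π := mem_image_of_mem _ hy0
  have hd3 : 3 ≤ (D.image π).card := by
    by_contra hlt
    have h1 : D.image π = {0, π y0} := by
      symm
      apply eq_of_subset_of_card_le
      · intro z hz
        rcases mem_insert.1 hz with rfl | hz
        · exact h0'
        · rw [mem_singleton.1 hz]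
          exact hy2
      · rw [card_pair hy1.symm]
        omega
    have h2 : π y0 + π y0 = 0 := by
      have h3 : π (-y0) ∈ D.image π := mem_image_of_mem _ (hs y0 hy0)
      rw [h1, map_neg] at h3
      rcases mem_insert.1 h3 with h3 | h3
      · exact absurd (neg_eq_zero.1 h3) hy1
      · have h4 := mem_singleton.1 h3
        nth_rewrite 1 [← h4]
        exact neg_add_cancel _
    apply hy1
    apply hAp
    intro x hx
    obtain ⟨n, rfl⟩ : ∃ n, i = n + 1 := ⟨i - 1, by omega⟩
    change x ∈ it (D.image π) n + D.image π at hx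
    show x + π y0 ∈ it (D.image π) n + D.image π
    obtain ⟨a, ha, b, hb, rfl⟩ := mem_add.1 hx
    rw [add_assoc]
    refine add_mem_add ha ?_
    rw [h1] at hb ⊢
    rcases mem_insert.1 hb with rfl | hb
    · simp
    · rw [mem_singleton.1 hb, h2]
      simp
  have hDc : D.card ≤ Nat.card H * (D.image π).card := by
    rw [card_eq_sum_card_image π D, mul_comm, ← smul_eq_mul, ← sum_const]
    refine sum_le_sum fun C hC => ?_
    obtain ⟨a, ha, rfl⟩ := mem_image.1 hC
    rw [← hHc]
    refine card_le_card_of_injOn (fun x => x - a) ?_ (fun x _ y _ h => sub_left_injective h)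
    intro x hx
    rw [mem_coe, mem_filter] at hx
    show x - a ∈ (HF : Set G)
    rw [mem_coe, hHF]
    exact (hπ _ _).1 hx.2.symm
  refine GdX_num l i (D.image π).card (Nat.card H) D.card X.card hl hJ hi1 hd3 hDc ?_
  rw [hcard]
  exact Nat.mul_le_mul_left _ hgrow

theorem thm_GdX : St_GdX := by
  intro G _ _ D l h0 hs hD hl hJ i hi
  by_cases hG : ∀ x : G, x ∈ it D i
  · exact Or.inl hG
  · right
    push Not at hG
    exact GdX_core SDG.thm_Kn D l i h0 hs hD hl hJ hi hG (QuotientAddGroup.mk' (GdX_per (it D i)))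
      (QuotientAddGroup.mk'_surjective _) (fun x => QuotientAddGroup.eq_zero_iff x)

end Pool.Agent.SSX
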