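import Pool.Agent.SSX.St

/-!
# SSX: module Q9X (two subgroups of index 3)
-/

set_option autoImplicit false

noncomputable section

open Finset Pool.Agent.Helper64.Rho Pool.Agent.SDG Pool.Agent.MDR Pool.Agent.SSC Pool.Agent.SSE Pool.Agent.SSF
open scoped Classical Pointwise

namespace Pool.Agent.SSX

/-- a subgroup of index 3 is the kernel of a homomorphism to `ZMod 3` -/
private theorem Q9X_hom {G : Type} [AddCommGroup G] [Finite G] (M : AddSubgroup G)
    (hM : M.index = 3) : ∃ φ : G →+ ZMod 3, ∀ x, φ x = 0 ↔ x ∈ M := by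
  have hc : Nat.card (G ⧸ M) = 3 := hM
  haveI : Fact (Nat.Prime 3) := ⟨Nat.prime_three⟩
  haveI : IsAddCyclic (G ⧸ M) := isAddCyclic_of_prime_card hc
  have e : ZMod 3 ≃+ (G ⧸ M) := by
    have e0 := zmodAddCyclicAddEquiv (G := G ⧸ M) inferInstance
    rw [hc] at e0
    exact e0
  refine ⟨e.symm.toAddMonoidHom.comp (QuotientAddGroup.mk' M), fun x => ?_⟩
  have h1 : (e.symm.toAddMonoidHom.comp (QuotientAddGroup.mk' M)) x = e.symm (x : G ⧸ M) := rfl
  rw [h1, AddEquiv.map_eq_zero_iff, QuotientAddGroup.eq_zero_iff]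

/-- the kernel of a nonzero homomorphism to `ZMod 3` has index 3 -/
private theorem Q9X_ker {G : Type} [AddCommGroup G] [Finite G] (ψ : G →+ ZMod 3)
    (h : ∃ x, ψ x ≠ 0) : ψ.ker.index = 3 := by
  obtain ⟨x, hx⟩ := h
  rw [AddSubgroup.index_ker]
  have h1 : Nat.card ψ.range ∣ 3 := by
    have := AddSubgroup.card_addSubgroup_dvd_card ψ.range
    rwa [Nat.card_zmod] at this
  rcases (Nat.dvd_prime Nat.prime_three).mp h1 with h2 | h2
  · exfalso
    rw [AddSubgroup.card_eq_one] at h2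
    have : ψ x ∈ ψ.range := ⟨x, rfl⟩
    rw [h2, AddSubgroup.mem_bot] at this
    exact hx this
  · exact h2

private theorem Q9X_outs {G ι : Type} [AddCommGroup G] [Finite G] (hI : St_IxF) (t : ℕ)
    (s : Finset ι) (f : ι → G) (L : AddSubgroup G) (h : CtxF t s f) (ht : 10 ≤ t)
    (hL : L.index = 3) : 6 ≤ (outs s f L).card := by
  have h1 := (hI G ι t s f L h (by omega) (by rw [hL]; exact Nat.prime_three)).2.1 hL
  have h2 : s.card = t := h.2.2.2.2.1
  have h3 : (ins s f L).card + (outs s f L).card = s.card := by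
    unfold ins outs
    exact card_filter_add_card_filter_not (s := s) (fun i => f i ∈ L)
  omega

/-- **Q9X** -/
theorem thm_Q9X : St_IxF → St_CvX → St_Q9X := by
  intro hI hC G ι _ _ t s f M M' hctx ht hM hM' hne
  obtain ⟨hC1, -, hC3, hC4, -⟩ := hC
  have hle : ¬ M' ≤ M := by
    intro hle
    have h1 := AddSubgroup.relIndex_mul_index hle
    rw [hM, hM'] at h1
    have h2 : M'.relIndex M = 1 := by omega
    rw [AddSubgroup.relIndex_eq_one] at h2
    exact hne (le_antisymm h2 hle)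
  have h9 : (M ⊓ M').index = 9 := by
    have := hC4 G M' M 3 Nat.prime_three hM hle
    rw [hM', inf_comm] at this
    exact this
  refine ⟨h9, ?_⟩
  obtain ⟨φ, hφ⟩ := Q9X_hom M hM
  obtain ⟨ψ, hψ⟩ := Q9X_hom M' hM'
  have hle' : ¬ M ≤ M' := by
    intro hle'
    have h1 := AddSubgroup.relIndex_mul_index hle'
    rw [hM, hM'] at h1
    have h2 : M.relIndex M' = 1 := by omega
    rw [AddSubgroup.relIndex_eq_one] at h2
    exact hne (le_antisymm hle' h2)
  -- elements of `M'` outside `M`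
  obtain ⟨a, ha', ha⟩ := SetLike.not_le_iff_exists.mp hle
  have hφa : φ a ≠ 0 := fun h => ha ((hφ a).mp h)
  have hψa : ψ a = 0 := (hψ a).mpr ha'
  -- the four subgroups
  let Λ : Fin 4 → (G →+ ZMod 3) := ![φ, ψ, φ + ψ, φ - ψ]
  have hΛ : ∀ k, (Λ k).ker.index = 3 := by
    intro k
    apply Q9X_ker
    obtain ⟨b, hb, hb'⟩ := SetLike.not_le_iff_exists.mp hle'
    have hψb : ψ b ≠ 0 := fun h => hb' ((hψ b).mp h)
    fin_cases k
    · exact ⟨a, hφa⟩
    · exact ⟨b, hψb⟩
    · refine ⟨a, ?_⟩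
      show φ a + ψ a ≠ 0
      rw [hψa, add_zero]
      exact hφa
    · refine ⟨a, ?_⟩
      show φ a - ψ a ≠ 0
      rw [hψa, sub_zero]
      exact hφa
  have hF : ∀ x, x ∈ M ⊓ M' ↔ φ x = 0 ∧ ψ x = 0 := by
    intro x
    rw [AddSubgroup.mem_inf, hφ, hψ]
  have hFL : ∀ k, M ⊓ M' ≤ (Λ k).ker := by
    intro k x hx
    obtain ⟨h1, h2⟩ := (hF x).mp hx
    rw [AddMonoidHom.mem_ker]
    fin_cases k
    · exact h1
    · exact h2
    · show φ x + ψ x = 0
      rw [h1, h2, add_zero]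
    · show φ x - ψ x = 0
      rw [h1, h2, sub_zero]
  have hcol : ∀ x : G, ∃ k : Fin 4, x ∈ (Λ k).ker := by
    intro x
    have key : ∀ u v : ZMod 3, u = 0 ∨ v = 0 ∨ u + v = 0 ∨ u - v = 0 := by decide
    rcases key (φ x) (ψ x) with h | h | h | h
    · exact ⟨0, h⟩
    · exact ⟨1, h⟩
    · exact ⟨2, h⟩
    · exact ⟨3, h⟩
  choose c hc using hcol
  -- six members outside `M ⊓ M'`
  have h6 : 6 ≤ (outs s f M).card := Q9X_outs hI t s f M hctx ht hM
  have hsub : outs s f M ⊆ outs s f (M ⊓ M') := by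
    intro i hi
    unfold outs at hi ⊢
    rw [mem_filter] at hi ⊢
    exact ⟨hi.1, fun h => hi.2 h.1⟩
  have h6' : 6 ≤ (outs s f (M ⊓ M')).card := h6.trans (card_le_card hsub)
  obtain ⟨x1, hx1, x2, hx2, hx12, hcc⟩ : ∃ x1 ∈ outs s f (M ⊓ M'), ∃ x2 ∈ outs s f (M ⊓ M'),
      x1 ≠ x2 ∧ c (f x1) = c (f x2) := by
    apply exists_ne_map_eq_of_card_lt_of_maps_to (t := (univ : Finset (Fin 4)))
    · rw [card_univ, Fintype.card_fin]
      omega
    · intro i _
      exact mem_coe.mpr (mem_univ _)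
  obtain ⟨L, hLdef⟩ : ∃ L : AddSubgroup G, L = (Λ (c (f x1))).ker := ⟨_, rfl⟩
  have hL3 : L.index = 3 := by rw [hLdef]; exact hΛ _
  have hFleL : M ⊓ M' ≤ L := by rw [hLdef]; exact hFL _
  have hx1L : f x1 ∈ L := by rw [hLdef]; exact hc _
  have hx2L : f x2 ∈ L := by rw [hLdef, hcc]; exact hc _
  have hrel : (M ⊓ M').relIndex L = 3 := by
    have h1 := AddSubgroup.relIndex_mul_index hFleL
    rw [hL3, h9] at h1
    omega
  unfold outs at hx1 hx2
  rw [mem_filter] at hx1 hx2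
  have h6L : 6 ≤ (outs s f L).card := Q9X_outs hI t s f L hctx ht hL3
  obtain ⟨w1, hw1, w2, hw2, hw12⟩ := one_lt_card.mp (by omega : 1 < (outs s f L).card)
  unfold outs at hw1 hw2
  rw [mem_filter] at hw1 hw2
  have hd : ∀ x w : ι, f x ∈ L → f w ∉ L → x ≠ w := by
    rintro x w hx hw rfl
    exact hw hx
  have hdis : Disjoint ({x1, x2} : Finset ι) {w1, w2} := by
    rw [disjoint_left]
    intro i hi hi'
    rw [mem_insert, mem_singleton] at hi hi'
    rcases hi with rfl | rfl <;> rcases hi' with h | h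
    · exact hd _ _ hx1L hw1.2 h
    · exact hd _ _ hx1L hw2.2 h
    · exact hd _ _ hx2L hw1.2 h
    · exact hd _ _ hx2L hw2.2 h
  have c1 := hC3 G ι x1 x2 f (M ⊓ M') L hx12 hFleL hrel hx1L hx2L hx1.2 hx2.2
  have c2 := hC3 G ι w1 w2 f L ⊤ hw12 le_top (by rw [AddSubgroup.relIndex_top_right]; exact hL3)
    (AddSubgroup.mem_top _) (AddSubgroup.mem_top _) hw1.2 hw2.2
  have c3 := hC1 G ι {x1, x2} {w1, w2} f (M ⊓ M') L hdis c1 (fun x => c2 x (AddSubgroup.mem_top _))
  refine ⟨{x1, x2} ∪ {w1, w2}, ?_, ?_, ?_, c3⟩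
  · intro i hi
    rw [mem_union, mem_insert, mem_singleton, mem_insert, mem_singleton] at hi
    rcases hi with (rfl | rfl) | (rfl | rfl)
    · exact hx1.1
    · exact hx2.1
    · exact hw1.1
    · exact hw2.1
  · rw [card_union_of_disjoint hdis, card_pair hx12, card_pair hw12]
  · intro i hi
    rw [mem_union, mem_insert, mem_singleton, mem_insert, mem_singleton] at hi
    rcases hi with (rfl | rfl) | (rfl | rfl)
    · exact hx1.2
    · exact hx2.2
    · exact fun h => hw1.2 (hFleL h)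
    · exact fun h => hw2.2 (hFleL h)

end Pool.Agent.SSX
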